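import Pool.Agent.H50R2.Family

set_option autoImplicit false

/-!
# Changing the bits of a block
-/

namespace Pool.Agent.H50R2

open Finset

variable {T G : Type} [Group G]

/-- The position `j` is in exactly one of the two arcs. -/
def SymD (o₁ l₁ o₂ l₂ j : ℕ) : Prop := ¬ ((o₁ ≤ j ∧ j < o₁ + l₁) ↔ (o₂ ≤ j ∧ j < o₂ + l₂))

lemma symD_cases {A B : Prop} (h : ¬ (A ↔ B)) : (A ∧ ¬ B) ∨ (¬ A ∧ B) := by tauto

namespace Fam

variable {h : T → G} {K : Type} [AddCommGroup K] (F : Fam h K) {c M : ℕ}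

/-- The word of a configuration. -/
noncomputable abbrev Wo (c : ℕ) {M : ℕ} (ω : Bool × Fin M → Bool) : ℕ → T := F.Wb c M (bits c ω)

lemma ev_block (β : ℕ → Bool × Bool) (lam v : ℕ) :
    ev h (seg (F.Wb c M β) (v * (lam * F.L)) (lam * F.L)) =
      F.φ (∑ t ∈ Finset.Ico (v * lam) ((v + 1) * lam), F.V c M β t) := by
  have h1 := F.ev_slots c M β (v * lam) lam
  rw [← mul_assoc, h1]
  congr 2
  ring_nf

section Block

variable {N' c' lam : ℕ} (hM : M = N' * lam) (hc : c = c' * lam) (hcN : c' ≤ N')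
  (hc2 : Even c) (hM2 : Even M) {m : ℕ} (hm : M ≤ m)
  (hind : ∀ d : ℕ → ℤ, (∀ b, |d b| ≤ 1) → ∑ b ∈ range m, d b • F.κ b = 0 → ∀ b, b < m → d b = 0)
  {i : Bool} {v : ℕ} (hv : v < N') (hne : rho c' N' i v ≠ v)
  {ω ω' : Bool × Fin M → Bool} (H : Agree lam i (min v (rho c' N' i v)) ω ω')

include hM hc hcN hv hne H

/-- The lower of the two blocks is `u` and the upper one is its mirror image. -/
lemma lower_cases : ∃ u, u < N' ∧ u < rho c' N' i u ∧ Agree lam i u ω ω' ∧
    ((v = u ∧ rho c' N' i v = rho c' N' i u) ∨ (v = rho c' N' i u ∧ rho c' N' i v = u)) := by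
  rcases lt_or_gt_of_ne hne with h1 | h1
  · rw [min_eq_right h1.le] at H
    refine ⟨rho c' N' i v, rho_lt hcN i hv, ?_, H, Or.inr ⟨(rho_rho hcN i hv).symm, rfl⟩⟩
    rw [rho_rho hcN i hv]
    exact h1
  · rw [min_eq_left h1.le] at H
    exact ⟨v, hv, h1, H, Or.inl ⟨rfl, rfl⟩⟩

lemma letters_eq {j : ℕ} (hj : j < M * F.L)
    (h1 : ¬ (v * (lam * F.L) ≤ j ∧ j < (v + 1) * (lam * F.L)))
    (h2 : ¬ (rho c' N' i v * (lam * F.L) ≤ j ∧ j < (rho c' N' i v + 1) * (lam * F.L))) :
    F.Wo c ω j = F.Wo c ω' j := by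
  have hL := F.L_pos
  have hjt : j / F.L < M := by rw [Nat.div_lt_iff_lt_mul hL]; exact hj
  have hblock : ∀ w, ¬ (w * (lam * F.L) ≤ j ∧ j < (w + 1) * (lam * F.L)) →
      ¬ (w * lam ≤ j / F.L ∧ j / F.L < (w + 1) * lam) := by
    rintro w hw ⟨h3, h4⟩
    apply hw
    rw [Nat.le_div_iff_mul_le hL] at h3
    rw [Nat.div_lt_iff_lt_mul hL] at h4
    constructor
    · rw [← mul_assoc]; exact h3
    · rw [← mul_assoc]; exact h4
  have e1 := hblock _ h1
  have e2 := hblock _ h2
  obtain ⟨u, hu, huu, Hu, hcase⟩ := lower_cases hM hc hcN hv hne H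
  have hb : bits c ω (j / F.L) = bits c ω' (j / F.L) := by
    apply bits_eq hM hc hcN hu Hu hjt
    · rcases hcase with ⟨h3, h4⟩ | ⟨h3, h4⟩
      · rw [← h3]; exact e1
      · rw [← h4]; exact e2
    · rcases hcase with ⟨h3, h4⟩ | ⟨h3, h4⟩
      · rw [← h4]; exact e2
      · rw [← h3]; exact e1
  unfold Wo Wb
  rw [hb]

include hc2 hM2 hm hind in
lemma block_inj (heq : ev h (seg (F.Wo c ω) (v * (lam * F.L)) (lam * F.L)) =
    ev h (seg (F.Wo c ω') (v * (lam * F.L)) (lam * F.L))) : ω = ω' := by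
  rw [ev_block, ev_block] at heq
  have hs := F.φ_inj heq
  obtain ⟨u, hu, huu, Hu, hcase⟩ := lower_cases hM hc hcN hv hne H
  have huM : (u + 1) * lam ≤ M := by rw [hM]; exact Nat.mul_le_mul_right _ hu
  rcases hcase with ⟨h3, h4⟩ | ⟨h3, h4⟩
  · subst h3
    apply F.eq_of_sum hm hind Hu huM
    rw [← F.sum_lower hM hc hcN hu huu Hu, hs, sub_self]
  · subst h3
    apply F.eq_of_sum hm hind Hu huM
    rw [← neg_eq_zero, ← F.sum_upper hM hc hcN hc2 hM2 hu huu Hu, hs, sub_self]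

include hc2 hM2 in
/-- The value of a region containing the two blocks does not change. -/
lemma region_eq {a l : ℕ} (hal : a + l ≤ M * F.L)
    (h1 : a ≤ v * (lam * F.L)) (h1' : (v + 1) * (lam * F.L) ≤ a + l)
    (h2 : a ≤ rho c' N' i v * (lam * F.L)) (h2' : (rho c' N' i v + 1) * (lam * F.L) ≤ a + l) :
    ev h (seg (F.Wo c ω) a l) = ev h (seg (F.Wo c ω') a l) := by
  obtain ⟨u, hu, huu, Hu, hcase⟩ := lower_cases hM hc hcN hv hne H
  set y := rho c' N' i u with hy
  have hyN : y < N' := rho_lt hcN i hu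
  obtain ⟨k1, k2⟩ : a ≤ u * (lam * F.L) ∧ (y + 1) * (lam * F.L) ≤ a + l := by
    rcases hcase with ⟨h3, h4⟩ | ⟨h3, h4⟩
    · rw [← h3, ← h4]; exact ⟨h1, h2'⟩
    · rw [← h4, ← h3]; exact ⟨h2, h1'⟩
  -- the aligned region between the two blocks
  have hreg : ∀ β : ℕ → Bool × Bool, ev h (seg (F.Wb c M β) (u * (lam * F.L))
      ((y + 1 - u) * (lam * F.L))) =
      F.φ (∑ t ∈ Finset.Ico (u * lam) ((y + 1) * lam), F.V c M β t) := by
    intro β
    have e1 := F.ev_slots c M β (u * lam) ((y + 1 - u) * lam)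
    have e2 : u * lam + (y + 1 - u) * lam = (y + 1) * lam := by
      rw [← add_mul]; congr 1; omega
    rw [e2] at e1
    rw [← e1]
    congr 2 <;> ring
  have hsum : ∑ t ∈ Finset.Ico (u * lam) ((y + 1) * lam), F.V c M (bits c ω) t =
      ∑ t ∈ Finset.Ico (u * lam) ((y + 1) * lam), F.V c M (bits c ω') t := by
    have o1 : u * lam ≤ (u + 1) * lam := Nat.mul_le_mul_right _ (by omega)
    have o2 : (u + 1) * lam ≤ y * lam := Nat.mul_le_mul_right _ (by omega)
    have o3 : y * lam ≤ (y + 1) * lam := Nat.mul_le_mul_right _ (by omega)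
    have hsplit : ∀ β : ℕ → Bool × Bool, ∑ t ∈ Finset.Ico (u * lam) ((y + 1) * lam), F.V c M β t =
        ∑ t ∈ Finset.Ico (u * lam) ((u + 1) * lam), F.V c M β t +
        ∑ t ∈ Finset.Ico ((u + 1) * lam) (y * lam), F.V c M β t +
        ∑ t ∈ Finset.Ico (y * lam) ((y + 1) * lam), F.V c M β t := by
      intro β
      rw [Finset.sum_Ico_consecutive _ o1 o2, Finset.sum_Ico_consecutive _ (o1.trans o2) o3]
    have hmid : ∑ t ∈ Finset.Ico ((u + 1) * lam) (y * lam), F.V c M (bits c ω) t =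
        ∑ t ∈ Finset.Ico ((u + 1) * lam) (y * lam), F.V c M (bits c ω') t := by
      apply Finset.sum_congr rfl
      intro t ht
      rw [mem_Ico] at ht
      have htM : t < M := by
        rw [hM]
        have := Nat.mul_le_mul_right lam hyN.le
        omega
      have := bits_eq hM hc hcN hu Hu htM (by omega) (by rw [← hy]; omega)
      unfold V
      rw [this]
    have d1 := F.sum_lower hM hc hcN hu huu Hu
    have d2 := F.sum_upper hM hc hcN hc2 hM2 hu huu Hu
    rw [← hy] at d2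
    rw [hsplit, hsplit, hmid]
    rw [sub_eq_iff_eq_add] at d1 d2
    rw [d1, d2]
    abel
  have hB : u * (lam * F.L) ≤ (y + 1) * (lam * F.L) := Nat.mul_le_mul_right _ (by omega)
  have hlen : (y + 1 - u) * (lam * F.L) = (y + 1) * (lam * F.L) - u * (lam * F.L) := by
    rw [Nat.sub_mul]
  have hdec : ∀ W : ℕ → T, seg W a l = seg W a (u * (lam * F.L) - a) ++
      (seg W (u * (lam * F.L)) ((y + 1 - u) * (lam * F.L)) ++
      seg W ((y + 1) * (lam * F.L)) (a + l - (y + 1) * (lam * F.L))) := by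
    intro W
    have e1 : l = (u * (lam * F.L) - a) + ((y + 1 - u) * (lam * F.L) +
      (a + l - (y + 1) * (lam * F.L))) := by omega
    conv_lhs => rw [e1, seg_add, seg_add]
    rw [show a + (u * (lam * F.L) - a) = u * (lam * F.L) by omega,
      show u * (lam * F.L) + (y + 1 - u) * (lam * F.L) = (y + 1) * (lam * F.L) by omega]
  rw [hdec, hdec, ev_append, ev_append, ev_append, ev_append, hreg, hreg, hsum]
  have hout : ∀ j, j < M * F.L → (j < u * (lam * F.L) ∨ (y + 1) * (lam * F.L) ≤ j) →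
      F.Wo c ω j = F.Wo c ω' j := by
    intro j hj hj'
    have o1 : (u + 1) * (lam * F.L) ≤ y * (lam * F.L) := Nat.mul_le_mul_right _ (by omega)
    have o0 : u * (lam * F.L) ≤ (u + 1) * (lam * F.L) := Nat.mul_le_mul_right _ (by omega)
    have o3 : y * (lam * F.L) ≤ (y + 1) * (lam * F.L) := Nat.mul_le_mul_right _ (by omega)
    apply letters_eq F hM hc hcN hv hne H hj
    · rcases hcase with ⟨h3, h4⟩ | ⟨h3, h4⟩
      · rw [h3]; omega
      · rw [h3]; omega
    · rcases hcase with ⟨h3, h4⟩ | ⟨h3, h4⟩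
      · rw [h4]; omega
      · rw [h4]; omega
  rw [seg_congr (V := F.Wo c ω) (W := F.Wo c ω') (fun j _ _ => hout j (by omega) (by omega)),
    seg_congr (V := F.Wo c ω) (W := F.Wo c ω') (fun j _ _ => hout j (by omega) (by omega))]

lemma none_eq {a l : ℕ} (hal : a + l ≤ M * F.L)
    (h1 : (v + 1) * (lam * F.L) ≤ a ∨ a + l ≤ v * (lam * F.L))
    (h2 : (rho c' N' i v + 1) * (lam * F.L) ≤ a ∨ a + l ≤ rho c' N' i v * (lam * F.L)) :
    ev h (seg (F.Wo c ω) a l) = ev h (seg (F.Wo c ω') a l) := by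
  congr 1
  apply seg_congr
  intro j hj1 hj2
  apply letters_eq F hM hc hcN hv hne H (by omega) (by omega) (by omega)

omit hv hne H hM hc hcN in
/-- Cut out block `v` from a word. -/
lemma cut_block {W W' : ℕ → T} {v B a l : ℕ} (h1 : a ≤ v * B) (h1' : (v + 1) * B ≤ a + l)
    (hW : ∀ j, a ≤ j → j < a + l → ¬ (v * B ≤ j ∧ j < (v + 1) * B) → W j = W' j)
    (heq : ev h (seg W a l) = ev h (seg W' a l)) :
    ev h (seg W (v * B) B) = ev h (seg W' (v * B) B) := by
  have e0 : (v + 1) * B = v * B + B := by ring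
  have hdec : ∀ W : ℕ → T, seg W a l = seg W a (v * B - a) ++
      (seg W (v * B) B ++ seg W ((v + 1) * B) (a + l - (v + 1) * B)) := by
    intro W
    have e1 : l = (v * B - a) + (B + (a + l - (v + 1) * B)) := by omega
    conv_lhs => rw [e1, seg_add, seg_add]
    rw [show a + (v * B - a) = v * B by omega, e0]
  rw [hdec, hdec, ev_append, ev_append, ev_append, ev_append,
    seg_congr (V := W) (W := W') (a := a) (l := v * B - a)
      (fun j _ _ => hW j (by omega) (by omega) (by omega)),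
    seg_congr (V := W) (W := W') (a := (v + 1) * B) (l := a + l - (v + 1) * B)
      (fun j _ _ => hW j (by omega) (by omega) (by omega))] at heq
  exact mul_right_cancel (mul_left_cancel heq)

include hc2 hM2 hm hind in
lemma one_inj {a l : ℕ} (hal : a + l ≤ M * F.L)
    (h1 : a ≤ v * (lam * F.L)) (h1' : (v + 1) * (lam * F.L) ≤ a + l)
    (h2 : (rho c' N' i v + 1) * (lam * F.L) ≤ a ∨ a + l ≤ rho c' N' i v * (lam * F.L))
    (heq : ev h (seg (F.Wo c ω) a l) = ev h (seg (F.Wo c ω') a l)) : ω = ω' := by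
  apply block_inj F hM hc hcN hc2 hM2 hm hind hv hne H
  apply cut_block h1 h1' _ heq
  intro j hj1 hj2 hj3
  exact letters_eq F hM hc hcN hv hne H (by omega) hj3 (by omega)

omit hne H in
include hc2 hM2 hm hind in
/-- Two configurations which agree outside a block and for which two arcs have equal values. -/
lemma rig_inj {o₁ l₁ o₂ l₂ : ℕ} (hn₁ : o₁ + l₁ ≤ M * F.L) (hn₂ : o₂ + l₂ ≤ M * F.L)
    {E : Finset ℕ} (hE : o₁ ∈ E ∧ o₁ + l₁ ∈ E ∧ o₂ ∈ E ∧ o₂ + l₂ ∈ E)
    (hlam : 1 ≤ lam)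
    (hin : InB (SymD o₁ l₁ o₂ l₂) (lam * F.L) v)
    (hout : InB (fun j => ¬ SymD o₁ l₁ o₂ l₂ j) (lam * F.L) (rho c' N' i v))
    (hu : Uncut E (lam * F.L) v) (hu' : Uncut E (lam * F.L) (rho c' N' i v))
    {ω ω' : Bool × Fin M → Bool} (H : Agree lam i (min v (rho c' N' i v)) ω ω')
    (h1 : ev h (seg (F.Wo c ω) o₁ l₁) = ev h (seg (F.Wo c ω) o₂ l₂))
    (h2 : ev h (seg (F.Wo c ω') o₁ l₁) = ev h (seg (F.Wo c ω') o₂ l₂)) : ω = ω' := by
  have hB : 1 ≤ lam * F.L := Nat.mul_pos hlam F.L_pos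
  have e0 : (v + 1) * (lam * F.L) = v * (lam * F.L) + lam * F.L := by ring
  have e0' : (rho c' N' i v + 1) * (lam * F.L) = rho c' N' i v * (lam * F.L) + lam * F.L := by ring
  have hne : rho c' N' i v ≠ v := by
    intro hcon
    rw [hcon] at hout
    exact hout _ le_rfl (by omega) (hin _ le_rfl (by omega))
  have c1 := hu _ hE.1
  have c2 := hu _ hE.2.1
  have c3 := hu _ hE.2.2.1
  have c4 := hu _ hE.2.2.2
  have c1' := hu' _ hE.1
  have c2' := hu' _ hE.2.1
  have c3' := hu' _ hE.2.2.1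
  have c4' := hu' _ hE.2.2.2
  have hi := symD_cases (hin _ le_rfl (by omega))
  have ho := not_not.1 (hout _ le_rfl (by omega))
  -- the block `v'` as a block with mirror image `v`
  have hv' : rho c' N' i v < N' := rho_lt hcN i hv
  have hρ : rho c' N' i (rho c' N' i v) = v := rho_rho hcN i hv
  have H' : Agree lam i (min (rho c' N' i v) (rho c' N' i (rho c' N' i v))) ω ω' := by
    rw [hρ, min_comm]; exact H
  have hne' : rho c' N' i (rho c' N' i v) ≠ rho c' N' i v := by rw [hρ]; exact hne.symm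
  have NN := fun (a l : ℕ) => none_eq F hM hc hcN hv hne H (a := a) (l := l)
  have RR := fun (a l : ℕ) => region_eq F hM hc hcN hc2 hM2 hv hne H (a := a) (l := l)
  have OO := fun (a l : ℕ) => one_inj F hM hc hcN hc2 hM2 hm hind hv hne H (a := a) (l := l)
  have OO' := fun (a l : ℕ) => one_inj F hM hc hcN hc2 hM2 hm hind hv' hne' H' (a := a) (l := l)
  rw [hρ] at OO'
  clear H H' hne' hρ hv' hin hout hu hu' hE hind hm hM hc hcN hne
  generalize v * (lam * F.L) = x at *
  generalize (v + 1) * (lam * F.L) = x' at *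
  generalize rho c' N' i v * (lam * F.L) = y at *
  generalize (rho c' N' i v + 1) * (lam * F.L) = y' at *
  rcases hi with ⟨a1, a2⟩ | ⟨a1, a2⟩
  · by_cases b1 : o₁ ≤ y ∧ y < o₁ + l₁
    · have b2 := ho.1 b1
      -- arc 1 contains both, arc 2 contains only `v'`
      have r1 := RR o₁ l₁ hn₁ (by omega) (by omega) (by omega) (by omega)
      exact OO' o₂ l₂ hn₂ (by omega) (by omega) (by omega) (by rw [← h1, ← h2, r1])
    · have b2 := mt ho.2 b1
      have r1 := NN o₂ l₂ hn₂ (by omega) (by omega)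
      exact OO o₁ l₁ hn₁ (by omega) (by omega) (by omega) (by rw [h1, h2, r1])
  · by_cases b1 : o₁ ≤ y ∧ y < o₁ + l₁
    · have b2 := ho.1 b1
      have r1 := RR o₂ l₂ hn₂ (by omega) (by omega) (by omega) (by omega)
      exact OO' o₁ l₁ hn₁ (by omega) (by omega) (by omega) (by rw [h1, h2, r1])
    · have b2 := mt ho.2 b1
      have r1 := NN o₁ l₁ hn₁ (by omega) (by omega)
      exact OO o₂ l₂ hn₂ (by omega) (by omega) (by omega) (by rw [← h1, ← h2, r1])

omit hne H in
include hc2 hM2 hm hind in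
/-- Two configurations which agree outside a block and can be mixed. -/
lemma mix_inj {P : ℕ → Prop} (hlam : 1 ≤ lam) (hin : InB P (lam * F.L) v)
    (hout : InB (fun j => ¬ P j) (lam * F.L) (rho c' N' i v))
    {ω ω' : Bool × Fin M → Bool} (H : Agree lam i (min v (rho c' N' i v)) ω ω')
    {Vw : ℕ → T} (hV : ∀ j, P j → Vw j = F.Wo c ω' j) (hV' : ∀ j, ¬ P j → Vw j = F.Wo c ω j)
    (h1 : ev h (seg Vw 0 (M * F.L)) = 1) : ω = ω' := by
  have hB : 1 ≤ lam * F.L := Nat.mul_pos hlam F.L_pos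
  have e0 : (v + 1) * (lam * F.L) = v * (lam * F.L) + lam * F.L := by ring
  have hne : rho c' N' i v ≠ v := by
    intro hcon
    rw [hcon] at hout
    exact hout _ le_rfl (by omega) (hin _ le_rfl (by omega))
  have hcM : c ≤ M := by rw [hM, hc]; exact Nat.mul_le_mul_right _ hcN
  have h2 := F.ev_total hcM hc2 hM2 ω
  have hvM : (v + 1) * (lam * F.L) ≤ M * F.L := by
    rw [hM]
    calc (v + 1) * (lam * F.L) ≤ N' * (lam * F.L) := Nat.mul_le_mul_right _ hv
      _ = _ := by ring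
  have h3 := cut_block (h := h) (W := Vw) (W' := F.Wo c ω) (v := v) (B := lam * F.L) (a := 0)
    (l := M * F.L) (by omega) (by omega) (by
      intro j _ hj2 hj3
      by_cases hP : P j
      · rw [hV j hP]
        refine (letters_eq F hM hc hcN hv hne H (by omega) hj3 ?_).symm
        rintro ⟨h4, h5⟩
        exact hout j h4 h5 hP
      · exact hV' j hP) (h1.trans h2.symm)
  apply block_inj F hM hc hcN hc2 hM2 hm hind hv hne H
  rw [← h3]
  congr 1
  apply seg_congr
  intro j hj1 hj2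
  exact hV j (hin j hj1 (by omega))

end Block

end Fam

end Pool.Agent.H50R2
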