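import Pool.Agent.H50R2.Families

set_option autoImplicit false

/-!
# Families of words from commuting elements
-/

namespace Pool.Agent.H50R2

open Finset

variable {T G : Type} [Group G]

/-- The commutative group generated by pairwise commuting elements, written additively. -/
def CK (g : ℕ → G) : Type := Additive (Subgroup.closure (Set.range g))

/-- The group structure. -/
@[reducible] noncomputable def instCK (g : ℕ → G) (hg : ∀ i j, Commute (g i) (g j)) :
    AddCommGroup (CK g) :=
  @Additive.addCommGroup _ (@CommGroup.mk _ (inferInstance : Group (Subgroup.closure (Set.range g)))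
    (by
      have h1 := Subgroup.isMulCommutative_closure (k := Set.range g) (by
        rintro _ ⟨i, rfl⟩ _ ⟨j, rfl⟩; exact hg i j)
      exact h1.is_comm.comm))

/-- The family of words attached to pairwise commuting elements. -/
noncomputable def famOf (h : T → G) (g : ℕ → G) (hg : ∀ i j, Commute (g i) (g j)) (ℓ : ℕ)
    (pos : 1 ≤ ℓ) (E E' : ℕ → List T) (I : List T) (lenE : ∀ b, (E b).length = ℓ)
    (lenE' : ∀ b, (E' b).length = ℓ) (lenI : I.length = ℓ) (evE : ∀ b, ev h (E b) = g b)
    (evE' : ∀ b, ev h (E' b) = (g b)⁻¹) (evI : ev h I = 1) :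
    @Fam T G _ h (CK g) (instCK g hg) :=
  letI := instCK g hg
  { ℓ := ℓ
    pos := pos
    E := E
    E' := E'
    I := I
    lenE := lenE
    lenE' := lenE'
    lenI := lenI
    φ := fun x => ((Additive.toMul x : Subgroup.closure (Set.range g)) : G)
    φ_zero := rfl
    φ_add := fun _ _ => rfl
    φ_inj := fun _ _ hxy => Subtype.ext hxy
    κ := fun b => Additive.ofMul ⟨g b, Subgroup.subset_closure ⟨b, rfl⟩⟩
    evE := evE
    evE' := evE'
    evI := evI }

end Pool.Agent.H50R2
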