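import Pool.Agent.H50R2.Arcs

set_option autoImplicit false

/-!
# Counting configurations
-/

namespace Pool.Agent.H50R2

open Finset Fam IndexedGrammar

lemma card_le_of_agree {ι : Type} [Fintype ι] [DecidableEq ι] (Q : Finset (ι → Bool))
    (S : Finset ι) (h : ∀ x ∈ Q, ∀ y ∈ Q, (∀ j, j ∉ S → x j = y j) → x = y) :
    #Q * 2 ^ #S ≤ 2 ^ Fintype.card ι := by
  have h1 : #Q ≤ Fintype.card ({j // j ∉ S} → Bool) := by
    rw [← Finset.card_univ]
    apply Finset.card_le_card_of_injOn (fun x => fun j : {j // j ∉ S} => x j.1)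
    · intro x _; simp
    · intro x hx y hy hxy
      apply h x hx y hy
      intro j hj
      exact congrFun hxy ⟨j, hj⟩
  have h2 : Fintype.card {j // j ∉ S} + #S = Fintype.card ι := by
    have := Fintype.card_subtype_compl (fun j => j ∈ S)
    rw [this, Fintype.card_coe]
    exact Nat.sub_add_cancel (Finset.card_le_univ S)
  rw [Fintype.card_fun, Fintype.card_bool] at h1
  calc #Q * 2 ^ #S ≤ 2 ^ Fintype.card {j // j ∉ S} * 2 ^ #S := Nat.mul_le_mul_right _ h1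
    _ = _ := by rw [← pow_add, h2]

lemma card_le_of_block {M lam : ℕ} (i : Bool) (u : ℕ) (hu : (u + 1) * lam ≤ M)
    (Q : Finset (Bool × Fin M → Bool))
    (h : ∀ x ∈ Q, ∀ y ∈ Q, Agree lam i u x y → x = y) : #Q * 2 ^ lam ≤ 2 ^ (2 * M) := by
  classical
  have e0 : (u + 1) * lam = u * lam + lam := by ring
  let S : Finset (Bool × Fin M) := {x | x.1 = i ∧ u * lam ≤ x.2.1 ∧ x.2.1 < (u + 1) * lam}
  have h1 := card_le_of_agree Q S (by
    intro x hx y hy hxy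
    apply h x hx y hy
    intro j hj
    apply hxy
    simpa [S] using hj)
  have h2 : lam ≤ #S := by
    have h3 : #(Finset.univ : Finset (Fin lam)) ≤ #S := by
      apply Finset.card_le_card_of_injOn
        (fun s : Fin lam => (i, (⟨u * lam + s.1, by omega⟩ : Fin M)))
      · intro s _
        simp only [S, Finset.coe_filter, Finset.mem_univ, true_and, Set.mem_ofPred_eq]
        omega
      · intro s _ s' _ hss
        simp only [Prod.mk.injEq, Fin.mk.injEq, true_and] at hss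
        apply Fin.ext
        omega
    simpa using h3
  calc #Q * 2 ^ lam ≤ #Q * 2 ^ #S := Nat.mul_le_mul_left _ (Nat.pow_le_pow_right (by norm_num) h2)
    _ ≤ _ := h1
    _ = _ := by simp

/-- The arcs are cut only at their end points. -/
lemma symD_cut (o₁ l₁ o₂ l₂ : ℕ) : CutIn' {o₁, o₁ + l₁, o₂, o₂ + l₂} (SymD o₁ l₁ o₂ l₂) := by
  intro i hi
  simp only [mem_insert, mem_singleton, not_or] at hi
  unfold SymD
  have h1 : (o₁ ≤ i ∧ i < o₁ + l₁) ↔ (o₁ ≤ i + 1 ∧ i + 1 < o₁ + l₁) := by omega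
  have h2 : (o₂ ≤ i ∧ i < o₂ + l₂) ↔ (o₂ ≤ i + 1 ∧ i + 1 < o₂ + l₂) := by omega
  rw [h1, h2]

/-- An interval of ten block lengths contains nine blocks. -/
lemma run_of_interval {P : ℕ → Prop} {B N' a : ℕ} (hB : 1 ≤ B) (ha : a + 10 * B ≤ N' * B)
    (h : ∀ j, a ≤ j → j < a + 10 * B → P j) :
    ∃ x, x + (2 * 4 + 1) ≤ N' ∧ ∀ v, x ≤ v → v < x + (2 * 4 + 1) → InB P B v := by
  have h1 : (a + B - 1) / B * B ≤ a + B - 1 := Nat.div_mul_le_self _ _
  have h2 : a + B - 1 < (a + B - 1) / B * B + B := Nat.lt_div_mul_add hB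
  set x := (a + B - 1) / B with hx
  have h3 : (x + 9) * B = x * B + 9 * B := by ring
  refine ⟨x, ?_, ?_⟩
  · by_contra hcon
    have h4 : (N' + 1) * B ≤ (x + 9) * B := Nat.mul_le_mul_right _ (by omega)
    have h5 : (N' + 1) * B = N' * B + B := by ring
    omega
  · intro v hv1 hv2 j hj1 hj2
    have h4 : x * B ≤ v * B := Nat.mul_le_mul_right _ hv1
    have h5 : (v + 1) * B ≤ (x + 9) * B := Nat.mul_le_mul_right _ (by omega)
    exact h j (by omega) (by omega)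

variable {T G : Type} [Group G] {h : T → G} {K : Type} [AddCommGroup K] (F : Fam h K)

lemma not_rig {Λ n : ℕ} {W : ℕ → T} (hΛ : 1 ≤ Λ) (hr : ¬ Rig h Λ n W) : ∃ o₁ l₁ o₂ l₂,
    o₁ + l₁ ≤ n ∧ o₂ + l₂ ≤ n ∧ ev h (seg W o₁ l₁) = ev h (seg W o₂ l₂) ∧
    (∃ a, a + Λ ≤ n ∧ ∀ j, a ≤ j → j < a + Λ → SymD o₁ l₁ o₂ l₂ j) ∧
    (∃ a, a + Λ ≤ n ∧ ∀ j, a ≤ j → j < a + Λ → ¬ SymD o₁ l₁ o₂ l₂ j) := by
  unfold Rig at hr
  push Not at hr
  obtain ⟨o₁, l₁, o₂, l₂, h1, h2, h3, h4, h5, h6⟩ := hr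
  refine ⟨o₁, l₁, o₂, l₂, h3, h4, h5, ?_⟩
  have S1 : ∀ j, (o₁ ≤ j ∧ j < o₁ + l₁) → ¬ (o₂ ≤ j ∧ j < o₂ + l₂) → SymD o₁ l₁ o₂ l₂ j :=
    fun j h7 h8 h9 => h8 (h9.1 h7)
  have S2 : ∀ j, ¬ (o₁ ≤ j ∧ j < o₁ + l₁) → (o₂ ≤ j ∧ j < o₂ + l₂) → SymD o₁ l₁ o₂ l₂ j :=
    fun j h7 h8 h9 => h7 (h9.2 h8)
  have S3 : ∀ j, (o₁ ≤ j ∧ j < o₁ + l₁) → (o₂ ≤ j ∧ j < o₂ + l₂) → ¬ SymD o₁ l₁ o₂ l₂ j :=
    fun j h7 h8 h9 => h9 ⟨fun _ => h8, fun _ => h7⟩
  have S4 : ∀ j, ¬ (o₁ ≤ j ∧ j < o₁ + l₁) → ¬ (o₂ ≤ j ∧ j < o₂ + l₂) → ¬ SymD o₁ l₁ o₂ l₂ j :=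
    fun j h7 h8 h9 => h9 ⟨fun h => absurd h h7, fun h => absurd h h8⟩
  by_cases hnest : o₂ ≤ o₁ → o₁ + l₁ ≤ o₂ + l₂ → o₁ ≤ o₂ + Λ ∧ o₂ + l₂ ≤ o₁ + l₁ + Λ
  · obtain ⟨h7, h8⟩ := h6 hnest
    refine ⟨⟨o₁, by omega, fun j hj hj' => S1 j (by omega) (by omega)⟩, ?_⟩
    rcases Nat.lt_or_ge o₁ Λ with h9 | h9
    · rcases Nat.lt_or_ge (o₂ - (o₁ + l₁)) Λ with h10 | h10
      · exact ⟨o₂ + l₂, by omega, fun j hj hj' => S4 j (by omega) (by omega)⟩
      · exact ⟨o₁ + l₁, by omega, fun j hj hj' => S4 j (by omega) (by omega)⟩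
    · exact ⟨0, by omega, fun j hj hj' => S4 j (by omega) (by omega)⟩
  · push Not at hnest
    obtain ⟨h7, h8, h9⟩ := hnest
    refine ⟨?_, ⟨o₁, by omega, fun j hj hj' => S3 j (by omega) (by omega)⟩⟩
    rcases Nat.lt_or_ge (o₂ + Λ) o₁ with h10 | h10
    · exact ⟨o₂, by omega, fun j hj hj' => S2 j (by omega) (by omega)⟩
    · have := h9 h10
      exact ⟨o₁ + l₁, by omega, fun j hj hj' => S2 j (by omega) (by omega)⟩

open Classical in
/-- Few configurations are not rigid. -/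
lemma card_bad {N c' lam c M : ℕ} (hM : M = N * c' * lam) (hc : c = c' * lam) (hN : 4 < N)
    (hc' : 9 ≤ c') (hlam : 1 ≤ lam) (hc2 : Even c) (hM2 : Even M) {m : ℕ} (hm : M ≤ m)
    (hind : ∀ d : ℕ → ℤ, (∀ b, |d b| ≤ 1) → ∑ b ∈ range m, d b • F.κ b = 0 →
      ∀ b, b < m → d b = 0) :
    #{ω : Bool × Fin M → Bool | ¬ Rig h (10 * (lam * F.L)) (M * F.L) (F.Wo c ω)} * 2 ^ lam ≤
      (M * F.L + 1) ^ 4 * 2 ^ (2 * M) := by
  have hB : 1 ≤ lam * F.L := Nat.mul_pos hlam F.L_pos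
  have hnB : M * F.L = N * c' * (lam * F.L) := by rw [hM]; ring
  have hcN : c' ≤ N * c' := Nat.le_mul_of_pos_left _ (by omega)
  set R := range (M * F.L + 1) with hR
  let quad : Finset (ℕ × ℕ × ℕ × ℕ) := R ×ˢ R ×ˢ R ×ˢ R
  let good : ℕ × ℕ × ℕ × ℕ → Prop := fun q => q.1 + q.2.1 ≤ M * F.L ∧
    q.2.2.1 + q.2.2.2 ≤ M * F.L ∧
    (∃ a, a + 10 * (lam * F.L) ≤ M * F.L ∧ ∀ j, a ≤ j → j < a + 10 * (lam * F.L) →
      SymD q.1 q.2.1 q.2.2.1 q.2.2.2 j) ∧
    (∃ a, a + 10 * (lam * F.L) ≤ M * F.L ∧ ∀ j, a ≤ j → j < a + 10 * (lam * F.L) →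
      ¬ SymD q.1 q.2.1 q.2.2.1 q.2.2.2 j)
  let Q : ℕ × ℕ × ℕ × ℕ → Finset (Bool × Fin M → Bool) := fun q =>
    {ω | good q ∧ ev h (seg (F.Wo c ω) q.1 q.2.1) = ev h (seg (F.Wo c ω) q.2.2.1 q.2.2.2)}
  have hsub : ({ω : Bool × Fin M → Bool | ¬ Rig h (10 * (lam * F.L)) (M * F.L) (F.Wo c ω)} :
      Finset _) ⊆ quad.biUnion Q := by
    intro ω hω
    simp only [mem_filter, mem_univ, true_and] at hω
    obtain ⟨o₁, l₁, o₂, l₂, h1, h2, h3, h4, h5⟩ := not_rig (by omega) hω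
    rw [mem_biUnion]
    refine ⟨(o₁, l₁, o₂, l₂), ?_, ?_⟩
    · simp only [quad, hR, mem_product, mem_range]; omega
    · simp only [Q, mem_filter, mem_univ, true_and]
      exact ⟨⟨h1, h2, h4, h5⟩, h3⟩
  have hQ : ∀ q, #(Q q) * 2 ^ lam ≤ 2 ^ (2 * M) := by
    rintro ⟨o₁, l₁, o₂, l₂⟩
    by_cases hg : good (o₁, l₁, o₂, l₂)
    · obtain ⟨h1, h2, ⟨a, h3, h4⟩, ⟨a', h5, h6⟩⟩ := hg
      rw [hnB] at h3 h5
      simp only at h1 h2 h4 h6
      obtain ⟨i, v, hv, hin, hout, hu, hu'⟩ := key (N := N) (c := c') (E₀ := 4)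
        (B := lam * F.L) (symD_cut o₁ l₁ o₂ l₂)
        (Finset.card_le_four) (by omega) hN hB (run_of_interval hB h3 h4) (run_of_interval hB h5 h6)
      have hρ := rho_lt hcN i hv
      apply card_le_of_block i (min v (rho c' (N * c') i v))
      · rw [hM]
        apply Nat.mul_le_mul_right
        omega
      · intro ω hω ω' hω' H
        simp only [Q, mem_filter, mem_univ, true_and] at hω hω'
        exact F.rig_inj hM hc hcN hc2 hM2 hm hind hv h1 h2 (E := {o₁, o₁ + l₁, o₂, o₂ + l₂})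
          (by simp) hlam hin hout hu hu' H hω.2 hω'.2
    · have : Q (o₁, l₁, o₂, l₂) = ∅ := by
        apply Finset.filter_false_of_mem
        intro ω _ h7
        exact hg h7.1
      rw [this]
      simp
  calc _ ≤ #(quad.biUnion Q) * 2 ^ lam := Nat.mul_le_mul_right _ (card_le_card hsub)
    _ ≤ (∑ q ∈ quad, #(Q q)) * 2 ^ lam := Nat.mul_le_mul_right _ card_biUnion_le
    _ = ∑ q ∈ quad, #(Q q) * 2 ^ lam := Finset.sum_mul _ _ _
    _ ≤ ∑ _q ∈ quad, 2 ^ (2 * M) := Finset.sum_le_sum (fun q _ => hQ q)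
    _ = _ := by
      rw [Finset.sum_const, smul_eq_mul]
      congr 1
      simp only [quad, hR, card_product, card_range]
      ring

open Classical in
/-- There are few values of short arcs. -/
lemma exists_values (lam c M : ℕ) : ∃ A : Finset G,
    #A ≤ (M * F.L + 1) ^ 2 * 4 ^ (10 * lam + 1) ∧
    ∀ (ω : Bool × Fin M → Bool) (a l : ℕ), l < 10 * (lam * F.L) → a + l ≤ M * F.L →
      ev h (seg (F.Wo c ω) a l) ∈ A := by
  have hL := F.L_pos
  set n := M * F.L with hn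
  let g : (ℕ × ℕ × (Fin (10 * lam + 1) → Bool × Bool)) → G := fun x =>
    ev h (seg (F.Wb c M (fun t => if ht : t - x.1 / F.L < 10 * lam + 1 then
      x.2.2 ⟨t - x.1 / F.L, ht⟩ else (false, false))) x.1 x.2.1)
  refine ⟨(range (n + 1) ×ˢ range (n + 1) ×ˢ
    (Finset.univ : Finset (Fin (10 * lam + 1) → Bool × Bool))).image g, ?_, ?_⟩
  · refine card_image_le.trans ?_
    rw [card_product, card_product, card_range, Finset.card_univ, Fintype.card_fun]
    apply le_of_eq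
    simp
    ring
  · intro ω a l hl hal
    rw [mem_image]
    refine ⟨(a, l, fun s => bits c ω (a / F.L + s.1)), ?_, ?_⟩
    · simp only [mem_product, mem_range, mem_univ, and_true]
      omega
    · simp only [g]
      congr 1
      apply seg_congr
      intro j hj1 hj2
      have h1 : a / F.L ≤ j / F.L := Nat.div_le_div_right hj1
      have h2 : j / F.L ≤ a / F.L + 10 * lam := by
        have h3 : j ≤ a + 10 * lam * F.L := by
          have : 10 * (lam * F.L) = 10 * lam * F.L := by ring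
          omega
        calc j / F.L ≤ (a + 10 * lam * F.L) / F.L := Nat.div_le_div_right h3
          _ = _ := Nat.add_mul_div_right _ _ hL
      unfold Wb
      simp only
      rw [dif_pos (by omega)]
      rw [show a / F.L + (j / F.L - a / F.L) = j / F.L by omega]
      rfl

open Classical in
/-- Few configurations have the same data. -/
lemma card_fiber {γ : IndexedGrammar T}
    (hL : ∀ w : List T, γ.Der [Sum.inr (γ.start, [])] (w.map Sum.inl) ↔ ev h w = 1)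
    {N c' lam c M : ℕ} (hM : M = N * c' * lam) (hc : c = c' * lam)
    (hN : 2 + 2 * Nat.card γ.NT < N)
    (hc' : 2 * (2 + 2 * Nat.card γ.NT) + 1 ≤ c') (hlam : 1 ≤ lam) (hc2 : Even c) (hM2 : Even M)
    {m : ℕ} (hm : M ≤ m)
    (hind : ∀ d : ℕ → ℤ, (∀ b, |d b| ≤ 1) → ∑ b ∈ range m, d b • F.κ b = 0 →
      ∀ b, b < m → d b = 0)
    {Λ η : ℕ} (hη : (2 + 2 * Nat.card γ.NT) * (c' * (lam * F.L)) < η)
    (hη' : (2 + 2 * Nat.card γ.NT) * (c' * (lam * F.L)) +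
      2 * Nat.card γ.NT * (η + 2 * Λ) < M * F.L) {A : Finset G} (δ : Data γ (M * F.L) A)
    (Q : Finset (Bool × Fin M → Bool))
    (hQ : ∀ ω ∈ Q, ∃ Fo τ d, Fits h γ.start Λ η (M * F.L) (F.Wo c ω) δ Fo τ d) :
    #Q * 2 ^ lam ≤ 2 ^ (2 * M) := by
  rcases Q.eq_empty_or_nonempty with rfl | ⟨ω₀, hω₀⟩
  · simp
  obtain ⟨Fo, τ, d, HF⟩ := hQ ω₀ hω₀
  have hB : 1 ≤ lam * F.L := Nat.mul_pos hlam F.L_pos
  have hB' : 1 ≤ c' * (lam * F.L) := Nat.mul_pos (by omega) hB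
  have hnB : M * F.L = N * (c' * (lam * F.L)) := by rw [hM]; ring
  have hcN : c' ≤ N * c' := Nat.le_mul_of_pos_left _ (by omega)
  have hle : δ.1.1 + δ.2.1.1 ≤ M * F.L := by
    have h1 := HF.occ.le
    have h2 : Fo.len = M * F.L := by simp [Forest.len, HF.yield]
    rw [HF.len] at h1
    omega
  obtain ⟨E, hE1, hE2⟩ := exists_cuts δ hle
  have hcard := HF.card_int
  have hm1 := HF.mass_ge
  have hm2 := HF.mass_le
  rw [← hcard] at hm1 hm2
  have hcut : CutIn' E (fun i => i ∈ Data.int δ) := hE2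
  have hcut' : CutIn' E (fun i => ¬ (i ∈ Data.int δ)) := fun i hi => not_congr (hE2 i hi)
  have hsubn : ∀ i, i ∈ Data.int δ → i < M * F.L := by
    intro i hi
    simp only [Data.int, mem_filter, mem_range] at hi
    exact hi.1
  have hEX : #E * (c' * (lam * F.L)) ≤ (2 + 2 * Nat.card γ.NT) * (c' * (lam * F.L)) :=
    Nat.mul_le_mul_right _ hE1
  have hwin : ∀ {P : ℕ → Prop}, (∃ w, w < N ∧ InB P (c' * (lam * F.L)) w) →
      ∃ x, x + (2 * (2 + 2 * Nat.card γ.NT) + 1) ≤ N * c' ∧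
        ∀ v, x ≤ v → v < x + (2 * (2 + 2 * Nat.card γ.NT) + 1) → InB P (lam * F.L) v := by
    rintro P ⟨w, hw, hin⟩
    have e1 : (w + 1) * c' = w * c' + c' := by ring
    refine ⟨w * c', ?_, ?_⟩
    · have := Nat.mul_le_mul_right c' (show w + 1 ≤ N from hw)
      omega
    · intro v hv1 hv2 j hj1 hj2
      apply hin j
      · calc w * (c' * (lam * F.L)) = w * c' * (lam * F.L) := by ring
          _ ≤ v * (lam * F.L) := Nat.mul_le_mul_right _ hv1
          _ ≤ j := hj1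
      · calc j < (v + 1) * (lam * F.L) := hj2
          _ ≤ (w + 1) * c' * (lam * F.L) := Nat.mul_le_mul_right _ (by omega)
          _ = _ := by ring
  have hrunI := hwin (exists_inB (N := N) hcut hB' (Data.int δ)
    (fun i hi => ⟨hi, by rw [← hnB]; exact hsubn i hi⟩) (by omega))
  have hcompl : M * F.L - #(Data.int δ) ≤ #(range (M * F.L) \ Data.int δ) := by
    have := Finset.le_card_sdiff (Data.int δ) (range (M * F.L))
    simpa using this
  have hrunO := hwin (exists_inB (N := N) hcut' hB' (range (M * F.L) \ Data.int δ)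
    (fun i hi => by
      rw [mem_sdiff, mem_range] at hi
      exact ⟨hi.2, by rw [← hnB]; exact hi.1⟩) (by omega))
  obtain ⟨i, v, hv, hin, hout, _, _⟩ := key (N := N) (c := c') (E₀ := 2 + 2 * Nat.card γ.NT)
    (B := lam * F.L) hcut hE1 hc' hN hB hrunI hrunO
  have hρ := rho_lt hcN i hv
  apply card_le_of_block i (min v (rho c' (N * c') i v))
  · rw [hM]
    apply Nat.mul_le_mul_right
    omega
  · intro ω hω ω' hω' H
    obtain ⟨Fo₁, τ₁, d₁, HF₁⟩ := hQ ω hω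
    obtain ⟨Fo₂, τ₂, d₂, HF₂⟩ := hQ ω' hω'
    refine F.mix_inj (P := fun j => j ∈ Data.int δ) hM hc hcN hc2 hM2 hm hind hv hlam hin hout H
      (Vw := fun j => if j ∈ Data.int δ then F.Wo c ω' j else F.Wo c ω j) ?_ ?_ ?_
    · intro j hj; simp only [if_pos hj]
    · intro j hj; simp only [if_neg hj]
    · exact Fits.mix h hL HF₁ HF₂ (fun j hj => by simp only [if_pos hj])
        (fun j hj => by simp only [if_neg hj])

lemma card_data {γ : IndexedGrammar T} [Fintype γ.NT] [Fintype γ.Flag] [DecidableEq γ.NT]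
    (n : ℕ) (A : Finset G) :
    Fintype.card (Data γ n A) = (n + 1) * ((n + 1) * (Nat.card γ.NT * (Nat.card γ.Flag *
      (((n + 1) * (n + 1) + 1) ^ Nat.card γ.NT * (#A + 1) ^ Nat.card γ.NT)))) := by
  simp [Data, Nat.card_eq_fintype_card]

end Pool.Agent.H50R2
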