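import Pool.Agent.H50R2.Mix

set_option autoImplicit false

/-!
# Existence of a node of intermediate mass, and the finite data attached to it
-/

namespace Pool.Agent.H50R2

open Finset Forest IndexedGrammar

variable {T : Type} {γ : IndexedGrammar T}

lemma mass_root (Λ : ℕ) (c : γ.DF) : mass Λ ([] : List γ.Flag) c = c.len := by
  classical
  rw [mass, Finset.filter_true_of_mem]
  · simp
  · rintro i _ ⟨f, τ, h, _⟩
    simp at h

/-- There is a node whose interior has intermediate mass. -/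
theorem exists_heavy {S : γ.NT} {c₀ : γ.DF} {Λ η n b : ℕ} (hΛ : 1 ≤ Λ) (hb : b * Λ ≤ η)
    (h3 : 3 * Λ < η) (hval : Valid (Forest.nd S [] c₀ Forest.nil))
    (hbound : ∀ (X : γ.NT) (s : List γ.Flag) (α : γ.Form), γ.RuleOK X s α → α.length ≤ b)
    (hlen : c₀.len = n) (hn : 9 * Λ < n) (hn2 : 2 * Nat.card γ.NT * (η + 2 * Λ) < n)
    (hnest : ∀ o₁ Y s d₁ o₂ d₂, Occ (Forest.nd S [] c₀ Forest.nil) o₁ Y s d₁ →
      Occ (Forest.nd S [] c₀ Forest.nil) o₂ Y s d₂ → Λ ≤ d₁.len → Λ ≤ d₂.len → o₂ ≤ o₁ →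
      o₁ + d₁.len ≤ o₂ + d₂.len → o₁ ≤ o₂ + Λ ∧ o₂ + d₂.len ≤ o₁ + d₁.len + Λ)
    (hdisj : ∀ o₁ Y s d₁ o₂ d₂, Occ (Forest.nd S [] c₀ Forest.nil) o₁ Y s d₁ →
      Occ (Forest.nd S [] c₀ Forest.nil) o₂ Y s d₂ → Λ ≤ d₁.len → Λ ≤ d₂.len →
      o₁ + d₁.len ≤ o₂ → n ≤ d₁.len + d₂.len + 3 * Λ) :
    ∃ o Y f t d, Occ (Forest.nd S [] c₀ Forest.nil) o Y (f :: t) d ∧ η ≤ mass Λ (f :: t) d ∧
      mass Λ (f :: t) d ≤ 2 * Nat.card γ.NT * (η + 2 * Λ) ∧
      ∀ o₁ D d₁ o₂ d₂, Occ d o₁ D t d₁ → Occ d o₂ D t d₂ → Λ ≤ d₁.len → Λ ≤ d₂.len →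
        ¬ (o₁ + d₁.len ≤ o₂) := by
  classical
  have hex : ∃ k o Y f t d, Occ (Forest.nd S [] c₀ Forest.nil) o Y (f :: t) d ∧
      η ≤ mass Λ (f :: t) d ∧ d.size = k := by
    by_contra hcon
    have H : HeavyCtx γ S [] c₀ Λ η n b :=
      { hΛ := hΛ
        hb := hb
        hval := hval
        hbound := hbound
        hnest := fun o₁ Y d₁ o₂ d₂ => hnest o₁ Y [] d₁ o₂ d₂
        hdisj := fun o₁ Y d₁ o₂ d₂ => hdisj o₁ Y [] d₁ o₂ d₂
        hn := hn
        hlen := hlen.le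
        hmass := by
          intro o Y f t d hocc
          by_contra h
          exact hcon ⟨d.size, o, Y, f, t, d, Occ.child _ _ _ _ _ _ _ _ hocc, by omega, rfl⟩ }
    have := H.mass_le
    rw [mass_root] at this
    omega
  obtain ⟨o, Y, f, t, d, h1, h2, h4⟩ := Nat.find_spec hex
  have hmin : ∀ o' Y' f' t' d', Occ (Forest.nd S [] c₀ Forest.nil) o' Y' (f' :: t') d' →
      η ≤ mass Λ (f' :: t') d' → d.size ≤ d'.size := by
    intro o' Y' f' t' d' h5 h6
    rw [h4]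
    exact Nat.find_min' hex ⟨o', Y', f', t', d', h5, h6, rfl⟩
  have hdl : o + d.len ≤ n := by
    have := h1.le
    simp only [len_nd, len_nil] at this
    omega
  have htr : ∀ {o' : ℕ} {Z : γ.NT} {s : List γ.Flag} {e : γ.DF},
      Occ (Forest.nd Y (f :: t) d Forest.nil) o' Z s e →
      Occ (Forest.nd S [] c₀ Forest.nil) (o + o') Z s e := by
    intro o' Z s e h
    rcases h.cases_nd with ⟨rfl, rfl, rfl, rfl⟩ | h | ⟨_, _, h⟩
    · exact h1
    · exact h1.trans h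
    · cases h
  refine ⟨o, Y, f, t, d, h1, h2, ?_, ?_⟩
  · have H : HeavyCtx γ Y (f :: t) d Λ η n b :=
      { hΛ := hΛ
        hb := hb
        hval := by
          have := hval.occ h1
          exact ⟨this.1, this.2, trivial⟩
        hbound := hbound
        hnest := by
          intro o₁ Z d₁ o₂ d₂ e1 e2 e3 e4 e5 e6
          have := hnest (o + o₁) Z _ d₁ (o + o₂) d₂ (htr e1) (htr e2) e3 e4 (by omega) (by omega)
          omega
        hdisj := by
          intro o₁ Z d₁ o₂ d₂ e1 e2 e3 e4 e5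
          exact hdisj (o + o₁) Z _ d₁ (o + o₂) d₂ (htr e1) (htr e2) e3 e4 (by omega)
        hn := hn
        hlen := by omega
        hmass := by
          intro o' Y' f' t' d' hocc
          by_contra h
          have := hmin _ _ _ _ _ (h1.trans hocc) (by omega)
          have := hocc.size_lt
          omega }
    exact H.mass_le
  · intro o₁ D d₁ o₂ d₂ e1 e2 e3 e4 e5
    have h6 := hdisj (o + o₁) D t d₁ (o + o₂) d₂ (h1.trans e1) (h1.trans e2) e3 e4 (by omega)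
    have h7 := e1.le
    have h8 := e2.le
    -- the mass avoids the two exits
    have hsub : ({i ∈ range d.len | ¬ Cov' Λ (f :: t) d i} : Finset ℕ) ⊆
        range d.len \ (Finset.Ico o₁ (o₁ + d₁.len) ∪ Finset.Ico o₂ (o₂ + d₂.len)) := by
      intro i hi
      simp only [mem_filter, mem_range, mem_sdiff, mem_union, mem_Ico] at hi ⊢
      refine ⟨hi.1, ?_⟩
      rintro (h9 | h9)
      · exact hi.2 ⟨f, t, rfl, o₁, D, d₁, e1, e3, h9.1, h9.2⟩
      · exact hi.2 ⟨f, t, rfl, o₂, D, d₂, e2, e4, h9.1, h9.2⟩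
    have hcard := card_le_card hsub
    rw [card_sdiff_of_subset (by
      intro i hi
      simp only [mem_union, mem_Ico, mem_range] at hi ⊢
      omega), card_union_of_disjoint (by
        rw [Finset.disjoint_left]
        intro i hi
        simp only [mem_Ico] at hi ⊢
        omega)] at hcard
    simp only [card_range, Nat.card_Ico] at hcard
    have h10 : mass Λ (f :: t) d = #{i ∈ range d.len | ¬ Cov' Λ (f :: t) d i} := by
      rw [mass]
    omega

variable {G : Type} [Group G] (h : T → G)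

/-- Words derived from the label of a node of a derivation of a word of value `1` all have the value
of the yield of the node. -/
lemma val_eq {S : γ.NT} (hL : ∀ w : List T, γ.Der [Sum.inr (S, [])] (w.map Sum.inl) → ev h w = 1)
    {F : γ.DF} (hv : Valid F) (hr : F.root = [Sum.inr (S, [])]) {o : ℕ} {X : γ.NT}
    {s : List γ.Flag} {c : γ.DF} (ho : Occ F o X s c) {u : List T}
    (hu : γ.Der [Sum.inr (X, s)] (u.map Sum.inl)) : ev h u = ev h c.yield := by
  obtain ⟨p, q, hp, hpq, hrep⟩ := hv.context ho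
  have hc := hv.occ ho
  have h1 := hrep _ hu
  have h2 := hrep _ ((der_of_ruleOK hc.1).trans hc.2.der)
  rw [hr, ← List.map_append, ← List.map_append] at h1 h2
  have h3 := hL _ h1
  have h4 := hL _ h2
  rw [ev_append, ev_append] at h3 h4
  exact mul_left_cancel (mul_right_cancel (h3.trans h4.symm))

/-- Rigidity of a word of length `n`. -/
def Rig (Λ n : ℕ) (W : ℕ → T) : Prop :=
  ∀ o₁ l₁ o₂ l₂, Λ ≤ l₁ → Λ ≤ l₂ → o₁ + l₁ ≤ n → o₂ + l₂ ≤ n →
    ev h (seg W o₁ l₁) = ev h (seg W o₂ l₂) →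
    (o₂ ≤ o₁ → o₁ + l₁ ≤ o₂ + l₂ → o₁ ≤ o₂ + Λ ∧ o₂ + l₂ ≤ o₁ + l₁ + Λ) ∧
      (o₁ + l₁ ≤ o₂ → n ≤ l₁ + l₂ + 3 * Λ)

/-- The finite data attached to a word. -/
abbrev Data (γ : IndexedGrammar T) (n : ℕ) (A : Finset G) : Type :=
  Fin (n + 1) × Fin (n + 1) × γ.NT × γ.Flag × (γ.NT → Option (Fin (n + 1) × Fin (n + 1))) ×
    (γ.NT → Option A)

open Classical in
/-- The interior described by the data. -/
noncomputable def Data.int {n : ℕ} {A : Finset G} (δ : Data γ n A) : Finset ℕ :=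
  {i ∈ range n | δ.1.1 ≤ i ∧ i < δ.1.1 + δ.2.1.1 ∧ ∀ D p l, δ.2.2.2.2.1 D = some (p, l) →
    ¬ (p.1 ≤ i - δ.1.1 ∧ i - δ.1.1 < p.1 + l.1)}

/-- The relation between a word and its data. -/
structure Fits (S : γ.NT) (Λ η n : ℕ) {A : Finset G} (W : ℕ → T) (δ : Data γ n A)
    (F : γ.DF) (τ : List γ.Flag) (c : γ.DF) : Prop where
  valid : Valid F
  root : F.root = [Sum.inr (S, [])]
  yield : F.yield = seg W 0 n
  occ : Occ F δ.1.1 δ.2.2.1 (δ.2.2.2.1 :: τ) c
  len : c.len = δ.2.1.1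
  mass_ge : η ≤ mass Λ (δ.2.2.2.1 :: τ) c
  mass_le : mass Λ (δ.2.2.2.1 :: τ) c ≤ 2 * Nat.card γ.NT * (η + 2 * Λ)
  ex : ∀ D p l, δ.2.2.2.2.1 D = some (p, l) ↔
    ∃ d, Top τ c p.1 D d ∧ d.len = l.1 ∧ Λ ≤ d.len
  kap : ∀ D p d, Top τ c p D d → d.len < Λ →
    ∃ a, δ.2.2.2.2.2 D = some a ∧ a.1 = ev h d.yield
  kap' : ∀ D a, δ.2.2.2.2.2 D = some a →
    ∃ y : List T, γ.Der [Sum.inr (D, τ)] (y.map Sum.inl) ∧ ev h y = a.1

lemma exists_fits {S : γ.NT}
    (hL : ∀ w : List T, γ.Der [Sum.inr (S, [])] (w.map Sum.inl) ↔ ev h w = 1)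
    {Λ η n b : ℕ} (hΛ : 1 ≤ Λ) (hb : b * Λ ≤ η)
    (h3 : 3 * Λ < η)
    (hbound : ∀ (X : γ.NT) (s : List γ.Flag) (α : γ.Form), γ.RuleOK X s α → α.length ≤ b)
    (hn : 9 * Λ < n) (hn2 : 2 * Nat.card γ.NT * (η + 2 * Λ) < n)
    (A : Finset G) (W : ℕ → T) (hW : ev h (seg W 0 n) = 1)
    (hA : ∀ a l, l < Λ → a + l ≤ n → ev h (seg W a l) ∈ A)
    (hrig : Rig h Λ n W) :
    ∃ (δ : Data γ n A) (F : γ.DF) (τ : List γ.Flag) (c : γ.DF), Fits h S Λ η n W δ F τ c := by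
  classical
  obtain ⟨F, hv, hr, hy⟩ := exists_forest ((hL _).2 hW)
  obtain ⟨c₀, rfl⟩ : ∃ c₀, F = Forest.nd S [] c₀ Forest.nil := by
    cases F with
    | nil => simp at hr
    | tm a r => simp at hr
    | nd X s c r =>
      cases r with
      | nil => simp at hr; exact ⟨c, by rw [hr.1, hr.2]⟩
      | tm a r => simp at hr
      | nd _ _ _ _ => simp at hr
  have hc₀ : c₀.len = n := by
    have := congrArg List.length hy
    simpa [Forest.len] using this
  have hFl : (Forest.nd S [] c₀ Forest.nil : γ.DF).len = n := by simp [hc₀]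
  have hread : ∀ {o : ℕ} {X : γ.NT} {s : List γ.Flag} {d : γ.DF},
      Occ (Forest.nd S [] c₀ Forest.nil) o X s d → d.yield = seg W o d.len := by
    intro o X s d ho
    have := ho.reads (W := W) (a := 0) (by rw [hy, hFl])
    simpa using this
  have hle : ∀ {o : ℕ} {X : γ.NT} {s : List γ.Flag} {d : γ.DF},
      Occ (Forest.nd S [] c₀ Forest.nil) o X s d → o + d.len ≤ n := by
    intro o X s d ho
    have := ho.le
    omega
  have hval : ∀ {o : ℕ} {X : γ.NT} {s : List γ.Flag} {d : γ.DF},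
      Occ (Forest.nd S [] c₀ Forest.nil) o X s d → ∀ {u : List T},
      γ.Der [Sum.inr (X, s)] (u.map Sum.inl) → ev h u = ev h d.yield := by
    intro o X s d ho u hu
    exact val_eq h (fun w hw => (hL w).1 hw) hv hr ho hu
  have hder : ∀ {o : ℕ} {X : γ.NT} {s : List γ.Flag} {d : γ.DF},
      Occ (Forest.nd S [] c₀ Forest.nil) o X s d →
      γ.Der [Sum.inr (X, s)] (d.yield.map Sum.inl) := by
    intro o X s d ho
    have := hv.occ ho
    exact (der_of_ruleOK this.1).trans this.2.der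
  have hsame : ∀ o₁ Y s d₁ o₂ d₂, Occ (Forest.nd S [] c₀ Forest.nil) o₁ Y s d₁ →
      Occ (Forest.nd S [] c₀ Forest.nil) o₂ Y s d₂ →
      ev h (seg W o₁ d₁.len) = ev h (seg W o₂ d₂.len) := by
    intro o₁ Y s d₁ o₂ d₂ h1 h2
    rw [← hread h1, ← hread h2]
    exact hval h2 (hder h1)
  obtain ⟨o, Y, f, t, d, ho, hm1, hm2, hdist⟩ := exists_heavy hΛ hb h3 hv hbound hc₀ hn hn2
    (fun o₁ Y s d₁ o₂ d₂ h1 h2 h3 h4 h5 h6 =>
      (hrig o₁ d₁.len o₂ d₂.len h3 h4 (hle h1) (hle h2) (hsame _ _ _ _ _ _ h1 h2)).1 h5 h6)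
    (fun o₁ Y s d₁ o₂ d₂ h1 h2 h3 h4 h5 =>
      (hrig o₁ d₁.len o₂ d₂.len h3 h4 (hle h1) (hle h2) (hsame _ _ _ _ _ _ h1 h2)).2 h5)
  have hol := hle ho
  -- the positions of the long exits
  let ex : γ.NT → Option (Fin (n + 1) × Fin (n + 1)) := fun D =>
    if hD : ∃ x : Fin (n + 1) × Fin (n + 1), ∃ e, Top t d x.1.1 D e ∧ e.len = x.2.1 ∧ Λ ≤ e.len
    then some hD.choose else none
  let kap : γ.NT → Option A := fun D =>
    if hD : ∃ x : A, ∃ y : List T, γ.Der [Sum.inr (D, t)] (y.map Sum.inl) ∧ ev h y = x.1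
    then some hD.choose else none
  refine ⟨(⟨o, by omega⟩, ⟨d.len, by omega⟩, Y, f, ex, kap), _, t, d, hv, hr, hy, ho, rfl, hm1, hm2,
    ?_, ?_, ?_⟩
  · intro D p l
    change ex D = some (p, l) ↔ _
    constructor
    · intro hex
      by_cases hD : ∃ x : Fin (n + 1) × Fin (n + 1), ∃ e, Top t d x.1.1 D e ∧ e.len = x.2.1 ∧
          Λ ≤ e.len
      · have h1 : ex D = some hD.choose := dif_pos hD
        rw [h1] at hex
        have h2 := hD.choose_spec
        rw [Option.some.injEq] at hex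
        rw [hex] at h2
        exact h2
      · have h1 : ex D = none := dif_neg hD
        rw [h1] at hex
        simp at hex
    · rintro ⟨e, he1, he2, he3⟩
      have hD : ∃ x : Fin (n + 1) × Fin (n + 1), ∃ e, Top t d x.1.1 D e ∧ e.len = x.2.1 ∧
          Λ ≤ e.len := ⟨(p, l), e, he1, he2, he3⟩
      have h1 : ex D = some hD.choose := dif_pos hD
      rw [h1]
      obtain ⟨e', h2, h4, h5⟩ := hD.choose_spec
      congr 1
      rcases h2.disjoint he1 with ⟨h6, _, h7⟩ | h6 | h6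
      · apply Prod.ext
        · exact Fin.ext h6
        · apply Fin.ext
          rw [← he2, ← h7, h4]
      · exact absurd h6 (hdist _ D _ _ _ h2.occ he1.occ h5 he3)
      · exact absurd h6 (hdist _ D _ _ _ he1.occ h2.occ he3 h5)
  · intro D p e he hel
    have hoe := ho.trans he.occ
    have h1 : ev h e.yield ∈ A := by
      rw [hread hoe]
      exact hA _ _ hel (hle hoe)
    have hD : ∃ x : A, ∃ y : List T, γ.Der [Sum.inr (D, t)] (y.map Sum.inl) ∧ ev h y = x.1 :=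
      ⟨⟨_, h1⟩, e.yield, hder hoe, rfl⟩
    refine ⟨hD.choose, dif_pos hD, ?_⟩
    obtain ⟨y, hy1, hy2⟩ := hD.choose_spec
    rw [← hy2]
    exact hval hoe hy1
  · intro D a hka
    change kap D = some a at hka
    by_cases hD : ∃ x : A, ∃ y : List T, γ.Der [Sum.inr (D, t)] (y.map Sum.inl) ∧ ev h y = x.1
    · have h1 : kap D = some hD.choose := dif_pos hD
      rw [h1, Option.some.injEq] at hka
      have h2 := hD.choose_spec
      rw [hka] at h2
      exact h2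
    · have h1 : kap D = none := dif_neg hD
      rw [h1] at hka
      simp at hka

section FitsLemmas

variable {h} {S : γ.NT} {Λ η n : ℕ} {A : Finset G} {W : ℕ → T} {δ : Data γ n A}
  {F : γ.DF} {τ : List γ.Flag} {c : γ.DF}

lemma Fits.cov_iff' (H : Fits h S Λ η n W δ F τ c) (j : ℕ) :
    Cov Λ τ c j ↔ ∃ D p l, δ.2.2.2.2.1 D = some (p, l) ∧ p.1 ≤ j ∧ j < p.1 + l.1 := by
  rw [cov_iff]
  constructor
  · rintro ⟨p, D, d, h1, h2, h3, h4⟩
    have h5 := H.occ.trans h1.occ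
    have h6 := h5.le
    have h7 : F.len = n := by simp [Forest.len, H.yield]
    refine ⟨D, ⟨p, by omega⟩, ⟨d.len, by omega⟩, (H.ex _ _ _).2 ⟨d, h1, rfl, h2⟩, h3, h4⟩
  · rintro ⟨D, p, l, h1, h2, h3⟩
    obtain ⟨d, h4, h5, h6⟩ := (H.ex _ _ _).1 h1
    exact ⟨p.1, D, d, h4, h6, h2, by omega⟩

lemma Fits.mem_int (H : Fits h S Λ η n W δ F τ c) (i : ℕ) :
    i ∈ Data.int δ ↔ δ.1.1 ≤ i ∧ i < δ.1.1 + c.len ∧ ¬ Cov Λ τ c (i - δ.1.1) := by
  rw [H.cov_iff', H.len, Data.int]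
  simp only [mem_filter, mem_range]
  have h7 : F.len = n := by simp [Forest.len, H.yield]
  have h8 := H.occ.le
  rw [H.len] at h8
  constructor
  · rintro ⟨_, h1, h2, h3⟩
    refine ⟨h1, h2, ?_⟩
    rintro ⟨D, p, l, h4, h5⟩
    exact h3 D p l h4 h5
  · rintro ⟨h1, h2, h3⟩
    refine ⟨by omega, h1, h2, ?_⟩
    intro D p l h4 h5
    exact h3 ⟨D, p, l, h4, h5⟩

lemma Fits.card_int (H : Fits h S Λ η n W δ F τ c) :
    #(Data.int δ) = mass Λ (δ.2.2.2.1 :: τ) c := by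
  classical
  rw [mass]
  symm
  apply Finset.card_bij (fun i _ => δ.1.1 + i)
  · intro i hi
    simp only [mem_filter, mem_range] at hi
    rw [H.mem_int]
    refine ⟨by omega, by omega, ?_⟩
    rw [show δ.1.1 + i - δ.1.1 = i by omega]
    intro hc
    exact hi.2 ⟨_, _, rfl, hc⟩
  · intro i _ j _ hij
    omega
  · intro i hi
    rw [H.mem_int] at hi
    refine ⟨i - δ.1.1, ?_, by omega⟩
    simp only [mem_filter, mem_range]
    refine ⟨by omega, ?_⟩
    rintro ⟨f, t, hft, hc⟩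
    simp only [List.cons.injEq] at hft
    obtain ⟨rfl, rfl⟩ := hft
    exact hi.2.2 hc

end FitsLemmas

/-- The cuts of a set of positions. -/
def CutIn (E : Finset ℕ) (I : Finset ℕ) : Prop := ∀ i, i + 1 ∉ E → (i ∈ I ↔ i + 1 ∈ I)

lemma exists_cuts {n : ℕ} {A : Finset G} (δ : Data γ n A) (hδ : δ.1.1 + δ.2.1.1 ≤ n) :
    ∃ E : Finset ℕ, #E ≤ 2 + 2 * Nat.card γ.NT ∧ CutIn E (Data.int δ) := by
  classical
  have := γ.finite_NT
  have := Fintype.ofFinite γ.NT
  refine ⟨{δ.1.1, δ.1.1 + δ.2.1.1} ∪ (Finset.univ : Finset γ.NT).biUnion (fun D =>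
    match δ.2.2.2.2.1 D with
    | none => ∅
    | some (p, l) => {δ.1.1 + p.1, δ.1.1 + p.1 + l.1}), ?_, ?_⟩
  · refine (card_union_le _ _).trans (add_le_add card_le_two (card_biUnion_le.trans ?_))
    rw [Nat.card_eq_fintype_card, mul_comm, ← smul_eq_mul, ← Finset.card_univ]
    apply Finset.sum_le_card_nsmul
    intro D _
    rcases δ.2.2.2.2.1 D with _ | ⟨p, l⟩
    · simp
    · exact card_le_two
  · intro i hi
    simp only [mem_union, mem_insert, mem_singleton, mem_biUnion, mem_univ, true_and,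
      not_or, not_exists] at hi
    have key : ∀ D p l, δ.2.2.2.2.1 D = some (p, l) → i + 1 ≠ δ.1.1 + p.1 ∧
        i + 1 ≠ δ.1.1 + p.1 + l.1 := by
      intro D p l hD
      have := hi.2 D
      rw [hD] at this
      simpa [not_or] using this
    simp only [Data.int, mem_filter, mem_range]
    constructor
    · rintro ⟨h1, h2, h3, h4⟩
      refine ⟨by omega, by omega, by omega, fun D p l hD => ?_⟩
      have := h4 D p l hD
      have := key D p l hD
      omega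
    · rintro ⟨h1, h2, h3, h4⟩
      refine ⟨by omega, by omega, by omega, fun D p l hD => ?_⟩
      have := h4 D p l hD
      have := key D p l hD
      omega

theorem Fits.mix {S : γ.NT}
    (hL : ∀ w : List T, γ.Der [Sum.inr (S, [])] (w.map Sum.inl) ↔ ev h w = 1)
    {Λ η n : ℕ} {A : Finset G} {W₁ W₂ V : ℕ → T} {δ : Data γ n A}
    {F₁ F₂ : γ.DF} {τ₁ τ₂ : List γ.Flag} {c₁ c₂ : γ.DF} (H₁ : Fits h S Λ η n W₁ δ F₁ τ₁ c₁)
    (H₂ : Fits h S Λ η n W₂ δ F₂ τ₂ c₂) (hV : ∀ i, i ∈ Data.int δ → V i = W₂ i)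
    (hV' : ∀ i, i ∉ Data.int δ → V i = W₁ i) : ev h (seg V 0 n) = 1 := by
  refine Pool.Agent.H50R2.mix h (fun w hw => (hL w).1 hw) (Λ := Λ) H₁.valid H₂.valid H₁.root
    H₁.yield H₂.yield H₁.occ H₂.occ (by rw [H₁.len, H₂.len]) ?_ ?_ ?_ ?_
  · intro p D d₂ ht hd
    have h5 := (H₂.occ.trans ht.occ).le
    have h7 : F₂.len = n := by simp [Forest.len, H₂.yield]
    obtain ⟨d₁, h1, h2, _⟩ := (H₁.ex D ⟨p, by omega⟩ ⟨d₂.len, by omega⟩).1
      ((H₂.ex _ _ _).2 ⟨d₂, ht, rfl, hd⟩)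
    exact ⟨d₁, h1, h2⟩
  · intro p D d₂ ht hd
    obtain ⟨a, h1, h2⟩ := H₂.kap D p d₂ ht hd
    obtain ⟨y, h4, h5⟩ := H₁.kap' D a h1
    exact ⟨y, h4, h5.trans h2⟩
  · intro i h1 h2 h4
    exact hV i ((H₂.mem_int i).2 ⟨h1, h2, h4⟩)
  · intro i hi
    apply hV' i
    rw [H₂.mem_int]
    exact hi

end Pool.Agent.H50R2
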