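import Pool.Agent.H50R2.Main

set_option autoImplicit false

/-!
# Groups with large commuting families do not have an indexed word problem
-/

namespace Pool.Agent.H50R2

open Finset Fam IndexedGrammar

variable {T G : Type} [Group G] {h : T → G}

lemma exists_lam (D : ℕ) : ∃ l₀ : ℕ, ∀ l, l₀ ≤ l → (64 * D ^ 4 * l ^ 4) ^ 2 ≤ 2 ^ l := by
  have h1 := tendsto_pow_const_div_const_pow_of_one_lt 8 (r := (2 : ℝ)) (by norm_num)
  have hpos : (0 : ℝ) < 1 / ((64 * D ^ 4) ^ 2 + 1) := by positivity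
  have h2 := h1.eventually (gt_mem_nhds hpos)
  obtain ⟨l₀, hl₀⟩ := Filter.eventually_atTop.1 h2
  refine ⟨l₀, fun l hl => ?_⟩
  have h3 := hl₀ l hl
  rw [div_lt_div_iff₀ (by positivity) (by positivity), one_mul] at h3
  have h4 : (((64 * D ^ 4 * l ^ 4) ^ 2 : ℕ) : ℝ) ≤ ((2 ^ l : ℕ) : ℝ) := by
    push_cast
    have h5 : (l : ℝ) ^ 8 * ((64 * D ^ 4) ^ 2 + 1) =
      (64 * D ^ 4 * l ^ 4) ^ 2 + (l : ℝ) ^ 8 := by ring
    rw [h5] at h3
    have : (0 : ℝ) ≤ (l : ℝ) ^ 8 := by positivity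
    linarith
  exact_mod_cast h4

theorem not_isIndexed_of_families
    (H : ∀ C : ℕ, ∃ (K : Type) (_ : AddCommGroup K) (F : Fam h K) (m : ℕ),
      (F.ℓ + 1) ^ C ≤ 2 ^ m ∧
      ∀ d : ℕ → ℤ, (∀ b, |d b| ≤ 1) → ∑ b ∈ range m, d b • F.κ b = 0 → ∀ b, b < m → d b = 0) :
    ¬ IsIndexed ({w : List T | (w.map h).prod = 1} : Language T) := by
  rintro ⟨γ, hγ⟩
  have hL : ∀ w : List T, γ.Der [Sum.inr (γ.start, [])] (w.map Sum.inl) ↔ ev h w = 1 := by
    intro w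
    rw [← mem_language, hγ]
    exact Iff.rfl
  obtain ⟨b, hb⟩ := γ.exists_bound
  set D := cN γ b * cc γ * cC γ with hD
  have hDpos : 1 ≤ D := by
    have h1 : 1 ≤ cN γ b := by unfold cN; omega
    have h2 : 1 ≤ cc γ := by unfold cc; omega
    have h3 : 1 ≤ cC γ := by unfold cC; omega
    exact Nat.mul_pos (Nat.mul_pos h1 h2) h3
  obtain ⟨l₀, hl₀⟩ := exists_lam D
  obtain ⟨K, _, F, m, hm, hind⟩ := H (D * (16 + l₀ + 1))
  have hℓ := F.pos
  have hmC : D * (16 + l₀ + 1) ≤ m := by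
    have h1 : 2 ^ (D * (16 + l₀ + 1)) ≤ 2 ^ m :=
      (Nat.pow_le_pow_left (by omega) _).trans hm
    exact (Nat.pow_le_pow_iff_right (by norm_num)).1 h1
  set lam := m / D with hlam
  have hlam1 : 16 + l₀ + 1 ≤ lam := by
    rw [hlam, Nat.le_div_iff_mul_le hDpos, mul_comm]
    exact hmC
  have hDlam : D * lam ≤ m := Nat.mul_div_le m D
  have hmlt : m < D * (lam + 1) := by
    have := Nat.lt_mul_div_succ m hDpos
    exact this
  -- the length is small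
  have h8 : (F.ℓ + 1) ^ 8 ≤ 2 ^ lam := by
    have h1 : ((F.ℓ + 1) ^ 16) ^ D ≤ (2 ^ (2 * lam)) ^ D := by
      calc ((F.ℓ + 1) ^ 16) ^ D = (F.ℓ + 1) ^ (D * 16) := by rw [← pow_mul, mul_comm]
        _ ≤ (F.ℓ + 1) ^ (D * (16 + l₀ + 1)) :=
          Nat.pow_le_pow_right (by omega) (Nat.mul_le_mul_left _ (by omega))
        _ ≤ 2 ^ m := hm
        _ ≤ 2 ^ (2 * lam * D) := by
          apply Nat.pow_le_pow_right (by norm_num)
          have : D * (lam + 1) ≤ D * (2 * lam) := Nat.mul_le_mul_left _ (by omega)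
          have h2 : D * (2 * lam) = 2 * lam * D := by ring
          omega
        _ = _ := by rw [← pow_mul]
    have h2 : (F.ℓ + 1) ^ 16 ≤ 2 ^ (2 * lam) := (Nat.pow_le_pow_iff_left (by omega)).1 h1
    have h3 : ((F.ℓ + 1) ^ 8) ^ 2 ≤ (2 ^ lam) ^ 2 := by
      rw [← pow_mul, ← pow_mul, mul_comm lam 2]
      exact h2
    exact (Nat.pow_le_pow_iff_left (by norm_num)).1 h3
  have hbig : 4 * (cN γ b * cc γ * (cC γ * lam) * F.L + 1) ^ 4 ≤ 2 ^ lam := by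
    have e1 : cN γ b * cc γ * (cC γ * lam) * F.L = 2 * D * lam * F.ℓ := by
      rw [hD, Fam.L]; ring
    have e2 : 2 * D * lam * F.ℓ + 1 ≤ 2 * D * lam * (F.ℓ + 1) := by
      have : 1 ≤ 2 * D * lam := Nat.mul_pos (by omega) (by omega)
      have h4 : 2 * D * lam * (F.ℓ + 1) = 2 * D * lam * F.ℓ + 2 * D * lam := by ring
      omega
    have e3 : (4 * (2 * D * lam * F.ℓ + 1) ^ 4) ^ 2 ≤ (2 ^ lam) ^ 2 := by
      calc (4 * (2 * D * lam * F.ℓ + 1) ^ 4) ^ 2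
          ≤ (4 * (2 * D * lam * (F.ℓ + 1)) ^ 4) ^ 2 := by gcongr
        _ = (64 * D ^ 4 * lam ^ 4) ^ 2 * (F.ℓ + 1) ^ 8 := by ring
        _ ≤ 2 ^ lam * 2 ^ lam := Nat.mul_le_mul (hl₀ lam (by omega)) h8
        _ = _ := by ring
    rw [e1]
    exact (Nat.pow_le_pow_iff_left (by norm_num)).1 e3
  refine core hL hb F hind (lam := lam) (by omega) ?_ hbig
  calc cN γ b * cc γ * (cC γ * lam) = D * lam := by rw [hD]; ring
    _ ≤ m := hDlam

end Pool.Agent.H50R2
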