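import Mathlib

set_option autoImplicit false

/-!
# Two reflections of a row of blocks
-/

namespace Pool.Agent.H50R2

open Finset

/-- The two reflections of `{0, …, M - 1}`: the reversal, and the map which reverses the first `c`
places and the other ones. -/
def rho (c M : ℕ) : Bool → ℕ → ℕ
  | false, v => M - 1 - v
  | true, v => if v < c then c - 1 - v else M + c - 1 - v

lemma rho_lt {c M : ℕ} (hc : c ≤ M) (i : Bool) {v : ℕ} (hv : v < M) : rho c M i v < M := by
  cases i
  · simp only [rho]; omega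
  · simp only [rho]; split_ifs <;> omega

lemma rho_rho {c M : ℕ} (hc : c ≤ M) (i : Bool) {v : ℕ} (hv : v < M) :
    rho c M i (rho c M i v) = v := by
  cases i
  · simp only [rho]; omega
  · simp only [rho]; split_ifs <;> omega

lemma rho_block {c' N' lam : ℕ} (hc : c' ≤ N') (i : Bool) {v s : ℕ} (hv : v < N') (hs : s < lam) :
    rho (c' * lam) (N' * lam) i (v * lam + s) = rho c' N' i v * lam + (lam - 1 - s) := by
  cases i
  · simp only [rho]
    obtain ⟨k, rfl⟩ : ∃ k, N' = v + 1 + k := ⟨N' - (v + 1), by omega⟩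
    rw [show v + 1 + k - 1 - v = k by omega]
    have : (v + 1 + k) * lam = v * lam + lam + k * lam := by ring
    rw [this]
    omega
  · simp only [rho]
    by_cases h : v < c'
    · rw [if_pos h]
      obtain ⟨k, rfl⟩ : ∃ k, c' = v + 1 + k := ⟨c' - (v + 1), by omega⟩
      rw [show v + 1 + k - 1 - v = k by omega]
      have : (v + 1 + k) * lam = v * lam + lam + k * lam := by ring
      rw [this, if_pos (by omega)]
      omega
    · rw [if_neg h]
      have h1 : ¬ (v * lam + s < c' * lam) := by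
        have := Nat.mul_le_mul_right lam (not_lt.1 h)
        omega
      rw [if_neg h1]
      obtain ⟨k, rfl⟩ : ∃ k, N' = v + 1 + k := ⟨N' - (v + 1), by omega⟩
      rw [show v + 1 + k + c' - 1 - v = k + c' by omega]
      have : (v + 1 + k) * lam = v * lam + lam + k * lam := by ring
      rw [this, add_mul]
      omega

lemma rho_ne {c M : ℕ} (hc : c ≤ M) (hc2 : Even c) (hM2 : Even M) (i : Bool) {v : ℕ} (hv : v < M) :
    rho c M i v ≠ v := by
  obtain ⟨a, rfl⟩ := hc2
  obtain ⟨b, rfl⟩ := hM2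
  cases i
  · simp only [rho]; omega
  · simp only [rho]; split_ifs <;> omega

/-- The set `I` only changes at the points of `E`. -/
def CutIn' (E : Finset ℕ) (P : ℕ → Prop) : Prop := ∀ i, i + 1 ∉ E → (P i ↔ P (i + 1))

lemma const_of_uncut {E : Finset ℕ} {P : ℕ → Prop} (hE : CutIn' E P) {a l : ℕ}
    (h : ∀ e ∈ E, ¬ (a < e ∧ e < a + l)) : ∀ i, i < l → (P a ↔ P (a + i)) := by
  intro i
  induction i with
  | zero => intro _; exact Iff.rfl
  | succ i ih =>
    intro hi
    rw [ih (by omega)]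
    exact hE (a + i) (fun hmem => h _ hmem ⟨by omega, by omega⟩)

/-- The block number `v` of length `B` is contained in `P`. -/
def InB (P : ℕ → Prop) (B v : ℕ) : Prop := ∀ i, v * B ≤ i → i < (v + 1) * B → P i

/-- The block number `v` of length `B` is not cut by `E`. -/
def Uncut (E : Finset ℕ) (B v : ℕ) : Prop := ∀ e ∈ E, ¬ (v * B < e ∧ e < (v + 1) * B)

lemma in_or_out {E : Finset ℕ} {P : ℕ → Prop} (hE : CutIn' E P) {B v : ℕ} (h : Uncut E B v) :
    InB P B v ∨ InB (fun i => ¬ P i) B v := by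
  have h1 : (v + 1) * B = v * B + B := by ring
  have hc := const_of_uncut hE (a := v * B) (l := B) (by rw [← h1]; exact h)
  by_cases hP : P (v * B)
  · left
    intro i hi hi'
    have := (hc (i - v * B) (by omega)).1 hP
    rwa [show v * B + (i - v * B) = i by omega] at this
  · right
    intro i hi hi' hcon
    apply hP
    rw [hc (i - v * B) (by omega), show v * B + (i - v * B) = i by omega]
    exact hcon

lemma uncut_of_div {E : Finset ℕ} {B v : ℕ} (h : v ∉ E.image (· / B)) : Uncut E B v := by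
  rintro e he ⟨h1, h2⟩
  apply h
  rw [Finset.mem_image]
  refine ⟨e, he, ?_⟩
  exact Nat.div_eq_of_lt_le h1.le h2

lemma exists_uncut {E : Finset ℕ} (B : ℕ) {N : ℕ} (hN : #E < N) : ∃ w, w < N ∧ Uncut E B w := by
  by_contra hcon
  push Not at hcon
  have hsub : range N ⊆ E.image (· / B) := by
    intro w hw
    by_contra h
    exact hcon w (mem_range.1 hw) (uncut_of_div h)
  have h1 := card_le_card hsub
  have h2 := card_image_le (s := E) (f := (· / B))
  rw [card_range] at h1
  omega

/-- A large set with few cuts contains a block. -/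
lemma exists_inB {E : Finset ℕ} {P : ℕ → Prop} (hE : CutIn' E P) {B N : ℕ} (hB : 1 ≤ B)
    (I : Finset ℕ) (hI : ∀ i ∈ I, P i ∧ i < N * B) (hc : #E * B < #I) :
    ∃ w, w < N ∧ InB P B w := by
  by_contra hcon
  push Not at hcon
  have hsub : I ⊆ (E.image (· / B)).biUnion (fun w => Finset.Ico (w * B) ((w + 1) * B)) := by
    intro i hi
    rw [Finset.mem_biUnion]
    have h1 : i / B * B ≤ i := Nat.div_mul_le_self i B
    have h2 : i < (i / B + 1) * B := by
      have := Nat.lt_div_mul_add (a := i) (b := B) hB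
      have h3 : (i / B + 1) * B = i / B * B + B := by ring
      omega
    refine ⟨i / B, ?_, by rw [mem_Ico]; exact ⟨h1, h2⟩⟩
    by_contra h
    have hw : i / B < N := by
      rw [Nat.div_lt_iff_lt_mul hB]; exact (hI i hi).2
    rcases in_or_out hE (uncut_of_div h) with h3 | h3
    · exact hcon _ hw h3
    · exact h3 i h1 h2 (hI i hi).1
  have h1 := card_le_card hsub
  have h2 : #((E.image (· / B)).biUnion (fun w => Finset.Ico (w * B) ((w + 1) * B))) ≤ #E * B := by
    refine card_biUnion_le.trans ?_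
    refine (Finset.sum_le_card_nsmul _ _ B ?_).trans ?_
    · intro w _
      rw [Nat.card_Ico]
      have h3 : (w + 1) * B = w * B + B := by ring
      omega
    · rw [smul_eq_mul]
      exact Nat.mul_le_mul_right _ card_image_le
  omega

lemma mul_add_mod_mod (k c v : ℕ) : (k * c + v % c) % c = v % c := by
  rw [Nat.mul_add_mod', Nat.mod_mod]

/-- The orbit argument. -/
lemma orbit {N c E₀ : ℕ} (Z : Finset ℕ) (hZ : #Z ≤ E₀) (hc : 2 * E₀ + 1 ≤ c)
    (P Q : ℕ → Prop) (hPQ : ∀ v, v < N * c → v ∉ Z → P v ∨ Q v) (hdisj : ∀ v, ¬ (P v ∧ Q v))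
    (hrun : ∃ x, x + (2 * E₀ + 1) ≤ N * c ∧ ∀ v, x ≤ v → v < x + (2 * E₀ + 1) → v ∉ Z → P v)
    (hwin : ∃ w, w < N ∧ ∀ v, w * c ≤ v → v < (w + 1) * c → v ∉ Z → Q v) :
    ∃ i v, v < N * c ∧ ((P v ∧ Q (rho c (N * c) i v)) ∨ (Q v ∧ P (rho c (N * c) i v))) := by
  by_contra hcon
  push Not at hcon
  obtain ⟨x, hx, hxP⟩ := hrun
  obtain ⟨w, hw, hwQ⟩ := hwin
  have hc0 : 0 < c := by omega
  -- choose the block in the run
  obtain ⟨v, hv1, hv2, hv3⟩ : ∃ v, x ≤ v ∧ v < x + (2 * E₀ + 1) ∧
      ∀ z ∈ Z, z % c ≠ v % c ∧ (z + v + 1) % c ≠ 0 := by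
    by_contra hbad
    push Not at hbad
    have hb : ∀ v ∈ Finset.Ico x (x + (2 * E₀ + 1)), ∃ y : ℕ × Bool, y ∈ Z ×ˢ (univ : Finset Bool) ∧
        ((y.2 = true ∧ y.1 % c = v % c) ∨ (y.2 = false ∧ (y.1 + v + 1) % c = 0)) := by
      intro v hv
      rw [mem_Ico] at hv
      obtain ⟨z, hz, hz'⟩ := hbad v hv.1 hv.2
      by_cases h : z % c = v % c
      · exact ⟨(z, true), by simp [hz], Or.inl ⟨rfl, h⟩⟩
      · exact ⟨(z, false), by simp [hz], Or.inr ⟨rfl, hz' h⟩⟩
    choose! g hg1 hg2 using hb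
    obtain ⟨v, hv, v', hv', hne, heq⟩ := Finset.exists_ne_map_eq_of_card_lt_of_maps_to
      (s := Finset.Ico x (x + (2 * E₀ + 1))) (t := Z ×ˢ (univ : Finset Bool)) (f := g) (by
        rw [card_product, Nat.card_Ico]
        simp
        omega) (fun v hv => hg1 v hv)
    have h1 := hg2 v hv
    have h2 := hg2 v' hv'
    rw [← heq] at h2
    rw [mem_Ico] at hv hv'
    have h3 : v % c = v' % c := by
      rcases h1 with ⟨h1, h1'⟩ | ⟨h1, h1'⟩ <;> rcases h2 with ⟨h2, h2'⟩ | ⟨h2, h2'⟩
      · rw [← h1', h2']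
      · rw [h1] at h2; simp at h2
      · rw [h1] at h2; simp at h2
      · have h4 : (g v).1 + v + 1 ≡ (g v).1 + v' + 1 [MOD c] := by
          rw [Nat.ModEq, h1', h2']
        have h5 : (g v).1 + 1 + v ≡ (g v).1 + 1 + v' [MOD c] := by
          convert h4 using 1 <;> ring
        exact Nat.ModEq.add_left_cancel' _ h5
    apply hne
    have h4 := Nat.ModEq.dvd (h3 : v ≡ v' [MOD c])
    obtain ⟨k, hk⟩ := h4
    have h5 : k = 0 := by
      by_contra hk0
      have h6 : (c : ℤ) ≤ |(c : ℤ) * k| := by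
        rw [abs_mul, Nat.abs_cast]
        have : 1 ≤ |k| := Int.one_le_abs hk0
        nlinarith
      rw [← hk] at h6
      have h7 : |(v' : ℤ) - v| < c := by
        rw [abs_lt]; constructor <;> omega
      omega
    rw [h5] at hk
    omega
  have hvN : v < N * c := by omega
  have hvZ : v ∉ Z := fun h => (hv3 v h).1 rfl
  have hPv : P v := hxP v hv1 hv2 hvZ
  -- members of the orbit are not in `Z`
  have hor : ∀ u, u % c = v % c → u ∉ Z := fun u hu h => (hv3 u h).1 hu
  have hor' : ∀ u, (u + v + 1) % c = 0 → u ∉ Z := fun u hu h => (hv3 u h).2 hu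
  -- propagation
  have hstep : ∀ k, k + 1 < N → (P (k * c + v % c) ↔ P ((k + 1) * c + v % c)) := by
    intro k hk
    have hvc : v % c < c := Nat.mod_lt _ hc0
    have e1 : (k + 1) * c + c ≤ N * c := by
      have := Nat.mul_le_mul_right c (show k + 2 ≤ N by omega)
      have h2 : (k + 2) * c = (k + 1) * c + c := by ring
      omega
    have e2 : (k + 1) * c = k * c + c := by ring
    set u := k * c + v % c with hu
    have hu' : (k + 1) * c + v % c = u + c := by omega
    rw [hu']
    have hucN : u + c < N * c := by omega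
    have huZ : u ∉ Z := hor u (by rw [hu, mul_add_mod_mod])
    have hucZ : u + c ∉ Z := hor (u + c) (by
      rw [Nat.add_mod_right, hu, mul_add_mod_mod])
    have hrZ : N * c - 1 - u ∉ Z := by
      apply hor'
      have h1 : N * c - 1 - u + v + 1 = (N - k + v / c) * c := by
        have h2 := Nat.div_add_mod v c
        have h3 : (N - k + v / c) * c + k * c = N * c + c * (v / c) := by
          obtain ⟨j, rfl⟩ : ∃ j, N = k + j := ⟨N - k, by omega⟩
          rw [show k + j - k = j by omega]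
          ring
        omega
      rw [h1]
      exact Nat.mul_mod_left _ _
    have hr0 : rho c (N * c) false u = N * c - 1 - u := rfl
    have hr1 : rho c (N * c) true (N * c - 1 - u) = u + c := by
      simp only [rho]
      rw [if_neg (by omega)]
      omega
    have c1 := hcon false u (by omega)
    have c2 := hcon true (N * c - 1 - u) (by omega)
    rw [hr0] at c1
    rw [hr1] at c2
    have d1 := hPQ u (by omega) huZ
    have d2 := hPQ _ (by omega) hrZ
    have d3 := hPQ _ hucN hucZ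
    constructor
    · intro hPu
      have hPr := d2.resolve_right (c1.1 hPu)
      exact d3.resolve_right (c2.1 hPr)
    · intro hPuc
      have hPr := d2.resolve_right (fun h => c2.2 h hPuc)
      exact d1.resolve_right (fun h => c1.2 h hPr)
  have hconst : ∀ k, k < N → (P (0 * c + v % c) ↔ P (k * c + v % c)) := by
    intro k
    induction k with
    | zero => intro _; exact Iff.rfl
    | succ k ih => intro hk; rw [ih (by omega)]; exact hstep k hk
  have hv4 : v / c < N := by rw [Nat.div_lt_iff_lt_mul hc0]; exact hvN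
  have h1 := (hconst (v / c) hv4).2 (by rw [Nat.div_add_mod']; exact hPv)
  have h2 := (hconst w hw).1 h1
  have hvc : v % c < c := Nat.mod_lt _ hc0
  have e2 : (w + 1) * c = w * c + c := by ring
  have h3 := hwQ (w * c + v % c) (by omega) (by omega) (hor _ (by
    rw [mul_add_mod_mod]))
  exact hdisj _ ⟨h2, h3⟩

/-- Two reflected blocks on different sides of `P`. -/
theorem key {N c E₀ B : ℕ} {E : Finset ℕ} {P : ℕ → Prop} (hE : CutIn' E P) (hE₀ : #E ≤ E₀)
    (hc : 2 * E₀ + 1 ≤ c) (hN : E₀ < N) (hB : 1 ≤ B)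
    (hin : ∃ x, x + (2 * E₀ + 1) ≤ N * c ∧ ∀ v, x ≤ v → v < x + (2 * E₀ + 1) → InB P B v)
    (hout : ∃ x, x + (2 * E₀ + 1) ≤ N * c ∧ ∀ v, x ≤ v → v < x + (2 * E₀ + 1) →
      InB (fun i => ¬ P i) B v) :
    ∃ i v, v < N * c ∧ InB P B v ∧ InB (fun i => ¬ P i) B (rho c (N * c) i v) ∧
      Uncut E B v ∧ Uncut E B (rho c (N * c) i v) := by
  have hcN : c ≤ N * c := Nat.le_mul_of_pos_left _ (by omega)
  -- the two statuses
  let In : ℕ → Prop := fun v => InB P B v ∧ Uncut E B v
  let Out : ℕ → Prop := fun v => InB (fun i => ¬ P i) B v ∧ Uncut E B v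
  have hdis : ∀ v, ¬ (In v ∧ Out v) := by
    rintro v ⟨h1, h2⟩
    have h3 : (v + 1) * B = v * B + B := by ring
    exact h2.1 (v * B) le_rfl (by omega) (h1.1 (v * B) le_rfl (by omega))
  have hIO : ∀ v, v ∉ E.image (· / B) → In v ∨ Out v := by
    intro v hv
    have h1 := uncut_of_div hv
    rcases in_or_out hE h1 with h2 | h2
    · exact Or.inl ⟨h2, h1⟩
    · exact Or.inr ⟨h2, h1⟩
  have hZ : #(E.image (· / B)) ≤ E₀ := card_image_le.trans hE₀
  obtain ⟨w, hw, hwu⟩ := exists_uncut (E := E) (c * B) (N := N) (by omega)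
  have hwB : ∀ v, w * c ≤ v → v < (w + 1) * c → w * (c * B) ≤ v * B ∧
      (v + 1) * B ≤ (w + 1) * (c * B) := by
    intro v h1 h2
    constructor
    · calc w * (c * B) = (w * c) * B := by ring
        _ ≤ v * B := Nat.mul_le_mul_right _ h1
    · calc (v + 1) * B ≤ ((w + 1) * c) * B := Nat.mul_le_mul_right _ h2
        _ = _ := by ring
  have main : ∃ i v, v < N * c ∧ ((In v ∧ Out (rho c (N * c) i v)) ∨
      (Out v ∧ In (rho c (N * c) i v))) := by
    rcases in_or_out hE hwu with h | h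
    · -- the window is inside: use the outer run
      obtain ⟨i, v, h1, h2⟩ := orbit (N := N) (c := c) (E.image (· / B)) hZ hc Out In
        (fun v _ hv => (hIO v hv).symm) (fun v h => hdis v h.symm)
        (by
          obtain ⟨x, hx, hx'⟩ := hout
          exact ⟨x, hx, fun v h1 h2 h3 => ⟨hx' v h1 h2, uncut_of_div h3⟩⟩)
        ⟨w, hw, fun v h1 h2 h3 => ⟨fun i hi1 hi2 => h i
          ((hwB v h1 h2).1.trans hi1) (lt_of_lt_of_le hi2 (hwB v h1 h2).2), uncut_of_div h3⟩⟩
      exact ⟨i, v, h1, h2.symm⟩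
    · obtain ⟨i, v, h1, h2⟩ := orbit (N := N) (c := c) (E.image (· / B)) hZ hc In Out
        (fun v _ hv => (hIO v hv)) (fun v h => hdis v h)
        (by
          obtain ⟨x, hx, hx'⟩ := hin
          exact ⟨x, hx, fun v h1 h2 h3 => ⟨hx' v h1 h2, uncut_of_div h3⟩⟩)
        ⟨w, hw, fun v h1 h2 h3 => ⟨fun i hi1 hi2 => h i
          ((hwB v h1 h2).1.trans hi1) (lt_of_lt_of_le hi2 (hwB v h1 h2).2), uncut_of_div h3⟩⟩
      exact ⟨i, v, h1, h2⟩
  obtain ⟨i, v, h1, ⟨h2, h3⟩ | ⟨h2, h3⟩⟩ := main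
  · exact ⟨i, v, h1, h2.1, h3.1, h2.2, h3.2⟩
  · refine ⟨i, rho c (N * c) i v, rho_lt hcN i h1, h3.1, ?_, h3.2, ?_⟩
    · rw [rho_rho hcN i h1]; exact h2.1
    · rw [rho_rho hcN i h1]; exact h2.2

end Pool.Agent.H50R2
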