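import Pool.Agent.H50R2.Exists
import Pool.Agent.H50R2.Inv

set_option autoImplicit false

/-!
# The family of words
-/

namespace Pool.Agent.H50R2

open Finset

variable {T G : Type} [Group G]

/-- Words of equal length `ℓ` for elements `κ b` of an abelian subgroup, for their inverses, and for
the trivial element. -/
structure Fam (h : T → G) (K : Type) [AddCommGroup K] where
  ℓ : ℕ
  pos : 1 ≤ ℓ
  E : ℕ → List T
  E' : ℕ → List T
  I : List T
  lenE : ∀ b, (E b).length = ℓ
  lenE' : ∀ b, (E' b).length = ℓ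
  lenI : I.length = ℓ
  φ : K → G
  φ_zero : φ 0 = 1
  φ_add : ∀ x y, φ (x + y) = φ x * φ y
  φ_inj : Function.Injective φ
  κ : ℕ → K
  evE : ∀ b, ev h (E b) = φ (κ b)
  evE' : ∀ b, ev h (E' b) = φ (-κ b)
  evI : ev h I = 1

namespace Fam

variable {h : T → G} {K : Type} [AddCommGroup K] (F : Fam h K) (c M : ℕ)

/-- A letter. -/
def a₀ : T := F.I.head (by
  intro h0
  have := F.lenI
  rw [h0] at this
  have := F.pos
  simp at *
  omega)

/-- The length of the words in the slots. -/
def L : ℕ := 2 * F.ℓ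

lemma L_pos : 1 ≤ F.L := by have := F.pos; unfold L; omega

/-- The place which holds the bit for the place `t` of layer `i`. -/
def rr (c M : ℕ) (i : Bool) (t : ℕ) : ℕ := min t (rho c M i t)

/-- The word of layer `i` at place `t` for the bit `x`. -/
def U (x i : Bool) (t : ℕ) : List T :=
  if x then (if t < rho c M i t then F.E (rr c M i t) else F.E' (rr c M i t)) else F.I

/-- The value of layer `i` at place `t` for the bit `x`. -/
def vb (x i : Bool) (t : ℕ) : K :=
  if x then (if t < rho c M i t then F.κ (rr c M i t) else -F.κ (rr c M i t)) else 0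

/-- The word at place `t`. -/
def sw (x : Bool × Bool) (t : ℕ) : List T := F.U c M x.1 false t ++ F.U c M x.2 true t

/-- The value at place `t`. -/
def V (β : ℕ → Bool × Bool) (t : ℕ) : K := F.vb c M (β t).1 false t + F.vb c M (β t).2 true t

/-- The infinite word. -/
def Wb (β : ℕ → Bool × Bool) (j : ℕ) : T := (F.sw c M (β (j / F.L)) (j / F.L)).getD (j % F.L) F.a₀

lemma ev_U (x i : Bool) (t : ℕ) : ev h (F.U c M x i t) = F.φ (F.vb c M x i t) := by
  unfold U vb
  split_ifs
  · exact F.evE _
  · exact F.evE' _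
  · rw [F.evI, F.φ_zero]

lemma length_U (x i : Bool) (t : ℕ) : (F.U c M x i t).length = F.ℓ := by
  unfold U
  split_ifs
  · exact F.lenE _
  · exact F.lenE' _
  · exact F.lenI

lemma length_sw (x : Bool × Bool) (t : ℕ) : (F.sw c M x t).length = F.L := by
  rw [sw, List.length_append, length_U, length_U, L]
  ring

lemma seg_slot (β : ℕ → Bool × Bool) (t : ℕ) :
    seg (F.Wb c M β) (t * F.L) F.L = F.sw c M (β t) t := by
  apply List.ext_getElem
  · rw [seg_length, length_sw]
  · intro j h1 h2
    rw [length_sw] at h2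
    have hd : (t * F.L + j) / F.L = t := by
      rw [mul_comm, Nat.mul_add_div F.L_pos, Nat.div_eq_of_lt h2, add_zero]
    have hm : (t * F.L + j) % F.L = j := by
      rw [Nat.mul_add_mod', Nat.mod_eq_of_lt h2]
    simp only [seg, List.getElem_map, List.getElem_range', one_mul, Wb]
    rw [hd, hm, List.getD_eq_getElem _ _ (by rw [length_sw]; exact h2)]

lemma ev_slots (β : ℕ → Bool × Bool) (x k : ℕ) :
    ev h (seg (F.Wb c M β) (x * F.L) (k * F.L)) = F.φ (∑ t ∈ Finset.Ico x (x + k), F.V c M β t) := by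
  induction k with
  | zero => simp [F.φ_zero]
  | succ k ih =>
    rw [add_mul, one_mul, seg_add, ev_append, ih, ← add_mul, seg_slot, sw, ev_append, ev_U, ev_U,
      ← F.φ_add, ← F.φ_add, show x + (k + 1) = x + k + 1 from rfl,
      Finset.sum_Ico_succ_top (by omega)]
    rfl

/-- The configuration bits. -/
def bit {M : ℕ} (ω : Bool × Fin M → Bool) (i : Bool) (t : ℕ) : Bool :=
  if ht : t < M then ω (i, ⟨t, ht⟩) else false

/-- The bits at the places. -/
def bits (c : ℕ) {M : ℕ} (ω : Bool × Fin M → Bool) (t : ℕ) : Bool × Bool :=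
  (bit ω false (rr c M false t), bit ω true (rr c M true t))

lemma bits_layer (ω : Bool × Fin M → Bool) (β : ℕ → Bool × Bool) (hβ : β = bits c ω) (t : ℕ) :
    F.V c M β t = F.vb c M (bit ω false (rr c M false t)) false t +
      F.vb c M (bit ω true (rr c M true t)) true t := by
  subst hβ; rfl

variable {c M}

lemma vb_rho (hcM : c ≤ M) (hc2 : Even c) (hM2 : Even M) (x i : Bool) {t : ℕ} (ht : t < M) :
    F.vb c M x i (rho c M i t) = - F.vb c M x i t := by
  have h1 := rho_ne hcM hc2 hM2 i ht
  have h2 := rho_rho hcM i ht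
  unfold vb rr
  rw [h2, min_comm]
  rcases lt_or_gt_of_ne h1 with h3 | h3
  · cases x
    · simp
    · rw [if_pos rfl, if_pos h3, if_pos rfl, if_neg (by omega)]; simp
  · cases x
    · simp
    · rw [if_pos rfl, if_neg (by omega), if_pos rfl, if_pos h3]

lemma rr_rho (hcM : c ≤ M) (i : Bool) {t : ℕ} (ht : t < M) :
    rr c M i (rho c M i t) = rr c M i t := by
  unfold rr
  rw [rho_rho hcM i ht, min_comm]

lemma sum_layer (hcM : c ≤ M) (hc2 : Even c) (hM2 : Even M) (ω : Bool × Fin M → Bool) (i : Bool) :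
    ∑ t ∈ range M, F.vb c M (bit ω i (rr c M i t)) i t = 0 := by
  apply Finset.sum_involution (fun t _ => rho c M i t)
  · intro t ht
    rw [mem_range] at ht
    rw [rr_rho hcM i ht, F.vb_rho hcM hc2 hM2 _ i ht, add_neg_cancel]
  · intro t ht _
    exact rho_ne hcM hc2 hM2 i (mem_range.1 ht)
  · intro t ht
    exact mem_range.2 (rho_lt hcM i (mem_range.1 ht))
  · intro t ht
    exact rho_rho hcM i (mem_range.1 ht)

/-- All the words of the family are trivial. -/
lemma ev_total (hcM : c ≤ M) (hc2 : Even c) (hM2 : Even M) (ω : Bool × Fin M → Bool) :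
    ev h (seg (F.Wb c M (bits c ω)) 0 (M * F.L)) = 1 := by
  have h1 := F.ev_slots c M (bits c ω) 0 M
  rw [zero_mul, zero_add] at h1
  rw [h1]
  have h2 : ∑ t ∈ Finset.Ico 0 M, F.V c M (bits c ω) t = 0 := by
    rw [← Finset.range_eq_Ico]
    simp only [bits_layer F c M ω _ rfl, Finset.sum_add_distrib]
    rw [F.sum_layer hcM hc2 hM2, F.sum_layer hcM hc2 hM2, add_zero]
  rw [h2, F.φ_zero]

/-- The configurations agree outside the bits of layer `i` at the places of block `u`. -/
def Agree {M : ℕ} (lam : ℕ) (i : Bool) (u : ℕ) (ω ω' : Bool × Fin M → Bool) : Prop :=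
  ∀ x : Bool × Fin M, ¬ (x.1 = i ∧ u * lam ≤ x.2.1 ∧ x.2.1 < (u + 1) * lam) → ω x = ω' x

lemma Agree.bit_eq {lam : ℕ} {i : Bool} {u : ℕ} {ω ω' : Bool × Fin M → Bool}
    (H : Agree lam i u ω ω') (j : Bool) (t : ℕ)
    (ht : ¬ (j = i ∧ u * lam ≤ t ∧ t < (u + 1) * lam)) : bit ω j t = bit ω' j t := by
  unfold bit
  split_ifs with h1
  · exact H _ ht
  · rfl

/-- A bit as an integer. -/
def toI (x : Bool) : ℤ := if x then 1 else 0

section Block

variable {N' c' lam : ℕ} (hM : M = N' * lam) (hc : c = c' * lam) (hcN : c' ≤ N')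
include hM hc hcN

lemma block_rr {i : Bool} {u s : ℕ} (hu : u < N') (hs : s < lam) (huu : u < rho c' N' i u) :
    u * lam + s < rho c M i (u * lam + s) ∧ rr c M i (u * lam + s) = u * lam + s := by
  subst hM hc
  have h1 := rho_block (lam := lam) hcN i hu hs
  have h2 : (u + 1) * lam ≤ rho c' N' i u * lam := Nat.mul_le_mul_right _ huu
  have h3 : (u + 1) * lam = u * lam + lam := by ring
  have h4 : u * lam + s < rho (c' * lam) (N' * lam) i (u * lam + s) := by
    rw [h1]; omega
  exact ⟨h4, min_eq_left h4.le⟩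

/-- The difference of the values on the lower block. -/
lemma sum_lower {i : Bool} {u : ℕ} (hu : u < N')
    (huu : u < rho c' N' i u) {ω ω' : Bool × Fin M → Bool}
    (H : Agree lam i u ω ω') :
    (∑ t ∈ Finset.Ico (u * lam) ((u + 1) * lam), F.V c M (bits c ω') t) -
      ∑ t ∈ Finset.Ico (u * lam) ((u + 1) * lam), F.V c M (bits c ω) t =
    ∑ t ∈ Finset.Ico (u * lam) ((u + 1) * lam), (toI (bit ω' i t) - toI (bit ω i t)) • F.κ t := by
  rw [← Finset.sum_sub_distrib]
  apply Finset.sum_congr rfl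
  intro t ht
  rw [mem_Ico] at ht
  obtain ⟨s, hs, rfl⟩ : ∃ s, s < lam ∧ t = u * lam + s := by
    have h3 : (u + 1) * lam = u * lam + lam := by ring
    exact ⟨t - u * lam, by omega, by omega⟩
  obtain ⟨h1, h2⟩ := block_rr (i := i) hM hc hcN hu hs huu
  have hother : ∀ j, j ≠ i → ∀ t, bit ω' j t = bit ω j t := by
    intro j hj t
    exact (H.bit_eq j t (fun h => hj h.1)).symm
  have hval : ∀ x : Bool, F.vb c M x i (u * lam + s) = toI x • F.κ (u * lam + s) := by
    intro x
    unfold vb toI
    rw [if_pos h1, h2]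
    cases x <;> simp
  rw [F.bits_layer c M ω' _ rfl, F.bits_layer c M ω _ rfl]
  cases i
  · rw [h2, hval, hval, hother true (by simp), sub_smul]
    abel
  · rw [h2, hval, hval, hother false (by simp), sub_smul]
    abel

/-- The difference of the values on the upper block. -/
lemma sum_upper (hc2 : Even c) (hM2 : Even M) {i : Bool} {u : ℕ} (hu : u < N')
    (huu : u < rho c' N' i u) {ω ω' : Bool × Fin M → Bool}
    (H : Agree lam i u ω ω') :
    (∑ t ∈ Finset.Ico (rho c' N' i u * lam) ((rho c' N' i u + 1) * lam), F.V c M (bits c ω') t) -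
      ∑ t ∈ Finset.Ico (rho c' N' i u * lam) ((rho c' N' i u + 1) * lam), F.V c M (bits c ω) t =
    - ∑ t ∈ Finset.Ico (u * lam) ((u + 1) * lam), (toI (bit ω' i t) - toI (bit ω i t)) • F.κ t := by
  rw [← Finset.sum_sub_distrib]
  have h3 : (u + 1) * lam = u * lam + lam := by ring
  have h3' : (rho c' N' i u + 1) * lam = rho c' N' i u * lam + lam := by ring
  rw [h3, h3', Finset.sum_Ico_eq_sum_range, Finset.sum_Ico_eq_sum_range, Nat.add_sub_cancel_left,
    Nat.add_sub_cancel_left, ← Finset.sum_range_reflect, ← Finset.sum_neg_distrib]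
  apply Finset.sum_congr rfl
  intro s hs
  rw [mem_range] at hs
  obtain ⟨h1, h2⟩ := block_rr (i := i) hM hc hcN hu hs huu
  have hother : ∀ j, j ≠ i → ∀ t, bit ω' j t = bit ω j t := by
    intro j hj t
    exact (H.bit_eq j t (fun h => hj h.1)).symm
  have hcM : c ≤ M := by subst hM hc; exact Nat.mul_le_mul_right _ hcN
  have htM : u * lam + s < M := by
    subst hM
    have := Nat.mul_le_mul_right lam (show u + 1 ≤ N' from hu)
    omega
  have hρ : rho c' N' i u * lam + (lam - 1 - s) = rho c M i (u * lam + s) := by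
    subst hM hc
    exact (rho_block hcN i hu hs).symm
  rw [hρ]
  have hval : ∀ x : Bool, F.vb c M x i (rho c M i (u * lam + s)) =
      - (toI x • F.κ (u * lam + s)) := by
    intro x
    rw [F.vb_rho hcM hc2 hM2 x i htM]
    unfold vb toI
    rw [if_pos h1, h2]
    cases x <;> simp
  rw [F.bits_layer c M ω' _ rfl, F.bits_layer c M ω _ rfl]
  cases i
  · rw [rr_rho hcM false htM, h2, hval, hval, hother true (by simp), sub_smul]
    abel
  · rw [rr_rho hcM true htM, h2, hval, hval, hother false (by simp), sub_smul]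
    abel

omit hM hc hcN in
/-- Independence of the elements `κ b`. -/
lemma eq_of_sum {m : ℕ} (hm : M ≤ m)
    (hind : ∀ d : ℕ → ℤ, (∀ b, |d b| ≤ 1) → ∑ b ∈ range m, d b • F.κ b = 0 → ∀ b, b < m → d b = 0)
    {i : Bool} {u : ℕ} {ω ω' : Bool × Fin M → Bool}
    (H : Agree lam i u ω ω') (huM : (u + 1) * lam ≤ M)
    (hsum : ∑ t ∈ Finset.Ico (u * lam) ((u + 1) * lam),
      (toI (bit ω' i t) - toI (bit ω i t)) • F.κ t = 0) : ω = ω' := by
  let d : ℕ → ℤ := fun b => if u * lam ≤ b ∧ b < (u + 1) * lam then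
    toI (bit ω' i b) - toI (bit ω i b) else 0
  have hd1 : ∀ b, |d b| ≤ 1 := by
    intro b
    simp only [d, toI]
    split_ifs <;> simp
  have hd2 : ∑ b ∈ range m, d b • F.κ b = 0 := by
    rw [← hsum]
    have hsub : Finset.Ico (u * lam) ((u + 1) * lam) ⊆ range m := by
      intro b hb
      rw [mem_Ico] at hb
      rw [mem_range]
      omega
    rw [← Finset.sum_subset hsub]
    · apply Finset.sum_congr rfl
      intro b hb
      rw [mem_Ico] at hb
      simp only [d, if_pos hb]
    · intro b _ hb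
      rw [mem_Ico] at hb
      simp only [d, if_neg hb, zero_smul]
  have hd3 := hind d hd1 hd2
  funext x
  by_cases hx : x.1 = i ∧ u * lam ≤ x.2.1 ∧ x.2.1 < (u + 1) * lam
  · have h1 := hd3 x.2.1 (by omega)
    simp only [d] at h1
    rw [if_pos hx.2] at h1
    have h2 : ∀ ω : Bool × Fin M → Bool, bit ω i x.2.1 = ω x := by
      intro ω
      unfold bit
      rw [dif_pos x.2.2, ← hx.1]
    rw [h2, h2] at h1
    revert h1
    cases ω x <;> cases ω' x <;> simp [toI]
  · exact H x hx

/-- Outside the two blocks nothing changes. -/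
lemma bits_eq {i : Bool} {u : ℕ} (hu : u < N') {ω ω' : Bool × Fin M → Bool}
    (H : Agree lam i u ω ω') {t : ℕ} (ht : t < M)
    (h1 : ¬ (u * lam ≤ t ∧ t < (u + 1) * lam))
    (h2 : ¬ (rho c' N' i u * lam ≤ t ∧ t < (rho c' N' i u + 1) * lam)) :
    bits c ω t = bits c ω' t := by
  have hlam : 0 < lam := by
    rcases Nat.eq_zero_or_pos lam with h | h
    · subst h; omega
    · exact h
  have hnot : ∀ j, ¬ (j = i ∧ u * lam ≤ rr c M j t ∧ rr c M j t < (u + 1) * lam) := by
    rintro j ⟨rfl, h3, h4⟩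
    unfold rr at h3 h4
    rcases min_choice t (rho c M j t) with h5 | h5
    · rw [h5] at h3 h4; exact h1 ⟨h3, h4⟩
    · rw [h5] at h3 h4
      have h6 : (u + 1) * lam = u * lam + lam := by ring
      obtain ⟨s, hs, hs'⟩ : ∃ s, s < lam ∧ rho c M j t = u * lam + s :=
        ⟨rho c M j t - u * lam, by omega, by omega⟩
      have hcM : c ≤ M := by subst hM hc; exact Nat.mul_le_mul_right _ hcN
      have h7 := rho_rho hcM j ht
      rw [hs'] at h7
      have h8 : rho c M j (u * lam + s) = rho c' N' j u * lam + (lam - 1 - s) := by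
        subst hM hc
        exact rho_block hcN j hu hs
      rw [h8] at h7
      apply h2
      have h9 : (rho c' N' j u + 1) * lam = rho c' N' j u * lam + lam := by ring
      omega
  unfold bits
  rw [H.bit_eq false _ (hnot false), H.bit_eq true _ (hnot true)]

end Block

end Fam

end Pool.Agent.H50R2
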