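import Pool.Agent.H50R2.Grammar

set_option autoImplicit false

/-!
# Derivation forests of indexed grammars
-/

namespace Pool.Agent.H50R2

/-- Ordered forests with leaves labelled by letters and nodes labelled by nonterminals with stacks:
the constructor `nd X s c r` is the forest with first tree a node `X[s]` with child forest `c`, the
other trees forming the forest `r`. -/
inductive Forest (T NT Fl : Type) : Type
  | nil : Forest T NT Fl
  | tm (a : T) (r : Forest T NT Fl) : Forest T NT Fl
  | nd (X : NT) (s : List Fl) (c r : Forest T NT Fl) : Forest T NT Fl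

namespace Forest

variable {T NT Fl : Type}

/-- The word of leaves. -/
def yield : Forest T NT Fl → List T
  | nil => []
  | tm a r => a :: r.yield
  | nd _ _ c r => c.yield ++ r.yield

/-- The length of the word of leaves. -/
def len (F : Forest T NT Fl) : ℕ := F.yield.length

/-- The word of roots. -/
def root : Forest T NT Fl → List (T ⊕ (NT × List Fl))
  | nil => []
  | tm a r => Sum.inl a :: r.root
  | nd X s _ r => Sum.inr (X, s) :: r.root

/-- The number of leaves and nodes. -/
def size : Forest T NT Fl → ℕ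
  | nil => 0
  | tm _ r => r.size + 1
  | nd _ _ c r => c.size + r.size + 1

/-- Juxtaposition. -/
def append : Forest T NT Fl → Forest T NT Fl → Forest T NT Fl
  | nil, g => g
  | tm a r, g => tm a (append r g)
  | nd X s c r, g => nd X s c (append r g)

@[simp] lemma yield_nil : (nil : Forest T NT Fl).yield = [] := rfl
@[simp] lemma yield_tm (a : T) (r : Forest T NT Fl) : (tm a r).yield = a :: r.yield := rfl
@[simp] lemma yield_nd (X : NT) (s : List Fl) (c r : Forest T NT Fl) :
    (nd X s c r).yield = c.yield ++ r.yield := rfl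
@[simp] lemma root_nil : (nil : Forest T NT Fl).root = [] := rfl
@[simp] lemma root_tm (a : T) (r : Forest T NT Fl) : (tm a r).root = Sum.inl a :: r.root := rfl
@[simp] lemma root_nd (X : NT) (s : List Fl) (c r : Forest T NT Fl) :
    (nd X s c r).root = Sum.inr (X, s) :: r.root := rfl
@[simp] lemma len_nil : (nil : Forest T NT Fl).len = 0 := rfl
@[simp] lemma len_tm (a : T) (r : Forest T NT Fl) : (tm a r).len = r.len + 1 := rfl
@[simp] lemma len_nd (X : NT) (s : List Fl) (c r : Forest T NT Fl) :
    (nd X s c r).len = c.len + r.len := by simp [len]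

@[simp] lemma yield_append (F G : Forest T NT Fl) : (append F G).yield = F.yield ++ G.yield := by
  induction F with
  | nil => rfl
  | tm a r ih => simp [append, ih]
  | nd X s c r _ ih => simp [append, ih]

@[simp] lemma root_append (F G : Forest T NT Fl) : (append F G).root = F.root ++ G.root := by
  induction F with
  | nil => rfl
  | tm a r ih => simp [append, ih]
  | nd X s c r _ ih => simp [append, ih]

lemma exists_split (F : Forest T NT Fl) (u v : List (T ⊕ (NT × List Fl)))
    (h : F.root = u ++ v) : ∃ G H, F = append G H ∧ G.root = u ∧ H.root = v := by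
  induction u generalizing F with
  | nil => exact ⟨nil, F, rfl, rfl, h⟩
  | cons x u ih =>
    cases F with
    | nil => simp at h
    | tm a r =>
      simp only [root_tm, List.cons_append, List.cons.injEq] at h
      obtain ⟨G, H, rfl, h1, h2⟩ := ih r h.2
      exact ⟨tm a G, H, rfl, by simp [h1, h.1], h2⟩
    | nd X s c r =>
      simp only [root_nd, List.cons_append, List.cons.injEq] at h
      obtain ⟨G, H, rfl, h1, h2⟩ := ih r h.2
      exact ⟨nd X s c G, H, rfl, by simp [h1, h.1], h2⟩

/-- The forest of single leaves of a word. -/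
def leaves : List T → Forest T NT Fl
  | [] => nil
  | a :: w => tm a (leaves w)

lemma yield_leaves (w : List T) : (leaves w : Forest T NT Fl).yield = w := by
  induction w with
  | nil => rfl
  | cons a w ih => simp [leaves, ih]

lemma root_leaves (w : List T) : (leaves w : Forest T NT Fl).root = w.map Sum.inl := by
  induction w with
  | nil => rfl
  | cons a w ih => simp [leaves, ih]

/-- `Occ F o X s c`: the forest `F` has a node `X[s]` with child forest `c`, whose first leaf is at
offset `o`. -/
inductive Occ : Forest T NT Fl → ℕ → NT → List Fl → Forest T NT Fl → Prop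
  | here (X : NT) (s : List Fl) (c r : Forest T NT Fl) : Occ (nd X s c r) 0 X s c
  | child (X : NT) (s : List Fl) (c r : Forest T NT Fl) (o : ℕ) (Y : NT) (t : List Fl)
      (d : Forest T NT Fl) (h : Occ c o Y t d) : Occ (nd X s c r) o Y t d
  | rest (X : NT) (s : List Fl) (c r : Forest T NT Fl) (o : ℕ) (Y : NT) (t : List Fl)
      (d : Forest T NT Fl) (h : Occ r o Y t d) : Occ (nd X s c r) (c.len + o) Y t d
  | leaf (a : T) (r : Forest T NT Fl) (o : ℕ) (Y : NT) (t : List Fl)
      (d : Forest T NT Fl) (h : Occ r o Y t d) : Occ (tm a r) (o + 1) Y t d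

lemma Occ.le {F : Forest T NT Fl} {o : ℕ} {X : NT} {s : List Fl} {c : Forest T NT Fl}
    (h : Occ F o X s c) : o + c.len ≤ F.len := by
  induction h with
  | here X s c r => simp
  | child X s c r o Y t d h ih => simp; omega
  | rest X s c r o Y t d h ih => simp; omega
  | leaf a r o Y t d h ih => simp; omega

lemma Occ.size_lt {F : Forest T NT Fl} {o : ℕ} {X : NT} {s : List Fl} {c : Forest T NT Fl}
    (h : Occ F o X s c) : c.size < F.size := by
  induction h with
  | here X s c r => simp only [size]; omega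
  | child X s c r o Y t d h ih => simp only [size]; omega
  | rest X s c r o Y t d h ih => simp only [size]; omega
  | leaf a r o Y t d h ih => simp only [size]; omega

lemma Occ.trans {F : Forest T NT Fl} {o : ℕ} {X : NT} {s : List Fl} {c : Forest T NT Fl}
    (h : Occ F o X s c) {o' : ℕ} {Y : NT} {t : List Fl} {d : Forest T NT Fl}
    (h' : Occ c o' Y t d) : Occ F (o + o') Y t d := by
  induction h with
  | here X s c r => rw [zero_add]; exact Occ.child _ _ _ _ _ _ _ _ h'
  | child X s c r o Y' t' d' h ih => exact Occ.child _ _ _ _ _ _ _ _ (ih h')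
  | rest X s c r o Y' t' d' h ih =>
    rw [add_assoc]; exact Occ.rest _ _ _ _ _ _ _ _ (ih h')
  | leaf a r o Y' t' d' h ih =>
    have := Occ.leaf a _ _ _ _ _ (ih h')
    rwa [show o + o' + 1 = o + 1 + o' by omega] at this

lemma Occ.cases_nd {X : NT} {s : List Fl} {c r : Forest T NT Fl} {o : ℕ} {Y : NT} {t : List Fl}
    {d : Forest T NT Fl} (h : Occ (nd X s c r) o Y t d) :
    (o = 0 ∧ X = Y ∧ s = t ∧ c = d) ∨ Occ c o Y t d ∨ ∃ o', o = c.len + o' ∧ Occ r o' Y t d := by
  cases h with
  | here => exact Or.inl ⟨rfl, rfl, rfl, rfl⟩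
  | child _ _ _ _ _ _ _ _ h => exact Or.inr (Or.inl h)
  | rest _ _ _ _ o' _ _ _ h => exact Or.inr (Or.inr ⟨o', rfl, h⟩)

lemma Occ.cases_tm {a : T} {r : Forest T NT Fl} {o : ℕ} {Y : NT} {t : List Fl}
    {d : Forest T NT Fl} (h : Occ (tm a r) o Y t d) : ∃ o', o = o' + 1 ∧ Occ r o' Y t d := by
  cases h with
  | leaf _ _ o' _ _ _ h => exact ⟨o', rfl, h⟩

/-- Two nodes of a forest are equal, one below the other, or next to each other. -/
lemma Occ.trichotomy {F : Forest T NT Fl} : ∀ {o : ℕ} {X : NT} {s : List Fl} {c : Forest T NT Fl}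
    (_ : Occ F o X s c) {o' : ℕ} {Y : NT} {t : List Fl} {d : Forest T NT Fl}
    (_ : Occ F o' Y t d),
    (o = o' ∧ X = Y ∧ s = t ∧ c = d) ∨ (∃ p, o' = o + p ∧ Occ c p Y t d) ∨
      (∃ p, o = o' + p ∧ Occ d p X s c) ∨ o + c.len ≤ o' ∨ o' + d.len ≤ o := by
  induction F with
  | nil => intro o X s c h; cases h
  | tm a r ih =>
    intro o X s c h o' Y t d h'
    obtain ⟨o, rfl, h3⟩ := h.cases_tm
    obtain ⟨o', rfl, h3'⟩ := h'.cases_tm
    rcases ih h3 h3' with ⟨h1, h2, h3, h4⟩ | ⟨p, h1, h2⟩ | ⟨p, h1, h2⟩ | h1 | h1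
    · exact Or.inl ⟨by omega, h2, h3, h4⟩
    · exact Or.inr (Or.inl ⟨p, by omega, h2⟩)
    · exact Or.inr (Or.inr (Or.inl ⟨p, by omega, h2⟩))
    · exact Or.inr (Or.inr (Or.inr (Or.inl (by omega))))
    · exact Or.inr (Or.inr (Or.inr (Or.inr (by omega))))
  | nd X₀ s₀ c₀ r₀ ihc ihr =>
    intro o X s c h o' Y t d h'
    rcases h.cases_nd with ⟨rfl, rfl, rfl, rfl⟩ | h1 | ⟨p, rfl, h1⟩ <;>
      rcases h'.cases_nd with ⟨rfl, rfl, rfl, rfl⟩ | h2 | ⟨q, rfl, h2⟩
    · exact Or.inl ⟨rfl, rfl, rfl, rfl⟩
    · exact Or.inr (Or.inl ⟨o', by omega, h2⟩)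
    · exact Or.inr (Or.inr (Or.inr (Or.inl (by omega))))
    · exact Or.inr (Or.inr (Or.inl ⟨o, by omega, h1⟩))
    · exact ihc h1 h2
    · have := h1.le
      exact Or.inr (Or.inr (Or.inr (Or.inl (by omega))))
    · exact Or.inr (Or.inr (Or.inr (Or.inr (by omega))))
    · have := h2.le
      exact Or.inr (Or.inr (Or.inr (Or.inr (by omega))))
    · rcases ihr h1 h2 with ⟨h1, h2, h3, h4⟩ | ⟨p, h1, h2⟩ | ⟨p, h1, h2⟩ | h1 | h1
      · exact Or.inl ⟨by omega, h2, h3, h4⟩
      · exact Or.inr (Or.inl ⟨p, by omega, h2⟩)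
      · exact Or.inr (Or.inr (Or.inl ⟨p, by omega, h2⟩))
      · exact Or.inr (Or.inr (Or.inr (Or.inl (by omega))))
      · exact Or.inr (Or.inr (Or.inr (Or.inr (by omega))))

end Forest

namespace IndexedGrammar

variable {T : Type} (γ : IndexedGrammar T)

/-- The derivation forests of an indexed grammar. -/
abbrev DF : Type := Forest T γ.NT γ.Flag

variable {γ}

/-- Every node of the forest is rewritten by a rule of the grammar. -/
def Valid : γ.DF → Prop
  | Forest.nil => True
  | Forest.tm _ r => Valid r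
  | Forest.nd X s c r => γ.RuleOK X s c.root ∧ Valid c ∧ Valid r

@[simp] lemma valid_nil : Valid (γ := γ) Forest.nil := trivial

@[simp] lemma valid_tm (a : T) (r : γ.DF) : Valid (Forest.tm a r) ↔ Valid r := Iff.rfl

@[simp] lemma valid_nd (X : γ.NT) (s : List γ.Flag) (c r : γ.DF) :
    Valid (Forest.nd X s c r) ↔ γ.RuleOK X s c.root ∧ Valid c ∧ Valid r := Iff.rfl

lemma valid_append (F G : γ.DF) : Valid (F.append G) ↔ Valid F ∧ Valid G := by
  induction F with
  | nil => simp [Forest.append]
  | tm a r ih => simp [Forest.append, ih]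
  | nd X s c r _ ih => simp [Forest.append, ih, and_assoc]

lemma valid_leaves (w : List T) : Valid (γ := γ) (Forest.leaves w) := by
  induction w with
  | nil => trivial
  | cons a w ih => exact ih

lemma exists_forest {u : γ.Form} {w : List T} (h : γ.Der u (w.map Sum.inl)) :
    ∃ F : γ.DF, Valid F ∧ F.root = u ∧ F.yield = w := by
  induction h using Relation.ReflTransGen.head_induction_on with
  | refl => exact ⟨Forest.leaves w, valid_leaves w, Forest.root_leaves w, Forest.yield_leaves w⟩
  | head h1 _ ih =>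
    obtain ⟨F, hF, hr, hy⟩ := ih
    obtain ⟨p, q, X, s, α, h, rfl, rfl⟩ := step_iff.1 h1
    obtain ⟨G, H, rfl, hG, rfl⟩ := Forest.exists_split F _ _ hr
    obtain ⟨P, Q, rfl, rfl, rfl⟩ := Forest.exists_split G _ _ hG
    rw [valid_append, valid_append] at hF
    refine ⟨P.append (Forest.nd X s Q H), ?_, ?_, ?_⟩
    · rw [valid_append]
      exact ⟨hF.1.1, h, hF.1.2, hF.2⟩
    · simp
    · simpa using hy

lemma Valid.der {F : γ.DF} (h : Valid F) : γ.Der F.root (F.yield.map Sum.inl) := by
  induction F with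
  | nil => exact der_refl _
  | tm a r ih =>
    have := (ih h).context [Sum.inl a] []
    simpa using this
  | nd X s c r ihc ihr =>
    obtain ⟨h1, h2, h3⟩ := h
    have h4 := (der_of_ruleOK h1).trans (ihc h2)
    have h5 := h4.append (ihr h3)
    simpa using h5

lemma Valid.occ {F : γ.DF} (h : Valid F) {o : ℕ} {X : γ.NT} {s : List γ.Flag} {c : γ.DF}
    (ho : Forest.Occ F o X s c) : γ.RuleOK X s c.root ∧ Valid c := by
  induction ho with
  | here X s c r => exact ⟨h.1, h.2.1⟩
  | child X s c r o Y t d _ ih => exact ih h.2.1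
  | rest X s c r o Y t d _ ih => exact ih h.2.2
  | leaf a r o Y t d _ ih => exact ih h

/-- The context of a node in a derivation forest. -/
lemma Valid.context {F : γ.DF} (h : Valid F) {o : ℕ} {X : γ.NT} {s : List γ.Flag} {c : γ.DF}
    (ho : Forest.Occ F o X s c) : ∃ p q : List T, p.length = o ∧ F.yield = p ++ c.yield ++ q ∧
      ∀ u : γ.Form, γ.Der [Sum.inr (X, s)] u →
        γ.Der F.root (p.map Sum.inl ++ u ++ q.map Sum.inl) := by
  induction ho with
  | here X s c r =>
    refine ⟨[], r.yield, rfl, by simp, fun u hu => ?_⟩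
    have := hu.append (Valid.der h.2.2)
    simpa using this
  | child X s c r o Y t d _ ih =>
    obtain ⟨p, q, h1, h2, h3⟩ := ih h.2.1
    refine ⟨p, q ++ r.yield, h1, by simp [h2], fun u hu => ?_⟩
    have h4 := ((der_of_ruleOK h.1).trans (h3 u hu)).append (Valid.der h.2.2)
    simpa using h4
  | rest X s c r o Y t d _ ih =>
    obtain ⟨p, q, h1, h2, h3⟩ := ih h.2.2
    refine ⟨c.yield ++ p, q, by simp [h1, Forest.len], by simp [h2], fun u hu => ?_⟩
    have h4 := ((der_of_ruleOK h.1).trans (Valid.der h.2.1)).append (h3 u hu)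
    simpa using h4
  | leaf a r o Y t d _ ih =>
    obtain ⟨p, q, h1, h2, h3⟩ := ih h
    refine ⟨a :: p, q, by simp [h1], by simp [h2], fun u hu => ?_⟩
    have h4 := (der_refl (γ := γ) [Sum.inl a]).append (h3 u hu)
    simpa using h4

end IndexedGrammar

end Pool.Agent.H50R2
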