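import Mathlib

set_option autoImplicit false

/-!
# Indexed grammars

The definition of indexed grammars (Aho 1968) and their languages, and the basic context lemmas.
-/

namespace Pool.Agent.H50R2

/-- An indexed grammar (Aho 1968) over the alphabet `T` of terminals: finite sets of nonterminals and
of flags, a start symbol, and finitely many productions of the forms `X → α`, `X → Y f`, `X f → α`
with `X`, `Y` nonterminals, `f` a flag and `α` a word of terminals and nonterminals. -/
structure IndexedGrammar (T : Type) where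
  /-- nonterminals -/
  NT : Type
  /-- flags (stack symbols) -/
  Flag : Type
  finite_NT : Finite NT
  finite_Flag : Finite Flag
  /-- the start symbol -/
  start : NT
  /-- productions `X → α` -/
  copyRules : Set (NT × List (T ⊕ NT))
  /-- productions `X → Y f` -/
  pushRules : Set (NT × NT × Flag)
  /-- productions `X f → α` -/
  popRules : Set (NT × Flag × List (T ⊕ NT))
  finite_copyRules : copyRules.Finite
  finite_pushRules : pushRules.Finite
  finite_popRules : popRules.Finite

namespace IndexedGrammar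

variable {T : Type}

/-- Sentential forms: words of terminals and of nonterminals carrying a stack of flags
(the top of the stack is the head of the list). -/
abbrev Form (γ : IndexedGrammar T) : Type := List (T ⊕ (γ.NT × List γ.Flag))

/-- Put a copy of the stack `l` on every nonterminal of the word `α`. -/
def distribute (γ : IndexedGrammar T) (l : List γ.Flag) (α : List (T ⊕ γ.NT)) : γ.Form :=
  α.map (Sum.map id (fun B => (B, l)))

/-- One derivation step of an indexed grammar. -/
inductive Step (γ : IndexedGrammar T) : γ.Form → γ.Form → Prop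
  | copy (p q : γ.Form) (X : γ.NT) (l : List γ.Flag) (α : List (T ⊕ γ.NT))
      (h : (X, α) ∈ γ.copyRules) :
      Step γ (p ++ [Sum.inr (X, l)] ++ q) (p ++ γ.distribute l α ++ q)
  | push (p q : γ.Form) (X Y : γ.NT) (f : γ.Flag) (l : List γ.Flag)
      (h : (X, Y, f) ∈ γ.pushRules) :
      Step γ (p ++ [Sum.inr (X, l)] ++ q) (p ++ [Sum.inr (Y, f :: l)] ++ q)
  | pop (p q : γ.Form) (X : γ.NT) (f : γ.Flag) (l : List γ.Flag) (α : List (T ⊕ γ.NT))
      (h : (X, f, α) ∈ γ.popRules) :
      Step γ (p ++ [Sum.inr (X, f :: l)] ++ q) (p ++ γ.distribute l α ++ q)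

/-- The language generated by an indexed grammar: the words of terminals which can be derived from
the start symbol with empty stack. -/
def language (γ : IndexedGrammar T) : Language T :=
  {w : List T | Relation.ReflTransGen γ.Step [Sum.inr (γ.start, [])] (w.map Sum.inl)}

/-- The forms obtained by applying one rule to the nonterminal `X` with stack `s`. -/
def RuleOK (γ : IndexedGrammar T) (X : γ.NT) (s : List γ.Flag) (α : γ.Form) : Prop :=
  (∃ β, (X, β) ∈ γ.copyRules ∧ α = γ.distribute s β) ∨
  (∃ Y f, (X, Y, f) ∈ γ.pushRules ∧ α = [Sum.inr (Y, f :: s)]) ∨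
  (∃ f s' β, s = f :: s' ∧ (X, f, β) ∈ γ.popRules ∧ α = γ.distribute s' β)

/-- `Der u v`: the form `v` is derivable from `u`. -/
def Der (γ : IndexedGrammar T) (u v : γ.Form) : Prop := Relation.ReflTransGen γ.Step u v

variable {γ : IndexedGrammar T}

lemma step_iff {u v : γ.Form} : γ.Step u v ↔ ∃ (p q : γ.Form) (X : γ.NT) (s : List γ.Flag)
    (α : γ.Form), γ.RuleOK X s α ∧ u = p ++ [Sum.inr (X, s)] ++ q ∧ v = p ++ α ++ q := by
  constructor
  · intro h
    cases h with
    | copy p q X l α h => exact ⟨p, q, X, l, _, Or.inl ⟨α, h, rfl⟩, rfl, rfl⟩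
    | push p q X Y f l h => exact ⟨p, q, X, l, _, Or.inr (Or.inl ⟨Y, f, h, rfl⟩), rfl, rfl⟩
    | pop p q X f l α h =>
      exact ⟨p, q, X, f :: l, _, Or.inr (Or.inr ⟨f, l, α, rfl, h, rfl⟩), rfl, rfl⟩
  · rintro ⟨p, q, X, s, α, h, rfl, rfl⟩
    rcases h with ⟨β, h, rfl⟩ | ⟨Y, f, h, rfl⟩ | ⟨f, s', β, rfl, h, rfl⟩
    · exact .copy _ _ _ _ _ h
    · exact .push _ _ _ _ _ _ h
    · exact .pop _ _ _ _ _ _ h

lemma step_of_ruleOK {X : γ.NT} {s : List γ.Flag} {α : γ.Form} (h : γ.RuleOK X s α) :
    γ.Step [Sum.inr (X, s)] α :=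
  step_iff.2 ⟨[], [], X, s, α, h, by simp, by simp⟩

lemma step_context {u v : γ.Form} (h : γ.Step u v) (p q : γ.Form) :
    γ.Step (p ++ u ++ q) (p ++ v ++ q) := by
  obtain ⟨p', q', X, s, α, h', rfl, rfl⟩ := step_iff.1 h
  exact step_iff.2 ⟨p ++ p', q' ++ q, X, s, α, h', by simp, by simp⟩

lemma der_refl (u : γ.Form) : γ.Der u u := Relation.ReflTransGen.refl

lemma Der.trans {u v w : γ.Form} (h : γ.Der u v) (h' : γ.Der v w) : γ.Der u w :=
  Relation.ReflTransGen.trans h h'

lemma Der.context {u v : γ.Form} (h : γ.Der u v) (p q : γ.Form) :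
    γ.Der (p ++ u ++ q) (p ++ v ++ q) := by
  induction h with
  | refl => exact der_refl _
  | tail _ h ih => exact Relation.ReflTransGen.tail ih (step_context h p q)

lemma Der.append {u v u' v' : γ.Form} (h : γ.Der u v) (h' : γ.Der u' v') :
    γ.Der (u ++ u') (v ++ v') := by
  have h1 := h.context [] u'
  have h2 := h'.context v []
  simp only [List.nil_append, List.append_nil] at h1 h2
  exact h1.trans h2

lemma der_of_ruleOK {X : γ.NT} {s : List γ.Flag} {α : γ.Form} (h : γ.RuleOK X s α) :
    γ.Der [Sum.inr (X, s)] α :=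
  Relation.ReflTransGen.single (step_of_ruleOK h)

lemma mem_language {w : List T} :
    w ∈ γ.language ↔ γ.Der [Sum.inr (γ.start, [])] (w.map Sum.inl) := Iff.rfl

/-- A bound for the number of symbols produced by one rule. -/
lemma exists_bound (γ : IndexedGrammar T) : ∃ b : ℕ, ∀ (X : γ.NT) (s : List γ.Flag) (α : γ.Form),
    γ.RuleOK X s α → α.length ≤ b := by
  obtain ⟨b1, h1⟩ := (γ.finite_copyRules.image (fun r => r.2.length)).bddAbove
  obtain ⟨b2, h2⟩ := (γ.finite_popRules.image (fun r => r.2.2.length)).bddAbove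
  refine ⟨b1 + b2 + 1, ?_⟩
  rintro X s α (⟨β, h, rfl⟩ | ⟨Y, f, h, rfl⟩ | ⟨f, s', β, rfl, h, rfl⟩)
  · have := h1 ⟨_, h, rfl⟩
    simp only [distribute, List.length_map] at this ⊢
    omega
  · simp
  · have := h2 ⟨_, h, rfl⟩
    simp only [distribute, List.length_map] at this ⊢
    omega

end IndexedGrammar

/-- A language is indexed if it is generated by an indexed grammar. -/
def IsIndexed {T : Type} (L : Language T) : Prop :=
  ∃ γ : IndexedGrammar T, γ.language = L

end Pool.Agent.H50R2
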