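import Pool.Agent.H50R2.Forest

set_option autoImplicit false

/-!
# Heavy nodes of derivation forests
-/

namespace Pool.Agent.H50R2

open Finset

namespace Forest

variable {T NT Fl : Type}

/-- Position `i` of the forest `c` is below a node with stack `τ` and at least `Λ` leaves. -/
def Cov (Λ : ℕ) (τ : List Fl) (c : Forest T NT Fl) (i : ℕ) : Prop :=
  ∃ o D d, Occ c o D τ d ∧ Λ ≤ d.len ∧ o ≤ i ∧ i < o + d.len

/-- Position `i` of the child forest `c` of a node with stack `s` is below a node with at least `Λ`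
leaves at which the top flag of `s` is removed. -/
def Cov' (Λ : ℕ) (s : List Fl) (c : Forest T NT Fl) (i : ℕ) : Prop :=
  ∃ f τ, s = f :: τ ∧ Cov Λ τ c i

open Classical in
/-- The number of positions which are not covered. -/
noncomputable def mass (Λ : ℕ) (s : List Fl) (c : Forest T NT Fl) : ℕ :=
  #{i ∈ range c.len | ¬ Cov' Λ s c i}

lemma card_root (Λ : ℕ) (hΛ : 1 ≤ Λ) (s' : List Fl) : ∀ (d : Forest T NT Fl)
    (_ : ∀ Z t, Sum.inr (Z, t) ∈ d.root → t = s') (P : ℕ → Prop) [DecidablePred P]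
    (_ : ∀ j p Z e, P j → Occ d p Z s' e → p ≤ j → j < p + e.len → e.len < Λ),
    #{j ∈ range d.len | P j} ≤ d.root.length * Λ := by
  intro d
  induction d with
  | nil => intro _ P _ _; simp
  | tm a r ih =>
    intro hr P _ hP
    have h1 := ih (fun Z t h => hr Z t (by simp [h])) (fun j => P (j + 1))
      (fun j p Z e hj ho h1 h2 => hP (j + 1) (p + 1) Z e hj (Occ.leaf _ _ _ _ _ _ ho)
        (by omega) (by omega))
    have h2 : ({j ∈ range (tm a r).len | P j} : Finset ℕ) ⊆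
        {0} ∪ ({j ∈ range r.len | P (j + 1)} : Finset ℕ).image (· + 1) := by
      intro j hj
      simp only [len_tm, mem_filter, mem_range] at hj
      rcases j with _ | j
      · simp
      · simp only [mem_union, mem_singleton, mem_image, mem_filter, mem_range]
        exact Or.inr ⟨j, ⟨by omega, hj.2⟩, rfl⟩
    calc #{j ∈ range (tm a r).len | P j} ≤ _ := card_le_card h2
      _ ≤ 1 + #{j ∈ range r.len | P (j + 1)} :=
        (card_union_le _ _).trans (add_le_add (by simp) card_image_le)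
      _ ≤ Λ + r.root.length * Λ := add_le_add hΛ h1
      _ = _ := by simp; ring
  | nd Z t e r _ ih =>
    intro hr P _ hP
    have ht : t = s' := hr Z t (by simp)
    subst ht
    have h1 := ih (fun Z t h => hr Z t (by simp [h])) (fun j => P (e.len + j))
      (fun j p Z e' hj ho h1 h2 => hP (e.len + j) (e.len + p) Z e' hj (Occ.rest _ _ _ _ _ _ _ _ ho)
        (by omega) (by omega))
    have h2 : ({j ∈ range (nd Z t e r).len | P j} : Finset ℕ) ⊆
        ({j ∈ range e.len | P j} : Finset ℕ) ∪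
          ({j ∈ range r.len | P (e.len + j)} : Finset ℕ).image (e.len + ·) := by
      intro j hj
      simp only [len_nd, mem_filter, mem_range] at hj
      simp only [mem_union, mem_image, mem_filter, mem_range]
      rcases lt_or_ge j e.len with h | h
      · exact Or.inl ⟨h, hj.2⟩
      · refine Or.inr ⟨j - e.len, ⟨by omega, ?_⟩, by omega⟩
        rw [show e.len + (j - e.len) = j by omega]
        exact hj.2
    have h3 : #{j ∈ range e.len | P j} ≤ Λ := by
      by_cases hne : ∃ j, j < e.len ∧ P j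
      · obtain ⟨j, hj, hPj⟩ := hne
        have := hP j 0 Z e hPj (Occ.here _ _ _ _) (by omega) (by omega)
        exact (card_filter_le _ _).trans (by simp; omega)
      · rw [Finset.filter_false_of_mem]
        · simp
        · intro j hj hPj
          exact hne ⟨j, by simpa using hj, hPj⟩
    calc #{j ∈ range (nd Z t e r).len | P j} ≤ _ := card_le_card h2
      _ ≤ #{j ∈ range e.len | P j} + #{j ∈ range r.len | P (e.len + j)} :=
        (card_union_le _ _).trans (add_le_add le_rfl card_image_le)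
      _ ≤ Λ + r.root.length * Λ := add_le_add h3 h1
      _ = _ := by simp; ring

end Forest

open Forest IndexedGrammar

variable {T : Type} {γ : IndexedGrammar T}

/-- The assumptions of the mass estimate for a node `X[s]` with child forest `c`. -/
structure HeavyCtx (γ : IndexedGrammar T) (X : γ.NT) (s : List γ.Flag) (c : γ.DF)
    (Λ η n b : ℕ) : Prop where
  hΛ : 1 ≤ Λ
  hb : b * Λ ≤ η
  hval : Valid (Forest.nd X s c Forest.nil)
  hbound : ∀ (X : γ.NT) (s : List γ.Flag) (α : γ.Form), γ.RuleOK X s α → α.length ≤ b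
  hnest : ∀ o₁ Y d₁ o₂ d₂, Occ (Forest.nd X s c Forest.nil) o₁ Y s d₁ →
    Occ (Forest.nd X s c Forest.nil) o₂ Y s d₂ → Λ ≤ d₁.len → Λ ≤ d₂.len → o₂ ≤ o₁ →
    o₁ + d₁.len ≤ o₂ + d₂.len → o₁ ≤ o₂ + Λ ∧ o₂ + d₂.len ≤ o₁ + d₁.len + Λ
  hdisj : ∀ o₁ Y d₁ o₂ d₂, Occ (Forest.nd X s c Forest.nil) o₁ Y s d₁ →
    Occ (Forest.nd X s c Forest.nil) o₂ Y s d₂ → Λ ≤ d₁.len → Λ ≤ d₂.len →
    o₁ + d₁.len ≤ o₂ → n ≤ d₁.len + d₂.len + 3 * Λ
  hn : 9 * Λ < n
  hlen : c.len ≤ n
  hmass : ∀ o Y f t d, Occ c o Y (f :: t) d → mass Λ (f :: t) d < η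

namespace HeavyCtx

variable {X : γ.NT} {s : List γ.Flag} {c : γ.DF} {Λ η n b : ℕ}

/-- The node is a long node with stack `s` containing the position `i`. -/
def IsMac (X : γ.NT) (s : List γ.Flag) (c : γ.DF) (Λ : ℕ) (i o : ℕ) (Y : γ.NT) (d : γ.DF) : Prop :=
  Occ (Forest.nd X s c Forest.nil) o Y s d ∧ Λ ≤ d.len ∧ o ≤ i ∧ i < o + d.len

/-- The node is the lowest long node with stack `s` containing the position `i`. -/
def Own (X : γ.NT) (s : List γ.Flag) (c : γ.DF) (Λ : ℕ) (i o : ℕ) (Y : γ.NT) (d : γ.DF) : Prop :=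
  IsMac X s c Λ i o Y d ∧ ∀ o' Y' d', IsMac X s c Λ i o' Y' d' → d.size ≤ d'.size

lemma own_unique {i i' o o' : ℕ} {Y Y' : γ.NT} {d d' : γ.DF} (h : Own X s c Λ i o Y d)
    (h' : Own X s c Λ i' o' Y' d') (hi : IsMac X s c Λ i o' Y' d') (hi' : IsMac X s c Λ i' o Y d) :
    o = o' ∧ Y = Y' ∧ d = d' := by
  have h1 := h.2 _ _ _ hi
  have h2 := h'.2 _ _ _ hi'
  rcases h.1.1.trichotomy h'.1.1 with ⟨h3, h4, h5, h6⟩ | ⟨p, h3, h4⟩ | ⟨p, h3, h4⟩ | h3 | h3
  · exact ⟨h3, h4, h6⟩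
  · have := h4.size_lt; omega
  · have := h4.size_lt; omega
  · have := h.1.2.2; have := hi.2.2; omega
  · have := h.1.2.2; have := hi.2.2; omega

lemma exists_own {i : ℕ} (hc : Λ ≤ c.len) (hi : i < c.len) :
    ∃ o Y d, Own X s c Λ i o Y d := by
  classical
  have hex : ∃ k, ∃ o Y d, IsMac X s c Λ i o Y d ∧ d.size = k :=
    ⟨c.size, 0, X, c, ⟨Occ.here _ _ _ _, hc, by omega, by omega⟩, rfl⟩
  obtain ⟨o, Y, d, h1, h2⟩ := Nat.find_spec hex
  refine ⟨o, Y, d, h1, fun o' Y' d' h' => ?_⟩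
  rw [h2]
  exact Nat.find_min' hex ⟨o', Y', d', h', rfl⟩

lemma occ_child {o : ℕ} {Y : γ.NT} {t : List γ.Flag} {d : γ.DF}
    (h : Occ (Forest.nd X s c Forest.nil) o Y t d) (ht : t ≠ s) : Occ c o Y t d := by
  rcases h.cases_nd with ⟨_, _, h3, _⟩ | h1 | ⟨o', _, h1⟩
  · exact absurd h3.symm ht
  · exact h1
  · cases h1

open Classical in
lemma own_card (H : HeavyCtx γ X s c Λ η n b) (o : ℕ) (Y : γ.NT) (d : γ.DF)
    (ho : Occ (Forest.nd X s c Forest.nil) o Y s d) :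
    #{i ∈ range c.len | ¬ Cov' Λ s c i ∧ Own X s c Λ i o Y d} ≤ η := by
  have hv := H.hval.occ ho
  have hb := H.hbound _ _ _ hv.1
  -- shift to positions in `d`
  have hshift : #{i ∈ range c.len | ¬ Cov' Λ s c i ∧ Own X s c Λ i o Y d} ≤
      #{j ∈ range d.len | ¬ Cov' Λ s c (o + j) ∧ Own X s c Λ (o + j) o Y d} := by
    have hsub : ({i ∈ range c.len | ¬ Cov' Λ s c i ∧ Own X s c Λ i o Y d} : Finset ℕ) ⊆
        ({j ∈ range d.len | ¬ Cov' Λ s c (o + j) ∧ Own X s c Λ (o + j) o Y d} : Finset ℕ).image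
          (o + ·) := by
      intro i hi
      simp only [mem_filter, mem_range, mem_image] at hi ⊢
      have h1 := hi.2.2.1.2.2
      refine ⟨i - o, ⟨by omega, ?_⟩, by omega⟩
      rw [show o + (i - o) = i by omega]
      exact hi.2
    exact (card_le_card hsub).trans card_image_le
  refine hshift.trans ?_
  rcases hv.1 with ⟨β, h, hα⟩ | ⟨Z, g, h, hα⟩ | ⟨f, s', β, hs, h, hα⟩
  · refine (card_root Λ H.hΛ s d ?_ _ ?_).trans ((Nat.mul_le_mul_right _ hb).trans H.hb)
    · intro Z t hZ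
      rw [hα] at hZ
      simp only [distribute, List.mem_map] at hZ
      obtain ⟨x, _, hx⟩ := hZ
      cases x with
      | inl a => simp at hx
      | inr B => simp at hx; exact hx.2.symm
    · intro j p Z e hj hoc h1 h2
      by_contra hcon
      have := hj.2.2 (o + p) Z e ⟨ho.trans hoc, by omega, by omega, by omega⟩
      have := hoc.size_lt
      omega
  · -- push rule
    cases d with
    | nil => simp at hα
    | tm a r => simp at hα
    | nd Z' t e r =>
      simp only [root_nd, List.cons.injEq, Sum.inr.injEq, Prod.mk.injEq] at hα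
      obtain ⟨⟨rfl, rfl⟩, hr⟩ := hα
      cases r with
      | tm a r => simp at hr
      | nd _ _ _ _ => simp at hr
      | nil =>
        have hoe : Occ (Forest.nd X s c Forest.nil) o Z' (g :: s) e := by
          have := ho.trans (Occ.here Z' (g :: s) e Forest.nil)
          simpa using this
        have hoc : Occ c o Z' (g :: s) e := occ_child hoe (by
          intro h
          have := congrArg List.length h
          simp at this)
        refine le_trans (card_le_card ?_) (H.hmass _ _ _ _ _ hoc).le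
        intro j hj
        simp only [mem_filter, mem_range, len_nd, len_nil, add_zero] at hj ⊢
        refine ⟨hj.1, ?_⟩
        rintro ⟨f, τ, hfτ, p, D, d', hd1, hd2, hd3, hd4⟩
        simp only [List.cons.injEq] at hfτ
        obtain ⟨rfl, rfl⟩ := hfτ
        have := hj.2.2.2 (o + p) D d' ⟨hoe.trans hd1, hd2, by omega, by omega⟩
        have h3 := hd1.size_lt
        simp only [Forest.size] at this
        omega
  · refine (card_root Λ H.hΛ s' d ?_ _ ?_).trans ((Nat.mul_le_mul_right _ hb).trans H.hb)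
    · intro Z t hZ
      rw [hα] at hZ
      simp only [distribute, List.mem_map] at hZ
      obtain ⟨x, _, hx⟩ := hZ
      cases x with
      | inl a => simp at hx
      | inr B => simp at hx; exact hx.2.symm
    · intro j p Z e hj hoc h1 h2
      by_contra hcon
      refine hj.1 ⟨f, s', hs, o + p, Z, e, ?_, by omega, by omega, by omega⟩
      refine occ_child (ho.trans hoc) ?_
      rw [hs]
      intro h
      have := congrArg List.length h
      simp at this

open Classical in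
lemma cluster (H : HeavyCtx γ X s c Λ η n b) (o₁ : ℕ) (Y : γ.NT) (d₁ : γ.DF)
    (ho : Occ (Forest.nd X s c Forest.nil) o₁ Y s d₁) (hd : Λ ≤ d₁.len) (Q : ℕ → Prop)
    (hQ : ∀ i, Q i → ¬ Cov' Λ s c i ∧ ∃ o d, Own X s c Λ i o Y d ∧ o ≤ o₁ ∧
      o₁ + d₁.len ≤ o + d.len) :
    #{i ∈ range c.len | Q i} ≤ η + 2 * Λ := by
  have hsub : ({i ∈ range c.len | Q i} : Finset ℕ) ⊆
      {i ∈ range c.len | Q i ∧ o₁ ≤ i ∧ i < o₁ + d₁.len} ∪
        (Finset.Ico (o₁ - Λ) o₁ ∪ Finset.Ico (o₁ + d₁.len) (o₁ + d₁.len + Λ)) := by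
    intro i hi
    simp only [mem_filter, mem_range, mem_union, mem_Ico] at hi ⊢
    obtain ⟨_, o, d, h1, h2, h3⟩ := hQ i hi.2
    have h4 := H.hnest o₁ Y d₁ o d ho h1.1.1 hd h1.1.2.1 h2 h3
    have h5 := h1.1.2.2
    rcases lt_or_ge i o₁ with h | h
    · right; left; omega
    · rcases lt_or_ge i (o₁ + d₁.len) with h' | h'
      · left; exact ⟨hi.1, hi.2, h, h'⟩
      · right; right; omega
  have hmain : #{i ∈ range c.len | Q i ∧ o₁ ≤ i ∧ i < o₁ + d₁.len} ≤ η := by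
    by_cases hne : ∃ i, Q i ∧ o₁ ≤ i ∧ i < o₁ + d₁.len
    · obtain ⟨i₀, hQ0, h0, h0'⟩ := hne
      obtain ⟨_, o, d, h1, h2, h3⟩ := hQ i₀ hQ0
      refine le_trans (card_le_card ?_) (H.own_card o Y d h1.1.1)
      intro i hi
      simp only [mem_filter, mem_range] at hi ⊢
      obtain ⟨h4, o', d', h5, h6, h7⟩ := hQ i hi.2.1
      obtain ⟨rfl, _, rfl⟩ := own_unique h1 h5 ⟨h5.1.1, h5.1.2.1, by omega, by omega⟩
        ⟨h1.1.1, h1.1.2.1, by omega, by omega⟩
      exact ⟨hi.1, h4, h5⟩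
    · rw [Finset.filter_false_of_mem]
      · simp
      · intro j _ hPj
        exact hne ⟨j, hPj⟩
  calc #{i ∈ range c.len | Q i} ≤ _ := card_le_card hsub
    _ ≤ η + (Λ + Λ) := by
      refine (card_union_le _ _).trans (add_le_add hmain ((card_union_le _ _).trans ?_))
      refine add_le_add ?_ ?_ <;> (simp; try omega)
    _ = _ := by ring

open Classical in
lemma label_card (H : HeavyCtx γ X s c Λ η n b) (Y : γ.NT) :
    #{i ∈ range c.len | ¬ Cov' Λ s c i ∧ ∃ o d, Own X s c Λ i o Y d} ≤ 2 * (η + 2 * Λ) := by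
  by_cases hne : ∃ k o d, Occ (Forest.nd X s c Forest.nil) o Y s d ∧ Λ ≤ d.len ∧ d.len = k
  swap
  · rw [Finset.filter_false_of_mem]
    · simp
    · rintro i _ ⟨_, o, d, h⟩
      exact hne ⟨d.len, o, d, h.1.1, h.1.2.1, rfl⟩
  obtain ⟨o₁, d₁, ho₁, hd₁, hk₁⟩ := Nat.find_spec hne
  have hmin₁ : ∀ o d, Occ (Forest.nd X s c Forest.nil) o Y s d → Λ ≤ d.len → d₁.len ≤ d.len := by
    intro o d h h'
    rw [hk₁]
    exact Nat.find_min' hne ⟨o, d, h, h', rfl⟩
  -- positions whose own node contains the first centre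
  have hA := H.cluster o₁ Y d₁ ho₁ hd₁ (fun i => ¬ Cov' Λ s c i ∧ ∃ o d, Own X s c Λ i o Y d ∧
    o ≤ o₁ ∧ o₁ + d₁.len ≤ o + d.len) (fun i h => h)
  have hB : #{i ∈ range c.len | ¬ Cov' Λ s c i ∧ ∃ o d, Own X s c Λ i o Y d ∧
      (o + d.len ≤ o₁ ∨ o₁ + d₁.len ≤ o)} ≤ η + 2 * Λ := by
    by_cases hne2 : ∃ k o d, Occ (Forest.nd X s c Forest.nil) o Y s d ∧ Λ ≤ d.len ∧
        (o + d.len ≤ o₁ ∨ o₁ + d₁.len ≤ o) ∧ d.len = k
    swap
    · rw [Finset.filter_false_of_mem]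
      · simp
      · rintro i _ ⟨_, o, d, h, h'⟩
        exact hne2 ⟨d.len, o, d, h.1.1, h.1.2.1, h', rfl⟩
    obtain ⟨o₂, d₂, ho₂, hd₂, hdis₂, hk₂⟩ := Nat.find_spec hne2
    have hmin₂ : ∀ o d, Occ (Forest.nd X s c Forest.nil) o Y s d → Λ ≤ d.len →
        (o + d.len ≤ o₁ ∨ o₁ + d₁.len ≤ o) → d₂.len ≤ d.len := by
      intro o d h h' h''
      rw [hk₂]
      exact Nat.find_min' hne2 ⟨o, d, h, h', h'', rfl⟩
    refine le_trans (card_le_card ?_) (H.cluster o₂ Y d₂ ho₂ hd₂ (fun i => ¬ Cov' Λ s c i ∧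
      ∃ o d, Own X s c Λ i o Y d ∧ o ≤ o₂ ∧ o₂ + d₂.len ≤ o + d.len) (fun i h => h))
    intro i hi
    simp only [mem_filter, mem_range] at hi ⊢
    obtain ⟨h1, h2, o, d, h3, h4⟩ := hi
    refine ⟨h1, h2, o, d, h3, ?_⟩
    rcases ho₂.trichotomy h3.1.1 with ⟨h5, _, _, h6⟩ | ⟨p, h5, h6⟩ | ⟨p, h5, h6⟩ | h5 | h5
    · subst h6; omega
    · have := hmin₂ o d h3.1.1 h3.1.2.1 h4
      have := h6.le
      omega
    · have := h6.le
      omega
    · exfalso
      have hl := h3.1.1.le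
      have hl1 := ho₁.le
      have hl2 := ho₂.le
      simp only [len_nd, len_nil, add_zero] at hl hl1 hl2
      have hlen := H.hlen
      have hn := H.hn
      have e2 := H.hdisj o₂ Y d₂ o d ho₂ h3.1.1 hd₂ h3.1.2.1 h5
      rcases h4 with h4 | h4 <;> rcases hdis₂ with h7 | h7
      · have e1 := H.hdisj o Y d o₁ d₁ h3.1.1 ho₁ h3.1.2.1 hd₁ h4
        have e3 := H.hdisj o₂ Y d₂ o₁ d₁ ho₂ ho₁ hd₂ hd₁ h7
        omega
      · have := h3.1.2.1
        have := H.hΛ
        omega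
      · have e1 := H.hdisj o₁ Y d₁ o d ho₁ h3.1.1 hd₁ h3.1.2.1 h4
        have e3 := H.hdisj o₂ Y d₂ o₁ d₁ ho₂ ho₁ hd₂ hd₁ h7
        omega
      · have e1 := H.hdisj o₁ Y d₁ o d ho₁ h3.1.1 hd₁ h3.1.2.1 h4
        have e3 := H.hdisj o₁ Y d₁ o₂ d₂ ho₁ ho₂ hd₁ hd₂ h7
        omega
    · exfalso
      have hl := h3.1.1.le
      have hl1 := ho₁.le
      have hl2 := ho₂.le
      simp only [len_nd, len_nil, add_zero] at hl hl1 hl2
      have hlen := H.hlen
      have hn := H.hn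
      have e2 := H.hdisj o Y d o₂ d₂ h3.1.1 ho₂ h3.1.2.1 hd₂ h5
      rcases h4 with h4 | h4 <;> rcases hdis₂ with h7 | h7
      · have e1 := H.hdisj o Y d o₁ d₁ h3.1.1 ho₁ h3.1.2.1 hd₁ h4
        have e3 := H.hdisj o₂ Y d₂ o₁ d₁ ho₂ ho₁ hd₂ hd₁ h7
        omega
      · have e1 := H.hdisj o Y d o₁ d₁ h3.1.1 ho₁ h3.1.2.1 hd₁ h4
        have e3 := H.hdisj o₁ Y d₁ o₂ d₂ ho₁ ho₂ hd₁ hd₂ h7
        omega
      · have := h3.1.2.1
        have := H.hΛ
        omega
      · have e1 := H.hdisj o₁ Y d₁ o d ho₁ h3.1.1 hd₁ h3.1.2.1 h4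
        have e3 := H.hdisj o₁ Y d₁ o₂ d₂ ho₁ ho₂ hd₁ hd₂ h7
        omega
  have hsub : ({i ∈ range c.len | ¬ Cov' Λ s c i ∧ ∃ o d, Own X s c Λ i o Y d} : Finset ℕ) ⊆
      {i ∈ range c.len | ¬ Cov' Λ s c i ∧ ∃ o d, Own X s c Λ i o Y d ∧
        o ≤ o₁ ∧ o₁ + d₁.len ≤ o + d.len} ∪
      {i ∈ range c.len | ¬ Cov' Λ s c i ∧ ∃ o d, Own X s c Λ i o Y d ∧
      (o + d.len ≤ o₁ ∨ o₁ + d₁.len ≤ o)} := by
    intro i hi
    simp only [mem_filter, mem_range, mem_union] at hi ⊢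
    obtain ⟨h1, h2, o, d, h3⟩ := hi
    rcases ho₁.trichotomy h3.1.1 with ⟨h5, _, _, h6⟩ | ⟨p, h5, h6⟩ | ⟨p, h5, h6⟩ | h5 | h5
    · left; subst h6; exact ⟨h1, h2, o, d₁, h3, by omega, by omega⟩
    · left
      have := hmin₁ o d h3.1.1 h3.1.2.1
      have := h6.le
      exact ⟨h1, h2, o, d, h3, by omega, by omega⟩
    · left
      have := h6.le
      exact ⟨h1, h2, o, d, h3, by omega, by omega⟩
    · right; exact ⟨h1, h2, o, d, h3, Or.inr h5⟩
    · right; exact ⟨h1, h2, o, d, h3, Or.inl h5⟩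
  calc _ ≤ _ := card_le_card hsub
    _ ≤ (η + 2 * Λ) + (η + 2 * Λ) := (card_union_le _ _).trans
      (add_le_add (le_trans (le_of_eq (by congr)) hA) hB)
    _ = _ := by ring

theorem mass_le (H : HeavyCtx γ X s c Λ η n b) :
    mass Λ s c ≤ 2 * Nat.card γ.NT * (η + 2 * Λ) := by
  classical
  have := γ.finite_NT
  have := Fintype.ofFinite γ.NT
  rw [Nat.card_eq_fintype_card]
  have hpos : 1 ≤ Fintype.card γ.NT := Fintype.card_pos_iff.2 ⟨X⟩
  rcases lt_or_ge c.len Λ with hc | hc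
  · calc mass Λ s c ≤ c.len := (card_filter_le _ _).trans (by simp)
      _ ≤ 1 * (η + 2 * Λ) := by omega
      _ ≤ _ := Nat.mul_le_mul_right _ (by omega)
  · have hsub : ({i ∈ range c.len | ¬ Cov' Λ s c i} : Finset ℕ) ⊆
        (Finset.univ : Finset γ.NT).biUnion
          (fun Y => {i ∈ range c.len | ¬ Cov' Λ s c i ∧ ∃ o d, Own X s c Λ i o Y d}) := by
      intro i hi
      simp only [mem_filter, mem_range, mem_biUnion, mem_univ, true_and] at hi ⊢
      obtain ⟨o, Y, d, h⟩ := exists_own (X := X) (s := s) (c := c) (Λ := Λ) hc hi.1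
      exact ⟨Y, hi.1, hi.2, o, d, h⟩
    calc mass Λ s c ≤ _ := card_le_card hsub
      _ ≤ ∑ Y : γ.NT, _ := card_biUnion_le
      _ ≤ ∑ _Y : γ.NT, 2 * (η + 2 * Λ) := Finset.sum_le_sum (fun Y _ => H.label_card Y)
      _ = _ := by simp; ring

end HeavyCtx

end Pool.Agent.H50R2
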