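import Pool.Agent.H50R2.Count

set_option autoImplicit false

/-!
# Indexed word problems do not allow large commuting families
-/

namespace Pool.Agent.H50R2

open Finset Fam IndexedGrammar

variable {T G : Type} [Group G] {h : T → G}

/-- The number of windows. -/
noncomputable def cN (γ : IndexedGrammar T) (b : ℕ) : ℕ :=
  2 * Nat.card γ.NT * (2 + 2 * Nat.card γ.NT + b + 6) + (2 + 2 * Nat.card γ.NT) +
    Nat.card γ.Flag + Nat.card γ.NT + 5

/-- The number of blocks in a window. -/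
noncomputable def cc (γ : IndexedGrammar T) : ℕ := 2 * (2 + 2 * Nat.card γ.NT) + 1

/-- The ratio of the two block lengths. -/
noncomputable def cC (γ : IndexedGrammar T) : ℕ := 2 * (13 * Nat.card γ.NT + 3)

lemma data_bound {ν φ n lam a : ℕ} (hν : ν ≤ n) (hφ : φ ≤ n) (hlam : 1 ≤ lam)
    (hn : 4 * (n + 1) ^ 4 ≤ 2 ^ lam) (ha : a ≤ (n + 1) ^ 2 * 4 ^ (10 * lam + 1)) :
    4 * ((n + 1) * ((n + 1) * (ν * (φ * (((n + 1) * (n + 1) + 1) ^ ν * (a + 1) ^ ν))))) ≤
      2 ^ (2 * (13 * ν + 3) * lam) := by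
  have h1 : 1 ≤ n + 1 := by omega
  have h4 : (n + 1) ^ 2 ≤ (n + 1) ^ 4 := Nat.pow_le_pow_right h1 (by norm_num)
  have h2' : n + 1 ≤ (n + 1) ^ 2 := Nat.le_self_pow (by norm_num) _
  have e2 : (n + 1) * (n + 1) ≤ 2 ^ lam := by nlinarith
  have e3 : ν * φ ≤ 2 ^ lam := by
    calc ν * φ ≤ (n + 1) * (n + 1) := Nat.mul_le_mul (by omega) (by omega)
      _ ≤ _ := e2
  have e4 : (n + 1) * (n + 1) + 1 ≤ 2 ^ lam := by nlinarith
  have e5 : a + 1 ≤ 2 ^ (25 * lam) := by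
    have h5 : 1 ≤ 4 ^ (10 * lam + 1) := Nat.one_le_pow _ _ (by norm_num)
    have h6 : a + 1 ≤ (2 * (n + 1) ^ 2) * 4 ^ (10 * lam + 1) := by
      have : 1 ≤ (n + 1) ^ 2 * 4 ^ (10 * lam + 1) := Nat.mul_pos (by positivity) h5
      nlinarith
    calc a + 1 ≤ (2 * (n + 1) ^ 2) * 4 ^ (10 * lam + 1) := h6
      _ ≤ 2 ^ lam * 4 ^ (10 * lam + 1) := Nat.mul_le_mul_right _ (by omega)
      _ = 2 ^ (lam + 2 * (10 * lam + 1)) := by
        rw [show (4 : ℕ) = 2 ^ 2 by norm_num, ← pow_mul, ← pow_add]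
      _ ≤ _ := Nat.pow_le_pow_right (by norm_num) (by omega)
  have e6 : (4 : ℕ) ≤ 2 ^ (2 * lam) := by
    calc (4 : ℕ) = 2 ^ 2 := by norm_num
      _ ≤ _ := Nat.pow_le_pow_right (by norm_num) (by omega)
  calc 4 * ((n + 1) * ((n + 1) * (ν * (φ * (((n + 1) * (n + 1) + 1) ^ ν * (a + 1) ^ ν)))))
      = 4 * (((n + 1) * (n + 1)) * ((ν * φ) * (((n + 1) * (n + 1) + 1) ^ ν * (a + 1) ^ ν))) := by
        ring
    _ ≤ 2 ^ (2 * lam) * (2 ^ lam * (2 ^ lam * ((2 ^ lam) ^ ν * (2 ^ (25 * lam)) ^ ν))) := by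
        gcongr
    _ = 2 ^ (2 * lam + (lam + (lam + (lam * ν + 25 * lam * ν)))) := by
        rw [← pow_mul, ← pow_mul, ← pow_add, ← pow_add, ← pow_add, ← pow_add]
    _ ≤ _ := by
        apply Nat.pow_le_pow_right (by norm_num)
        nlinarith

open Classical in
/-- The main contradiction. -/
theorem core {γ : IndexedGrammar T}
    (hL : ∀ w : List T, γ.Der [Sum.inr (γ.start, [])] (w.map Sum.inl) ↔ ev h w = 1) {b : ℕ}
    (hb : ∀ (X : γ.NT) (s : List γ.Flag) (α : γ.Form), γ.RuleOK X s α → α.length ≤ b)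
    {K : Type} [AddCommGroup K] (F : Fam h K) {m : ℕ}
    (hind : ∀ d : ℕ → ℤ, (∀ b, |d b| ≤ 1) → ∑ b ∈ range m, d b • F.κ b = 0 →
      ∀ b, b < m → d b = 0)
    {lam : ℕ} (hlam : 1 ≤ lam) (hm : cN γ b * cc γ * (cC γ * lam) ≤ m)
    (hbig : 4 * (cN γ b * cc γ * (cC γ * lam) * F.L + 1) ^ 4 ≤ 2 ^ lam) : False := by
  have := γ.finite_NT
  have := γ.finite_Flag
  have := Fintype.ofFinite γ.NT
  have := Fintype.ofFinite γ.Flag
  set ν := Nat.card γ.NT with hν
  set φ := Nat.card γ.Flag with hφ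
  set N := cN γ b with hN
  set c' := cc γ with hc'
  set C := cC γ with hC
  have hNdef : N = 2 * ν * (2 + 2 * ν + b + 6) + (2 + 2 * ν) + φ + ν + 5 := rfl
  have hcdef : c' = 2 * (2 + 2 * ν) + 1 := rfl
  have hCdef : C = 2 * (13 * ν + 3) := rfl
  set M := N * c' * (C * lam) with hM
  set c := c' * (C * lam) with hc
  set n := M * F.L with hn
  have hFL := F.L_pos
  -- the length of a window
  set X := c' * (C * lam * F.L) with hX
  have hnX : n = N * X := by rw [hn, hM, hX]; ring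
  have hCeven : Even C := ⟨13 * ν + 3, by rw [hCdef]; ring⟩
  have hc2 : Even c := by rw [hc]; exact (hCeven.mul_right _).mul_left _
  have hM2 : Even M := by rw [hM]; exact (hCeven.mul_right _).mul_left _
  set Λ := 10 * (lam * F.L) with hΛ
  have hlL : 1 ≤ lam * F.L := Nat.mul_pos hlam hFL
  have hΛX : 3 * Λ ≤ X := by
    have h1 : 5 * 6 ≤ c' * C := Nat.mul_le_mul (by omega) (by omega)
    calc 3 * Λ = 5 * 6 * (lam * F.L) := by rw [hΛ]; ring
      _ ≤ c' * C * (lam * F.L) := Nat.mul_le_mul_right _ h1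
      _ = X := by rw [hX]; ring
  have hX1 : 1 ≤ X := by omega
  set η := (2 + 2 * ν + 4 + b) * X with hη
  have hη1 : (2 + 2 * ν) * X < η := by
    rw [hη]
    have h1 : (2 + 2 * ν + 4 + b) * X = (2 + 2 * ν) * X + (4 + b) * X := by ring
    have h2 : 1 ≤ (4 + b) * X := Nat.mul_pos (by omega) hX1
    omega
  have hη2 : b * Λ ≤ η := by
    calc b * Λ ≤ (2 + 2 * ν + 4 + b) * X := Nat.mul_le_mul (by omega) (by omega)
      _ = η := rfl
  have hη3 : 3 * Λ < η := by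
    have : 2 * X ≤ η := Nat.mul_le_mul_right _ (by omega)
    omega
  have hη4 : 2 * ν * (η + 2 * Λ) ≤ 2 * ν * (2 + 2 * ν + b + 6) * X := by
    have h1 : η + 2 * Λ ≤ (2 + 2 * ν + b + 6) * X := by
      have h2 : (2 + 2 * ν + b + 6) * X = η + 2 * X := by rw [hη]; ring
      omega
    calc 2 * ν * (η + 2 * Λ) ≤ 2 * ν * ((2 + 2 * ν + b + 6) * X) := Nat.mul_le_mul_left _ h1
      _ = _ := by ring
  have hNX : (2 * ν * (2 + 2 * ν + b + 6) + (2 + 2 * ν) + φ + ν + 5) * X = n := by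
    rw [hnX, hNdef]
  have hn9 : 9 * Λ < n := by
    have : 5 * X ≤ n := by rw [← hNX]; exact Nat.mul_le_mul_right _ (by omega)
    omega
  have hnη : (2 + 2 * ν) * X + 2 * ν * (η + 2 * Λ) < n := by
    have h1 : (2 * ν * (2 + 2 * ν + b + 6) + (2 + 2 * ν) + φ + ν + 5) * X =
      2 * ν * (2 + 2 * ν + b + 6) * X + (2 + 2 * ν) * X + (φ + ν + 5) * X := by ring
    have h2 : 1 ≤ (φ + ν + 5) * X := Nat.mul_pos (by omega) hX1
    omega
  have hnφ : φ ≤ n ∧ ν ≤ n := by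
    have h1 : (φ + ν) * 1 ≤ (2 * ν * (2 + 2 * ν + b + 6) + (2 + 2 * ν) + φ + ν + 5) * X :=
      Nat.mul_le_mul (by omega) hX1
    omega
  -- the values of short arcs
  obtain ⟨A, hA1, hA2⟩ := exists_values F lam c M
  -- the bad configurations
  have hbad := card_bad F (N := N) (c' := c' * C) (lam := lam) (c := c) (M := M)
    (by rw [hM]; ring) (by rw [hc]; ring) (by omega)
    (by
      have h1 : 5 * 6 ≤ c' * C := Nat.mul_le_mul (by omega) (by omega)
      omega) hlam hc2 hM2 hm hind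
  -- the good ones
  let Good : Finset (Bool × Fin M → Bool) := {ω | Rig h Λ n (F.Wo c ω)}
  let fib : Data γ n A → Finset (Bool × Fin M → Bool) := fun δ =>
    {ω | ∃ Fo τ d, Fits h γ.start Λ η n (F.Wo c ω) δ Fo τ d}
  have hcM : c ≤ M := by
    rw [hM, hc, mul_assoc]
    exact Nat.le_mul_of_pos_left _ (by omega)
  have hsub : Good ⊆ (Finset.univ : Finset (Data γ n A)).biUnion fib := by
    intro ω hω
    simp only [Good, mem_filter, mem_univ, true_and] at hω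
    rw [mem_biUnion]
    obtain ⟨δ, Fo, τ, d, hF⟩ := exists_fits h hL (by omega : 1 ≤ Λ) hη2 hη3 hb hn9
      (lt_of_le_of_lt (Nat.le_add_left _ _) hnη) A
      (F.Wo c ω) (F.ev_total hcM hc2 hM2 ω) (hA2 ω) hω
    refine ⟨δ, mem_univ _, ?_⟩
    simp only [fib, mem_filter, mem_univ, true_and]
    exact ⟨Fo, τ, d, hF⟩
  have hfib : ∀ δ, #(fib δ) * 2 ^ (C * lam) ≤ 2 ^ (2 * M) := by
    intro δ
    refine card_fiber F hL (N := N) (c' := c') (lam := C * lam) (c := c) (M := M) rfl rfl (by omega)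
      (by omega) (Nat.mul_pos (by omega) hlam) hc2 hM2 hm hind (Λ := Λ) (η := η) hη1 hnη δ (fib δ) ?_
    intro ω hω
    simpa only [fib, mem_filter, mem_univ, true_and] using hω
  have hgood : #Good * 2 ^ (C * lam) ≤ Fintype.card (Data γ n A) * 2 ^ (2 * M) := by
    calc #Good * 2 ^ (C * lam) ≤ #((Finset.univ : Finset (Data γ n A)).biUnion fib) *
          2 ^ (C * lam) := Nat.mul_le_mul_right _ (card_le_card hsub)
      _ ≤ (∑ δ, #(fib δ)) * 2 ^ (C * lam) := Nat.mul_le_mul_right _ card_biUnion_le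
      _ = ∑ δ, #(fib δ) * 2 ^ (C * lam) := Finset.sum_mul _ _ _
      _ ≤ ∑ _δ : Data γ n A, 2 ^ (2 * M) := Finset.sum_le_sum (fun δ _ => hfib δ)
      _ = _ := by rw [Finset.sum_const, Finset.card_univ, smul_eq_mul]
  have hdata : 4 * Fintype.card (Data γ n A) ≤ 2 ^ (C * lam) := by
    rw [card_data]
    exact data_bound hnφ.2 hnφ.1 hlam hbig hA1
  have htot : 2 ^ (2 * M) = #Good + #{ω : Bool × Fin M → Bool | ¬ Rig h Λ n (F.Wo c ω)} := by
    have h1 := Finset.card_filter_add_card_filter_not (s := (Finset.univ :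
      Finset (Bool × Fin M → Bool))) (fun ω => Rig h Λ n (F.Wo c ω))
    rw [Finset.card_univ, Fintype.card_fun] at h1
    simp only [Fintype.card_bool, Fintype.card_prod, Fintype.card_fin] at h1
    exact h1.symm
  -- conclusion
  have hpos : 0 < 2 ^ (2 * M) := by positivity
  have hp1 : 0 < 2 ^ lam := by positivity
  have hp2 : 0 < 2 ^ (C * lam) := by positivity
  have g1 : 4 * #{ω : Bool × Fin M → Bool | ¬ Rig h Λ n (F.Wo c ω)} ≤ 2 ^ (2 * M) := by
    have h1 : 4 * #{ω : Bool × Fin M → Bool | ¬ Rig h Λ n (F.Wo c ω)} * 2 ^ lam ≤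
        2 ^ (2 * M) * 2 ^ lam := by
      calc _ = 4 * (#{ω : Bool × Fin M → Bool | ¬ Rig h Λ n (F.Wo c ω)} * 2 ^ lam) := by ring
        _ ≤ 4 * ((n + 1) ^ 4 * 2 ^ (2 * M)) := Nat.mul_le_mul_left _ hbad
        _ = 4 * (n + 1) ^ 4 * 2 ^ (2 * M) := by ring
        _ ≤ 2 ^ lam * 2 ^ (2 * M) := Nat.mul_le_mul_right _ hbig
        _ = _ := by ring
    exact Nat.le_of_mul_le_mul_right h1 hp1
  have g2 : 4 * #Good ≤ 2 ^ (2 * M) := by
    have h1 : 4 * #Good * 2 ^ (C * lam) ≤ 2 ^ (2 * M) * 2 ^ (C * lam) := by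
      calc _ = 4 * (#Good * 2 ^ (C * lam)) := by ring
        _ ≤ 4 * (Fintype.card (Data γ n A) * 2 ^ (2 * M)) := Nat.mul_le_mul_left _ hgood
        _ = 4 * Fintype.card (Data γ n A) * 2 ^ (2 * M) := by ring
        _ ≤ 2 ^ (C * lam) * 2 ^ (2 * M) := Nat.mul_le_mul_right _ hdata
        _ = _ := by ring
    exact Nat.le_of_mul_le_mul_right h1 hp2
  omega

end Pool.Agent.H50R2
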