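import Pool.Agent.H50R2.Heavy

set_option autoImplicit false

/-!
# Exchanging the interior of a node
-/

namespace Pool.Agent.H50R2

open Finset

/-- The factor of length `l` at position `a` of the infinite word `W`. -/
def seg {T : Type} (W : ℕ → T) (a l : ℕ) : List T := (List.range' a l).map W

section seg

variable {T : Type} (W : ℕ → T)

@[simp] lemma seg_zero (a : ℕ) : seg W a 0 = [] := rfl

@[simp] lemma seg_length (a l : ℕ) : (seg W a l).length = l := by simp [seg]

lemma seg_add (a l l' : ℕ) : seg W a (l + l') = seg W a l ++ seg W (a + l) l' := by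
  rw [seg, seg, seg, ← List.map_append, List.range'_append_1]

lemma seg_succ (a l : ℕ) : seg W a (l + 1) = W a :: seg W (a + 1) l := by
  simp [seg, List.range'_succ]

lemma seg_congr {V W : ℕ → T} {a l : ℕ} (h : ∀ i, a ≤ i → i < a + l → V i = W i) :
    seg V a l = seg W a l := by
  apply List.map_congr_left
  intro i hi
  rw [List.mem_range'_1] at hi
  exact h i hi.1 hi.2

end seg

namespace Forest

variable {T NT Fl : Type}

lemma reads_nd {W : ℕ → T} {a : ℕ} {X : NT} {s : List Fl} {c r : Forest T NT Fl}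
    (h : (nd X s c r).yield = seg W a (nd X s c r).len) :
    c.yield = seg W a c.len ∧ r.yield = seg W (a + c.len) r.len := by
  rw [yield_nd, len_nd, seg_add] at h
  exact List.append_inj h (by simp [len])

lemma reads_tm {W : ℕ → T} {a : ℕ} {x : T} {r : Forest T NT Fl}
    (h : (tm x r).yield = seg W a (tm x r).len) :
    x = W a ∧ r.yield = seg W (a + 1) r.len := by
  rw [yield_tm, len_tm, seg_succ] at h
  simpa using h

lemma Occ.reads {W : ℕ → T} {F : Forest T NT Fl} {o : ℕ} {X : NT} {s : List Fl}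
    {c : Forest T NT Fl} (h : Occ F o X s c) {a : ℕ} (hF : F.yield = seg W a F.len) :
    c.yield = seg W (a + o) c.len := by
  induction h generalizing a with
  | here X s c r => exact (reads_nd hF).1
  | child X s c r o Y t d h ih => exact ih (reads_nd hF).1
  | rest X s c r o Y t d h ih => rw [← add_assoc]; exact ih (reads_nd hF).2
  | leaf x r o Y t d h ih =>
    rw [show a + (o + 1) = a + 1 + o by omega]; exact ih (reads_tm hF).2

/-- `Top τ c p D d`: the forest `c` has at offset `p` a node `D[τ]` with child forest `d`, above which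
there is no node with stack `τ`. -/
inductive Top (τ : List Fl) : Forest T NT Fl → ℕ → NT → Forest T NT Fl → Prop
  | here (X : NT) (c r : Forest T NT Fl) : Top τ (nd X τ c r) 0 X c
  | child (X : NT) (s : List Fl) (c r : Forest T NT Fl) (o : ℕ) (Y : NT) (d : Forest T NT Fl)
      (hs : s ≠ τ) (h : Top τ c o Y d) : Top τ (nd X s c r) o Y d
  | rest (X : NT) (s : List Fl) (c r : Forest T NT Fl) (o : ℕ) (Y : NT)
      (d : Forest T NT Fl) (h : Top τ r o Y d) : Top τ (nd X s c r) (c.len + o) Y d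
  | leaf (a : T) (r : Forest T NT Fl) (o : ℕ) (Y : NT)
      (d : Forest T NT Fl) (h : Top τ r o Y d) : Top τ (tm a r) (o + 1) Y d

variable {τ : List Fl}

lemma Top.occ {c : Forest T NT Fl} {p : ℕ} {D : NT} {d : Forest T NT Fl} (h : Top τ c p D d) :
    Occ c p D τ d := by
  induction h with
  | here X c r => exact Occ.here _ _ _ _
  | child X s c r o Y d hs h ih => exact Occ.child _ _ _ _ _ _ _ _ ih
  | rest X s c r o Y d h ih => exact Occ.rest _ _ _ _ _ _ _ _ ih
  | leaf a r o Y d h ih => exact Occ.leaf _ _ _ _ _ _ ih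

lemma Top.cases_nd {X : NT} {s : List Fl} {c r : Forest T NT Fl} {o : ℕ} {Y : NT}
    {d : Forest T NT Fl} (h : Top τ (nd X s c r) o Y d) :
    (o = 0 ∧ X = Y ∧ s = τ ∧ c = d) ∨ (s ≠ τ ∧ Top τ c o Y d) ∨
      ∃ o', o = c.len + o' ∧ Top τ r o' Y d := by
  cases h with
  | here => exact Or.inl ⟨rfl, rfl, rfl, rfl⟩
  | child _ _ _ _ _ _ _ hs h => exact Or.inr (Or.inl ⟨hs, h⟩)
  | rest _ _ _ _ o' _ _ h => exact Or.inr (Or.inr ⟨o', rfl, h⟩)

lemma Top.cases_tm {a : T} {r : Forest T NT Fl} {o : ℕ} {Y : NT}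
    {d : Forest T NT Fl} (h : Top τ (tm a r) o Y d) : ∃ o', o = o' + 1 ∧ Top τ r o' Y d := by
  cases h with
  | leaf _ _ o' _ _ h => exact ⟨o', rfl, h⟩

lemma exists_top {c : Forest T NT Fl} {p : ℕ} {D : NT} {t : List Fl} {d : Forest T NT Fl}
    (h : Occ c p D t d) (ht : t = τ) :
    ∃ p' D' d', Top τ c p' D' d' ∧ p' ≤ p ∧ p + d.len ≤ p' + d'.len := by
  induction h with
  | here X s c r => subst ht; exact ⟨0, X, c, Top.here _ _ _, le_rfl, le_rfl⟩
  | child X s c r o Y t d h ih =>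
    by_cases hs : s = τ
    · subst hs
      exact ⟨0, X, c, Top.here _ _ _, by omega, by have := h.le; omega⟩
    · obtain ⟨p', D', d', h1, h2, h3⟩ := ih ht
      exact ⟨p', D', d', Top.child _ _ _ _ _ _ _ hs h1, h2, h3⟩
  | rest X s c r o Y t d h ih =>
    obtain ⟨p', D', d', h1, h2, h3⟩ := ih ht
    exact ⟨c.len + p', D', d', Top.rest _ _ _ _ _ _ _ h1, by omega, by omega⟩
  | leaf a r o Y t d h ih =>
    obtain ⟨p', D', d', h1, h2, h3⟩ := ih ht
    exact ⟨p' + 1, D', d', Top.leaf _ _ _ _ _ h1, by omega, by omega⟩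

lemma Top.disjoint {c : Forest T NT Fl} : ∀ {p : ℕ} {D : NT} {d : Forest T NT Fl}
    (_ : Top τ c p D d) {p' : ℕ} {D' : NT} {d' : Forest T NT Fl} (_ : Top τ c p' D' d'),
    (p = p' ∧ D = D' ∧ d = d') ∨ p + d.len ≤ p' ∨ p' + d'.len ≤ p := by
  induction c with
  | nil => intro p D d h; cases h
  | tm a r ih =>
    intro p D d h p' D' d' h'
    obtain ⟨o, rfl, h3⟩ := h.cases_tm
    obtain ⟨o', rfl, h3'⟩ := h'.cases_tm
    rcases ih h3 h3' with ⟨h1, h2, h3⟩ | h1 | h1
    · exact Or.inl ⟨by omega, h2, h3⟩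
    · exact Or.inr (Or.inl (by omega))
    · exact Or.inr (Or.inr (by omega))
  | nd X s c r ihc ihr =>
    intro p D d h p' D' d' h'
    rcases h.cases_nd with ⟨rfl, rfl, hs, rfl⟩ | ⟨hs, h1⟩ | ⟨p, rfl, h1⟩ <;>
      rcases h'.cases_nd with ⟨rfl, rfl, hs', rfl⟩ | ⟨hs', h2⟩ | ⟨q, rfl, h2⟩
    · exact Or.inl ⟨rfl, rfl, rfl⟩
    · exact absurd hs hs'
    · exact Or.inr (Or.inl (by omega))
    · exact absurd hs' hs
    · exact ihc h1 h2
    · have := h1.occ.le
      exact Or.inr (Or.inl (by omega))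
    · exact Or.inr (Or.inr (by omega))
    · have := h2.occ.le
      exact Or.inr (Or.inr (by omega))
    · rcases ihr h1 h2 with ⟨h1, h2, h3⟩ | h1 | h1
      · exact Or.inl ⟨by omega, h2, h3⟩
      · exact Or.inr (Or.inl (by omega))
      · exact Or.inr (Or.inr (by omega))

lemma cov_iff {Λ : ℕ} {c : Forest T NT Fl} {i : ℕ} :
    Cov Λ τ c i ↔ ∃ p D d, Top τ c p D d ∧ Λ ≤ d.len ∧ p ≤ i ∧ i < p + d.len := by
  constructor
  · rintro ⟨o, D, d, h1, h2, h3, h4⟩
    obtain ⟨p', D', d', h5, h6, h7⟩ := exists_top h1 rfl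
    exact ⟨p', D', d', h5, by omega, by omega, by omega⟩
  · rintro ⟨o, D, d, h1, h2, h3, h4⟩
    exact ⟨o, D, d, h1.occ, h2, h3, h4⟩

end Forest

open Forest IndexedGrammar

variable {T : Type} {γ : IndexedGrammar T}

/-- The letters or nonterminals are equal, and the bottom `τ₂` of the stack is replaced by `τ₁`. -/
def RBS (τ₂ τ₁ : List γ.Flag) (x y : T ⊕ (γ.NT × List γ.Flag)) : Prop :=
  (∃ a, x = Sum.inl a ∧ y = Sum.inl a) ∨
    ∃ Z s', x = Sum.inr (Z, s' ++ τ₂) ∧ y = Sum.inr (Z, s' ++ τ₁)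

lemma rbs_distribute (τ₂ τ₁ s' : List γ.Flag) (β : List (T ⊕ γ.NT)) :
    List.Forall₂ (RBS τ₂ τ₁) (γ.distribute (s' ++ τ₂) β) (γ.distribute (s' ++ τ₁) β) := by
  induction β with
  | nil => exact List.Forall₂.nil
  | cons x β ih =>
    refine List.Forall₂.cons ?_ ih
    cases x with
    | inl a => exact Or.inl ⟨a, rfl, rfl⟩
    | inr Z => exact Or.inr ⟨Z, s', rfl, rfl⟩

lemma ruleOK_rebase {τ₂ τ₁ s' : List γ.Flag} (hs : s' ≠ []) {X : γ.NT} {α : γ.Form}
    (h : γ.RuleOK X (s' ++ τ₂) α) :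
    ∃ α', γ.RuleOK X (s' ++ τ₁) α' ∧ List.Forall₂ (RBS τ₂ τ₁) α α' := by
  rcases h with ⟨β, h, rfl⟩ | ⟨Y, f, h, rfl⟩ | ⟨f, s'', β, hs'', h, rfl⟩
  · exact ⟨_, Or.inl ⟨β, h, rfl⟩, rbs_distribute _ _ _ _⟩
  · refine ⟨_, Or.inr (Or.inl ⟨Y, f, h, rfl⟩), List.Forall₂.cons ?_ List.Forall₂.nil⟩
    exact Or.inr ⟨Y, f :: s', rfl, rfl⟩
  · obtain ⟨g, s₁, rfl⟩ := List.exists_cons_of_ne_nil hs
    simp only [List.cons_append, List.cons.injEq] at hs''
    obtain ⟨rfl, rfl⟩ := hs''
    exact ⟨_, Or.inr (Or.inr ⟨g, s₁ ++ τ₁, β, rfl, h, rfl⟩), rbs_distribute _ _ _ _⟩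

variable {G : Type} [Group G] (h : T → G)

/-- The value of a word in the group. -/
def ev (w : List T) : G := (w.map h).prod

@[simp] lemma ev_nil : ev h [] = 1 := rfl

@[simp] lemma ev_cons (a : T) (w : List T) : ev h (a :: w) = h a * ev h w := by simp [ev]

@[simp] lemma ev_append (u v : List T) : ev h (u ++ v) = ev h u * ev h v := by simp [ev]

open Classical in
/-- The word `V` has the correct value at the nodes with stack `τ₂`, and is read by the other parts
of the forest. -/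
def Good (τ₁ τ₂ : List γ.Flag) (V : ℕ → T) : ℕ → γ.DF → Prop
  | _, Forest.nil => True
  | a, Forest.tm x r => V a = x ∧ Good τ₁ τ₂ V (a + 1) r
  | a, Forest.nd X s c r =>
    (if s = τ₂ then ∃ y : List T, γ.Der [Sum.inr (X, τ₁)] (y.map Sum.inl) ∧
        ev h y = ev h (seg V a c.len) else Good τ₁ τ₂ V a c) ∧
      Good τ₁ τ₂ V (a + c.len) r

lemma rebase (τ₁ τ₂ : List γ.Flag) (V : ℕ → T) (c : γ.DF) : ∀ (a : ℕ), Valid c →
    Good h τ₁ τ₂ V a c → ∀ u, List.Forall₂ (RBS τ₂ τ₁) c.root u →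
    ∃ w : List T, γ.Der u (w.map Sum.inl) ∧ ev h w = ev h (seg V a c.len) := by
  induction c with
  | nil =>
    intro a _ _ u hu
    cases hu
    exact ⟨[], der_refl _, by simp⟩
  | tm x r ih =>
    intro a hv hg u hu
    obtain ⟨y, u', hy, hu', rfl⟩ : ∃ y u', RBS τ₂ τ₁ (Sum.inl x) y ∧
        List.Forall₂ (RBS τ₂ τ₁) r.root u' ∧ u = y :: u' := by
      cases hu with
      | cons h1 h2 => exact ⟨_, _, h1, h2, rfl⟩
    obtain ⟨w, hw1, hw2⟩ := ih (a + 1) hv hg.2 u' hu'
    have hy' : y = Sum.inl x := by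
      rcases hy with ⟨b, h1, h2⟩ | ⟨Z, s', h1, _⟩
      · rw [h2, ← h1]
      · simp at h1
    subst hy'
    refine ⟨x :: w, ?_, ?_⟩
    · have := (der_refl (γ := γ) [Sum.inl x]).append hw1
      simpa using this
    · rw [len_tm, seg_succ, ev_cons, ev_cons, hw2, hg.1]
  | nd X s c r ihc ihr =>
    intro a hv hg u hu
    obtain ⟨y, u', hy, hu', rfl⟩ : ∃ y u', RBS τ₂ τ₁ (Sum.inr (X, s)) y ∧
        List.Forall₂ (RBS τ₂ τ₁) r.root u' ∧ u = y :: u' := by
      cases hu with
      | cons h1 h2 => exact ⟨_, _, h1, h2, rfl⟩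
    obtain ⟨wr, hw1, hw2⟩ := ihr (a + c.len) hv.2.2 hg.2 u' hu'
    obtain ⟨s', hs, rfl⟩ : ∃ s', s = s' ++ τ₂ ∧ y = Sum.inr (X, s' ++ τ₁) := by
      rcases hy with ⟨b, h1, h2⟩ | ⟨Z, s', h1, h2⟩
      · simp at h1
      · simp only [Sum.inr.injEq, Prod.mk.injEq] at h1
        exact ⟨s', h1.2, by rw [h2, h1.1]⟩
    obtain ⟨wc, hc1, hc2⟩ : ∃ w : List T, γ.Der [Sum.inr (X, s' ++ τ₁)] (w.map Sum.inl) ∧
        ev h w = ev h (seg V a c.len) := by
      by_cases hs' : s' = []
      · subst hs'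
        have hst : s = τ₂ := by simpa using hs
        have h1 := hg.1
        rw [if_pos hst] at h1
        simpa using h1
      · have hst : s ≠ τ₂ := by
          intro hst
          rw [hst] at hs
          apply hs'
          simpa using hs
        have h1 := hg.1
        rw [if_neg hst] at h1
        have hr := hv.1
        rw [hs] at hr
        obtain ⟨α', hα', hrb⟩ := ruleOK_rebase (τ₁ := τ₁) hs' hr
        obtain ⟨w, hw, hw'⟩ := ihc a hv.2.1 h1 α' hrb
        exact ⟨w, (der_of_ruleOK hα').trans hw, hw'⟩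
    refine ⟨wc ++ wr, ?_, ?_⟩
    · have := hc1.append hw1
      simpa using this
    · rw [len_nd, seg_add, ev_append, ev_append, hc2, hw2]

lemma good_of (τ₁ τ₂ : List γ.Flag) (V : ℕ → T) (Λ : ℕ) (c : γ.DF) : ∀ (a : ℕ),
    (∀ i, i < c.len → ¬ Cov Λ τ₂ c i → c.yield[i]? = some (V (a + i))) →
    (∀ p D d, Top τ₂ c p D d → Λ ≤ d.len → ∃ y : List T, γ.Der [Sum.inr (D, τ₁)] (y.map Sum.inl) ∧
        ev h y = ev h (seg V (a + p) d.len)) →
    (∀ p D d, Top τ₂ c p D d → d.len < Λ → ∃ y : List T, γ.Der [Sum.inr (D, τ₁)] (y.map Sum.inl) ∧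
        ev h y = ev h d.yield) →
    Good h τ₁ τ₂ V a c := by
  induction c with
  | nil => intro a _ _ _; trivial
  | tm x r ih =>
    intro a h1 h2 h3
    refine ⟨?_, ih (a + 1) ?_ ?_ ?_⟩
    · have := h1 0 (by simp) (by
        rintro ⟨o, D, d, h4, h5, h6, h7⟩
        obtain ⟨o', ho', _⟩ := h4.cases_tm
        omega)
      simpa using this.symm
    · intro i hi hc
      have := h1 (i + 1) (by simp; omega) (by
        rintro ⟨o, D, d, h4, h5, h6, h7⟩
        obtain ⟨o', ho', h8⟩ := h4.cases_tm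
        exact hc ⟨o', D, d, h8, h5, by omega, by omega⟩)
      rw [show a + 1 + i = a + (i + 1) by omega, ← this]
      simp
    · intro p D d ht hd
      have := h2 (p + 1) D d (Top.leaf _ _ _ _ _ ht) hd
      rwa [show a + 1 + p = a + (p + 1) by omega]
    · intro p D d ht hd
      exact h3 (p + 1) D d (Top.leaf _ _ _ _ _ ht) hd
  | nd X s c r ihc ihr =>
    intro a h1 h2 h3
    refine ⟨?_, ihr (a + c.len) ?_ ?_ ?_⟩
    · split_ifs with hs
      · subst hs
        rcases lt_or_ge c.len Λ with hc | hc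
        · obtain ⟨y, hy1, hy2⟩ := h3 0 X c (Top.here _ _ _) hc
          refine ⟨y, hy1, hy2.trans ?_⟩
          congr 1
          apply List.ext_getElem?
          intro i
          rcases lt_or_ge i c.len with hi | hi
          · have := h1 i (by simp; omega) (by
              rintro ⟨o, D, d, h4, h5, h6, h7⟩
              rcases h4.cases_nd with ⟨_, _, _, rfl⟩ | h8 | ⟨o', ho', _⟩
              · omega
              · have := h8.le; omega
              · omega)
            rw [yield_nd, List.getElem?_append_left hi] at this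
            rw [this]
            simp [seg, hi]
          · rw [List.getElem?_eq_none hi, List.getElem?_eq_none (by simpa using hi)]
        · have := h2 0 X c (Top.here _ _ _) hc
          simpa using this
      · apply ihc a
        · intro i hi hc
          have := h1 i (by simp; omega) (by
            rintro ⟨o, D, d, h4, h5, h6, h7⟩
            rcases h4.cases_nd with ⟨_, _, h9, rfl⟩ | h8 | ⟨o', ho', _⟩
            · exact hs h9
            · exact hc ⟨o, D, d, h8, h5, h6, h7⟩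
            · omega)
          rwa [yield_nd, List.getElem?_append_left hi] at this
        · intro p D d ht hd
          exact h2 p D d (Top.child _ _ _ _ _ _ _ hs ht) hd
        · intro p D d ht hd
          exact h3 p D d (Top.child _ _ _ _ _ _ _ hs ht) hd
    · intro i hi hc
      have := h1 (c.len + i) (by simp; omega) (by
        rintro ⟨o, D, d, h4, h5, h6, h7⟩
        rcases h4.cases_nd with ⟨h10, _, h9, rfl⟩ | h8 | ⟨o', ho', h8⟩
        · omega
        · have := h8.le; omega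
        · exact hc ⟨o', D, d, h8, h5, by omega, by omega⟩)
      rw [yield_nd, List.getElem?_append_right (by simp [len])] at this
      rw [show a + c.len + i = a + (c.len + i) by omega, ← this]
      congr 1
      simp [len]
    · intro p D d ht hd
      have := h2 (c.len + p) D d (Top.rest _ _ _ _ _ _ _ ht) hd
      rwa [show a + c.len + p = a + (c.len + p) by omega]
    · intro p D d ht hd
      exact h3 (c.len + p) D d (Top.rest _ _ _ _ _ _ _ ht) hd

/-- If two derivations have nodes `Y[f::τ₁]` and `Y[f::τ₂]` at the same place, and compatible exits,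
then the interior of the second can be transplanted into the first. -/
theorem mix {S : γ.NT} (hL : ∀ w : List T, γ.Der [Sum.inr (S, [])] (w.map Sum.inl) → ev h w = 1)
    {n Λ : ℕ} {W₁ W₂ V : ℕ → T} {F₁ F₂ : γ.DF} (hv₁ : Valid F₁) (hv₂ : Valid F₂)
    (hr₁ : F₁.root = [Sum.inr (S, [])])
    (hF₁ : F₁.yield = seg W₁ 0 n) (hF₂ : F₂.yield = seg W₂ 0 n)
    {o : ℕ} {Y : γ.NT} {f : γ.Flag} {τ₁ τ₂ : List γ.Flag} {c₁ c₂ : γ.DF}
    (ho₁ : Occ F₁ o Y (f :: τ₁) c₁) (ho₂ : Occ F₂ o Y (f :: τ₂) c₂) (hlen : c₁.len = c₂.len)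
    (hex : ∀ p D d₂, Top τ₂ c₂ p D d₂ → Λ ≤ d₂.len → ∃ d₁, Top τ₁ c₁ p D d₁ ∧ d₁.len = d₂.len)
    (hκ : ∀ p D d₂, Top τ₂ c₂ p D d₂ → d₂.len < Λ →
      ∃ y : List T, γ.Der [Sum.inr (D, τ₁)] (y.map Sum.inl) ∧ ev h y = ev h d₂.yield)
    (hV : ∀ i, o ≤ i → i < o + c₂.len → ¬ Cov Λ τ₂ c₂ (i - o) → V i = W₂ i)
    (hV' : ∀ i, ¬ (o ≤ i ∧ i < o + c₂.len ∧ ¬ Cov Λ τ₂ c₂ (i - o)) → V i = W₁ i) :
    ev h (seg V 0 n) = 1 := by
  have hFl₁ : F₁.len = n := by simp [len, hF₁]
  have hFl₂ : F₂.len = n := by simp [len, hF₂]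
  have hc₂ : c₂.yield = seg W₂ o c₂.len := by
    have := ho₂.reads (W := W₂) (a := 0) (by rw [hF₂, hFl₂])
    simpa using this
  have hc₁ : c₁.yield = seg W₁ o c₁.len := by
    have := ho₁.reads (W := W₁) (a := 0) (by rw [hF₁, hFl₁])
    simpa using this
  have hgood : Good h τ₁ τ₂ V o c₂ := by
    apply good_of h τ₁ τ₂ V Λ c₂ o
    · intro i hi hc
      rw [hV (o + i) (by omega) (by omega) (by simpa using hc), hc₂]
      simp [seg, hi]
    · intro p D d₂ ht hd
      obtain ⟨d₁, ht₁, hd₁⟩ := hex p D d₂ ht hd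
      refine ⟨d₁.yield, ?_, ?_⟩
      · have h1 := (hv₁.occ (ho₁.trans ht₁.occ))
        exact (der_of_ruleOK h1.1).trans h1.2.der
      · rw [ht₁.occ.reads hc₁, hd₁]
        congr 1
        apply seg_congr
        intro i hi1 hi2
        refine (hV' i ?_).symm
        rintro ⟨_, _, h3⟩
        exact h3 ⟨p, D, d₂, ht.occ, hd, by omega, by omega⟩
    · exact hκ
  obtain ⟨hrule, hvc₂⟩ := hv₂.occ ho₂
  obtain ⟨w, hw, hw'⟩ := rebase h τ₁ τ₂ V (Forest.nd Y (f :: τ₂) c₂ Forest.nil) o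
    ⟨hrule, hvc₂, trivial⟩ (by
      refine ⟨?_, trivial⟩
      rw [if_neg (by
        intro hcon
        have := congrArg List.length hcon
        simp at this)]
      exact hgood) [Sum.inr (Y, f :: τ₁)]
      (List.Forall₂.cons (Or.inr ⟨Y, [f], rfl, rfl⟩) List.Forall₂.nil)
  obtain ⟨p, q, hp, hpq, hrep⟩ := hv₁.context ho₁
  have hder := hrep _ hw
  rw [hr₁, ← List.map_append, ← List.map_append] at hder
  have hone := hL _ hder
  rw [ev_append, ev_append, hw'] at hone
  simp only [len_nd, len_nil, add_zero] at hone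
  have hle := ho₁.le
  rw [hFl₁] at hle
  -- decompose the words
  have hseg : ∀ W : ℕ → T, seg W 0 n = seg W 0 o ++ seg W o c₂.len ++
      seg W (o + c₂.len) (n - (o + c₂.len)) := by
    intro W
    have h1 : n = o + c₂.len + (n - (o + c₂.len)) := by omega
    conv_lhs => rw [h1, seg_add, seg_add]
    simp
  rw [hF₁, hseg W₁] at hpq
  have h2 := List.append_inj hpq (by simp [hp]; change _ = c₁.len; omega)
  have h3 := List.append_inj h2.1 (by simp [hp])
  rw [hseg V, ev_append, ev_append]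
  have h4 : seg V 0 o = p := by
    rw [← h3.1]
    apply seg_congr
    intro i _ hi2
    apply hV'
    rintro ⟨h5, _⟩
    omega
  have h5 : seg V (o + c₂.len) (n - (o + c₂.len)) = q := by
    rw [← h2.2]
    apply seg_congr
    intro i hi1 hi2
    apply hV'
    rintro ⟨_, h5, _⟩
    omega
  rw [h4, h5]
  exact hone

end Pool.Agent.H50R2
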